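import Pool.Agent.Helper3.TCT.Defs
import Pool.Agent.Helper32.TN.T3a

/-!
Adapters from the interface `Pool.TN` (block 1 of helper32) to the statements of `Pool.TCT`.
-/

set_option autoImplicit false

namespace Pool.TCT

open Pool.TC Pool.TCM Pool.TCS Finset
open scoped Classical

section lat

variable {V κ : Type} [Fintype V] [Fintype κ] {G : SimpleGraph V} {D : ℕ} {N : κ → V → V}

/-- the edge colouring given by the involutions -/
def Lat.E (h : Lat G D N) : EC κ V where
  N := N
  inv := h.inv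
  uniq := fun a b u hab _ => h.inj u a b hab

theorem Lat.adj' (h : Lat G D N) : ∀ a u, h.E.N a u ≠ u → G.Adj u (h.E.N a u) := h.sub

theorem Lat.cov (h : Lat G D N) : ∀ u v, G.Adj u v → ∃ a, h.E.N a u = v := by
  intro u v huv
  have h1 : (univ.image (fun a => N a u)).card = D + 1 := by
    rw [card_image_of_injective _ (fun a b hab => h.inj u a b hab), card_univ, h.card]
  have h2 : univ.image (fun a => N a u) ⊆ insert u (nb G u) := by
    intro w hw
    rw [mem_image] at hw
    obtain ⟨a, -, rfl⟩ := hw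
    by_cases hau : N a u = u
    · rw [hau]; exact mem_insert_self _ _
    · refine mem_insert_of_mem ?_
      unfold nb
      rw [mem_filter]
      exact ⟨mem_univ _, h.sub a u hau⟩
  have h3 : (insert u (nb G u)).card ≤ (univ.image (fun a => N a u)).card := by
    rw [h1, ← h.deg u]
    exact card_insert_le _ _
  have h4 := eq_of_subset_of_card_le h2 h3
  have h5 : v ∈ insert u (nb G u) := by
    refine mem_insert_of_mem ?_
    unfold nb
    rw [mem_filter]
    exact ⟨mem_univ _, huv⟩
  rw [← h4, mem_image] at h5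
  obtain ⟨a, -, ha⟩ := h5
  exact ⟨a, ha⟩

end lat

section conv

variable {V κ ι : Type} [Fintype V] [Fintype κ] {G : SimpleGraph V} {B : ℕ} {K : ι → Finset V}

/-- a representative of `K i` -/
noncomputable def rep (hK : Dec G B K) (i : ι) : V := (hK.ne i).choose

theorem rep_mem (hK : Dec G B K) (i : ι) : rep hK i ∈ K i := (hK.ne i).choose_spec

/-- the decomposition as a function -/
noncomputable def Kf (hK : Dec G B K) (v : V) : Option V :=
  if h : ∃ i, v ∈ K i then some (rep hK h.choose) else none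

theorem Kf_some (hK : Dec G B K) {i : ι} {v : V} (h : v ∈ K i) : Kf hK v = some (rep hK i) := by
  have hx : ∃ i, v ∈ K i := ⟨i, h⟩
  have e : Kf hK v = some (rep hK hx.choose) := dif_pos hx
  rw [e, hK.disj hx.choose i v hx.choose_spec h]

theorem Kf_none (hK : Dec G B K) {v : V} : Kf hK v = none ↔ ∀ i, v ∉ K i := by
  constructor
  · intro h i hi
    rw [Kf_some hK hi] at h
    cases h
  · intro h
    exact dif_neg (fun ⟨i, hi⟩ => h i hi)

theorem rep_inj (hK : Dec G B K) {i j : ι} (h : rep hK i = rep hK j) : i = j :=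
  hK.disj i j (rep hK i) (rep_mem hK i) (by rw [h]; exact rep_mem hK j)

theorem Kf_iff (hK : Dec G B K) {i : ι} {v : V} : Kf hK v = some (rep hK i) ↔ v ∈ K i := by
  constructor
  · intro h
    by_cases hx : ∃ j, v ∈ K j
    · obtain ⟨j, hj⟩ := hx
      rw [Kf_some hK hj] at h
      rw [← rep_inj hK (Option.some.inj h)]
      exact hj
    · rw [(Kf_none hK).2 (fun j hj => hx ⟨j, hj⟩)] at h
      cases h
  · exact Kf_some hK

theorem Kf_cases (hK : Dec G B K) {j v : V} (h : Kf hK v = some j) :
    ∃ i, v ∈ K i ∧ j = rep hK i := by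
  by_cases hx : ∃ j, v ∈ K j
  · obtain ⟨i, hi⟩ := hx
    rw [Kf_some hK hi] at h
    exact ⟨i, hi, (Option.some.inj h).symm⟩
  · rw [(Kf_none hK).2 (fun j hj => hx ⟨j, hj⟩)] at h
    cases h

theorem Kf_ne (hK : Dec G B K) {v : V} (h : Kf hK v ≠ none) : ∃ i, v ∈ K i := by
  by_contra hx
  push Not at hx
  exact h ((Kf_none hK).2 hx)

theorem Kf_eq (hK : Dec G B K) {i : ι} {v w : V} (hw : w ∈ K i) :
    Kf hK v = Kf hK w ↔ v ∈ K i := by
  rw [Kf_some hK hw, Kf_iff]

theorem oo_eq (hK : Dec G B K) {i : ι} {w : V} (hw : w ∈ K i) :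
    Pool.TN.oo G (Kf hK) w = (nb G w \ K i).card := by
  unfold Pool.TN.oo
  congr 1
  ext v
  rw [mem_filter, mem_sdiff, ne_eq, Kf_eq hK hw]

theorem sett (hK : Dec G B K) {D : ℕ} {N : κ → V → V} (hL : Lat G D N) :
    Pool.TN.Sett G hL.E (Kf hK) D B where
  reg := hL.deg
  col := hL.card
  adj := hL.adj'
  cov := hL.cov
  inj := hL.inj
  out := by
    intro w hw
    obtain ⟨i, hi⟩ := Kf_ne hK hw
    rw [oo_eq hK hi]
    exact hK.out i w hi
  non := by
    intro w j hw
    obtain ⟨i, hi, rfl⟩ := Kf_cases hK hw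
    refine le_trans (card_le_card ?_) (hK.inn i w hi)
    intro v hv
    rw [mem_filter, Kf_iff] at hv
    rw [mem_sdiff, mem_insert]
    refine ⟨hv.2.1, ?_⟩
    rintro (h | h)
    · exact hv.2.2.1 h
    · unfold nb at h
      rw [mem_filter] at h
      exact hv.2.2.2 h.2

end conv

/-- PAIR from the statements of block 1. -/
theorem thm_Pair' (hPrs : Pool.TN.St_Prs) (hPco : Pool.TN.St_Pco) : St_Pair := by
  intro V κ ι _ _ _ G D B N K Q c0 hL hK hc0 hQ hB hBD
  have hS := sett hK hL
  obtain ⟨π, μ, lam, h1, h2, h3, h4, h5, h6⟩ := hPrs V κ G hL.E (Kf hK) D B hS hB (by omega)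
  have hc0' : Pool.TN.Prp G (fun v => Kf hK v = none) c0 := by
    intro u v hu hv huv
    exact hc0 u v ((Kf_none hK).1 hu) ((Kf_none hK).1 hv) huv
  obtain ⟨c, g1, g2, g3, g4, g5, g6⟩ := hPco V κ G hL.E (Kf hK) D B Q c0 π hS hB (by omega) hQ
    hc0' h1 h2
    (fun i => by
      rw [h3 i]
      have := h4 i
      omega)
  have hP : ∀ v, v ∈ (univ.filter (fun v => π v ≠ v) : Finset V) ↔ π v ≠ v := by
    intro v
    simp
  have hK1 : ∀ i, Pool.TN.Kr (Kf hK) (fun v => ¬ π v ≠ v) (rep hK i) =
      K i \ (univ.filter (fun v => π v ≠ v)) := by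
    intro i
    ext v
    rw [mem_sdiff, hP, Pool.TN.T3a_mem_Kr, Kf_iff]
  have hK2 : ∀ i, Pool.TN.Kr (Kf hK) (fun v => π v ≠ v) (rep hK i) =
      K i ∩ (univ.filter (fun v => π v ≠ v)) := by
    intro i
    ext v
    rw [mem_inter, hP, Pool.TN.T3a_mem_Kr, Kf_iff]
  have hA1 : ∀ v, Cs K (univ.filter (fun v => π v ≠ v)) v →
      Pool.TN.A1 (Kf hK) (fun v => π v ≠ v) v := by
    intro v hv
    rcases hv with hv | hv
    · exact Or.inl ((Kf_none hK).2 hv)
    · exact Or.inr ((hP v).1 hv)
  refine ⟨c, univ.filter (fun v => π v ≠ v), fun i => lam (rep hK i),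
    fun v hv => g1 v ((Kf_none hK).2 hv), ?_⟩
  exact {
    sub := fun w hw => Kf_ne hK (h2 w ((hP w).1 hw)).1
    proper := fun u v hu hv huv => g5 u v (hA1 u hu) (hA1 v hv) huv
    inK := by
      intro i w hwi hw
      have h7 := (g3 w ((hP w).1 hw)).2
      exact (Kf_eq hK hwi).1 h7
    ld := by
      intro v
      unfold load
      rw [card_le_one]
      intro u hu u' hu'
      rw [mem_filter, hP] at hu hu'
      exact g6 u u' hu.1 hu'.1 (hu.2.trans hu'.2.symm)
    notQ := fun w hw => (g3 w ((hP w).1 hw)).1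
    cnt := by
      intro i
      have h7 := h5 (rep hK i) ⟨rep hK i, by
        unfold Pool.TN.Ki
        rw [mem_filter]
        exact ⟨mem_univ _, Kf_some hK (rep_mem hK i)⟩⟩
      have h8 := Pool.TN.T3a_Av (Kf hK) (fun v => π v ≠ v) c (rep hK i)
      have h9 := Pool.TN.T3a_card (Kf hK) π c (rep hK i) h1 (fun w hw => (h2 w hw).2.1) g2 g4
      have h10 := h3 (rep hK i)
      rw [hL.card] at h8
      rw [hK1] at h7
      have h11 : av K (univ.filter (fun v => π v ≠ v)) c i =
          Pool.TN.Av (Kf hK) (fun v => π v ≠ v) c (rep hK i) := by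
        ext a
        simp only [av, Pool.TN.Av, mem_filter, mem_univ, true_and]
        constructor
        · intro h v hv hv'
          exact h v ((Kf_iff hK).1 hv) hv'
        · intro h v hv hv'
          exact h v ((Kf_iff hK).2 hv) hv'
      rw [h11]
      omega
    spare := by
      intro i
      have h7 := h6 (rep hK i)
      rw [hK1] at h7
      refine le_trans (le_of_eq ?_) h7
      refine sum_congr rfl fun w hw => ?_
      rw [oo_eq hK (mem_sdiff.1 hw).1]
    few := by
      intro i
      have h7 := h3 (rep hK i)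
      have h8 := h4 (rep hK i)
      rw [hK2] at h7
      omega }

end Pool.TCT
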