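import Pool.Agent.Helper3.TCT.Defs

/-!
# BERNL: Bernstein inequality for sums of independent variables (helper67)
-/

set_option autoImplicit false

namespace Pool.TCT

open Pool.TC Pool.TCM Pool.TCS Finset
open scoped Classical

theorem BernL_one {A : Type} [Fintype A] [Nonempty A] (g : A → ℝ) (s c : ℝ) (hs : 0 ≤ s)
    (hsc : s * c ≤ 1) (hg : ∀ a, |g a| ≤ c) :
    ∑ a, Real.exp (s * g a) ≤ Fintype.card A *
      Real.exp (s * ((∑ a, g a) / Fintype.card A) + s ^ 2 * ((∑ a, g a ^ 2) / Fintype.card A)) := by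
  have hA : (0 : ℝ) < Fintype.card A := by exact_mod_cast Fintype.card_pos
  have h1 : ∀ a, Real.exp (s * g a) ≤ 1 + s * g a + s ^ 2 * g a ^ 2 := by
    intro a
    have h2 : |s * g a| ≤ 1 := by
      rw [abs_mul, abs_of_nonneg hs]
      exact (mul_le_mul_of_nonneg_left (hg a) hs).trans hsc
    have h3 := (abs_le.1 (Real.abs_exp_sub_one_sub_id_le h2)).2
    nlinarith
  calc ∑ a, Real.exp (s * g a) ≤ ∑ a, (1 + s * g a + s ^ 2 * g a ^ 2) := sum_le_sum fun a _ => h1 a
    _ = Fintype.card A * (1 + (s * ((∑ a, g a) / Fintype.card A)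
          + s ^ 2 * ((∑ a, g a ^ 2) / Fintype.card A))) := by
        rw [sum_add_distrib, sum_add_distrib, ← mul_sum, ← mul_sum]
        simp only [sum_const, card_univ, nsmul_eq_mul, mul_one]
        field_simp
        ring
    _ ≤ _ := by
        refine mul_le_mul_of_nonneg_left ?_ hA.le
        rw [add_comm]
        exact Real.add_one_le_exp _

theorem thm_BernL : St_BernL := by
  intro T A _ _ _ f c W Lam hc hLam hW hf hf2
  have hA : (0 : ℝ) < Fintype.card A := by exact_mod_cast Fintype.card_pos
  have hW0 : 0 < W := lt_of_lt_of_le (by positivity) hW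
  set s : ℝ := Real.sqrt (Lam / W) with hs
  have hs0 : 0 ≤ s := Real.sqrt_nonneg _
  have hs2 : s ^ 2 = Lam / W := Real.sq_sqrt (by positivity)
  have hsc : s * c ≤ 1 := by
    have h1 : (s * c) ^ 2 ≤ 1 := by
      rw [mul_pow, hs2, div_mul_eq_mul_div, div_le_one hW0]
      exact hW
    exact (sq_le_one_iff₀ (by positivity)).1 h1
  have hsW : s * Real.sqrt (W * Lam) = Lam := by
    rw [hs, ← Real.sqrt_mul (by positivity)]
    have : Lam / W * (W * Lam) = Lam ^ 2 := by field_simp
    rw [this, Real.sqrt_sq hLam.le]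
  set M : ℝ := (∑ t, ∑ a, f t a) / Fintype.card A with hM
  set bad : Finset (T → A) := univ.filter (fun ω : T → A => M + 3 * Real.sqrt (W * Lam) ≤
    ∑ t, f t (ω t)) with hbad
  -- exponential moment
  have hmom : ∑ ω : T → A, Real.exp (s * ∑ t, f t (ω t)) ≤
      Fintype.card (T → A) * Real.exp (s * M + Lam) := by
    calc ∑ ω : T → A, Real.exp (s * ∑ t, f t (ω t))
        = ∑ ω : T → A, ∏ t, Real.exp (s * f t (ω t)) := by
          refine sum_congr rfl fun ω _ => ?_
          rw [mul_sum, Real.exp_sum]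
      _ = ∏ t, ∑ a, Real.exp (s * f t a) := by
          rw [Finset.prod_univ_sum, Fintype.piFinset_univ]
      _ ≤ ∏ t, ((Fintype.card A : ℝ) * Real.exp (s * ((∑ a, f t a) / Fintype.card A)
            + s ^ 2 * ((∑ a, f t a ^ 2) / Fintype.card A))) := by
          refine prod_le_prod (fun t _ => sum_nonneg fun a _ => (Real.exp_pos _).le) fun t _ => ?_
          exact BernL_one (f t) s c hs0 hsc (hf t)
      _ = Fintype.card (T → A) * Real.exp (s * M
            + s ^ 2 * ((∑ t, ∑ a, f t a ^ 2) / Fintype.card A)) := by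
          rw [prod_mul_distrib, ← Real.exp_sum, sum_add_distrib, ← mul_sum, ← mul_sum, ← sum_div,
            ← sum_div, ← hM]
          congr 1
          rw [prod_const, card_univ, Fintype.card_fun]
          push_cast
          rfl
      _ ≤ _ := by
          refine mul_le_mul_of_nonneg_left ?_ (by positivity)
          rw [Real.exp_le_exp]
          have h2 : (∑ t, ∑ a, f t a ^ 2) / Fintype.card A ≤ W := by
            rw [div_le_iff₀ hA]
            exact hf2
          have h3 : s ^ 2 * ((∑ t, ∑ a, f t a ^ 2) / Fintype.card A) ≤ s ^ 2 * W :=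
            mul_le_mul_of_nonneg_left h2 (by positivity)
          have h4 : s ^ 2 * W = Lam := by
            rw [hs2]
            field_simp
          linarith
  -- Markov
  have hmk : (bad.card : ℝ) * Real.exp (s * M + 3 * Lam) ≤
      ∑ ω : T → A, Real.exp (s * ∑ t, f t (ω t)) := by
    calc (bad.card : ℝ) * Real.exp (s * M + 3 * Lam)
        = ∑ _ω ∈ bad, Real.exp (s * M + 3 * Lam) := by rw [sum_const, nsmul_eq_mul]
      _ ≤ ∑ ω ∈ bad, Real.exp (s * ∑ t, f t (ω t)) := by
          refine sum_le_sum fun ω hω => ?_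
          rw [Real.exp_le_exp]
          have h5 : M + 3 * Real.sqrt (W * Lam) ≤ ∑ t, f t (ω t) := (mem_filter.1 hω).2
          have h6 := mul_le_mul_of_nonneg_left h5 hs0
          have h7 : s * (M + 3 * Real.sqrt (W * Lam)) = s * M + 3 * Lam := by
            rw [mul_add, ← mul_assoc, mul_comm s 3, mul_assoc, hsW]
          linarith
      _ ≤ _ := sum_le_sum_of_subset_of_nonneg (filter_subset _ _) fun _ _ _ => (Real.exp_pos _).le
  have h8 := hmk.trans hmom
  have h9 : (bad.card : ℝ) ≤ Real.exp (-2 * Lam) * Fintype.card (T → A) := by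
    have h10 : Real.exp (s * M + Lam) = Real.exp (-2 * Lam) * Real.exp (s * M + 3 * Lam) := by
      rw [← Real.exp_add]
      congr 1
      ring
    rw [h10] at h8
    have h11 : 0 < Real.exp (s * M + 3 * Lam) := Real.exp_pos _
    refine le_of_mul_le_mul_right ?_ h11
    calc (bad.card : ℝ) * Real.exp (s * M + 3 * Lam) ≤ _ := h8
      _ = _ := by ring
  refine h9.trans (mul_le_mul_of_nonneg_right ?_ (by positivity))
  rw [Real.exp_le_exp]
  linarith

end Pool.TCT
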