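import Pool.Agent.Helper3.TCT.Defs

/-!
# DEC: the decomposition into near-cliques and vertices with sparse neighbourhoods
-/

set_option autoImplicit false

namespace Pool.TCT

open Pool.TC Pool.TCM Pool.TCS Finset
open scoped Classical

section Dec

variable {V : Type} [Fintype V] (G : SimpleGraph V)

/-- closed neighbourhood -/
noncomputable def Dec_nn (u : V) : Finset V := insert u (nb G u)

/-- the distance of two closed neighbourhoods -/
noncomputable def Dec_d (u x : V) : ℕ := (Dec_nn G u \ Dec_nn G x).card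

theorem Dec_mem {u v : V} : v ∈ Dec_nn G u ↔ v = u ∨ G.Adj u v := by
  simp [Dec_nn, nb]

theorem Dec_memc {u v : V} : v ∈ Dec_nn G u ↔ u ∈ Dec_nn G v := by
  rw [Dec_mem, Dec_mem, G.adj_comm, eq_comm]

theorem Dec_card {D : ℕ} (hD : ∀ u, (nb G u).card = D) (u : V) : (Dec_nn G u).card = D + 1 := by
  rw [Dec_nn, card_insert_of_notMem, hD u]
  simp [nb]

theorem Dec_self (u : V) : Dec_d G u u = 0 := by
  simp [Dec_d]

theorem Dec_inter {D : ℕ} (hD : ∀ u, (nb G u).card = D) (u x : V) :
    (Dec_nn G u ∩ Dec_nn G x).card + Dec_d G u x = D + 1 := by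
  rw [Dec_d, ← Dec_card G hD u]
  exact card_inter_add_card_sdiff _ _

theorem Dec_symm {D : ℕ} (hD : ∀ u, (nb G u).card = D) (u x : V) :
    Dec_d G u x = Dec_d G x u := by
  have h1 := Dec_inter G hD u x
  have h2 := Dec_inter G hD x u
  rw [inter_comm] at h2
  omega

theorem Dec_tri (u x y : V) : Dec_d G u y ≤ Dec_d G u x + Dec_d G x y := by
  unfold Dec_d
  refine le_trans (card_le_card ?_) (card_union_le _ _)
  intro z hz
  simp only [mem_sdiff, mem_union] at hz ⊢
  by_cases h : z ∈ Dec_nn G x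
  · exact Or.inr ⟨h, hz.2⟩
  · exact Or.inl ⟨hz.1, h⟩

theorem Dec_np (u : V) : np G u = ∑ x ∈ nb G u, Dec_d G u x := by
  unfold np
  rw [card_filter, sum_product]
  refine sum_congr rfl fun x hx => ?_
  have hx' : G.Adj u x := by simpa [nb] using hx
  rw [← card_filter, Dec_d]
  congr 1
  ext y
  simp only [mem_filter, mem_sdiff, Dec_mem]
  constructor
  · rintro ⟨h1, h2, h3⟩
    have h1' : G.Adj u y := by simpa [nb] using h1
    refine ⟨Or.inr h1', ?_⟩
    rintro (h | h)
    · exact h2 h.symm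
    · exact h3 h
  · rintro ⟨h1, h2⟩
    rcases h1 with h1 | h1
    · exfalso
      apply h2
      right
      rw [h1]
      exact hx'.symm
    · refine ⟨by simpa [nb] using h1, ?_, ?_⟩
      · intro h
        exact h2 (Or.inl h.symm)
      · intro h
        exact h2 (Or.inr h)

/-- few elements of the closed neighbourhood of a dense vertex are far -/
theorem Dec_far {h : ℕ} {u : V} (hu : np G u < h ^ 2) :
    ((Dec_nn G u).filter (fun x => h < Dec_d G u x)).card < h := by
  by_contra hc
  push Not at hc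
  have h1 : ((Dec_nn G u).filter (fun x => h < Dec_d G u x)).card * h ≤
      ∑ x ∈ (Dec_nn G u).filter (fun x => h < Dec_d G u x), Dec_d G u x := by
    rw [← smul_eq_mul]
    refine card_nsmul_le_sum _ _ _ fun x hx => ?_
    exact ((mem_filter.1 hx).2).le
  have h2 : ∑ x ∈ (Dec_nn G u).filter (fun x => h < Dec_d G u x), Dec_d G u x ≤ np G u := by
    rw [Dec_np]
    refine sum_le_sum_of_subset ?_
    intro x hx
    simp only [mem_filter, Dec_mem] at hx
    rcases hx.1 with h3 | h3
    · rw [h3, Dec_self] at hx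
      omega
    · simpa [nb] using h3
  have h3 : h * h ≤ ((Dec_nn G u).filter (fun x => h < Dec_d G u x)).card * h :=
    Nat.mul_le_mul_right _ hc
  have h4 : h ^ 2 = h * h := by ring
  omega

theorem Dec_cent {D h : ℕ} (hD : ∀ u, (nb G u).card = D) (hh : 36 * h ≤ D) {u v : V}
    (hu : np G u < h ^ 2) (hv : np G v < h ^ 2) (huv : Dec_d G u v ≤ 16 * h) :
    Dec_d G u v ≤ 2 * h := by
  have h1 := Dec_far G hu
  have h2 := Dec_far G hv
  have h3 := Dec_inter G hD u v
  have h4 : ∃ y ∈ Dec_nn G u ∩ Dec_nn G v,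
      y ∉ (Dec_nn G u).filter (fun x => h < Dec_d G u x) ∪
        (Dec_nn G v).filter (fun x => h < Dec_d G v x) := by
    by_contra hc
    push Not at hc
    have h5 : (Dec_nn G u ∩ Dec_nn G v).card ≤
        ((Dec_nn G u).filter (fun x => h < Dec_d G u x) ∪
          (Dec_nn G v).filter (fun x => h < Dec_d G v x)).card := card_le_card hc
    have h6 := card_union_le ((Dec_nn G u).filter (fun x => h < Dec_d G u x))
      ((Dec_nn G v).filter (fun x => h < Dec_d G v x))
    omega
  obtain ⟨y, hy, hy'⟩ := h4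
  simp only [mem_union, mem_filter, mem_inter, not_or, not_and, not_lt] at hy hy'
  have h5 := hy'.1 hy.1
  have h6 := hy'.2 hy.2
  have h7 := Dec_tri G u y v
  rw [Dec_symm G hD y v] at h7
  omega

/-- the near-clique of `u` -/
noncomputable def Dec_K (h : ℕ) (u : V) : Finset V := univ.filter (fun x => Dec_d G u x ≤ 8 * h)

theorem Dec_out {D h : ℕ} (hD : ∀ u, (nb G u).card = D) {u w : V}
    (hu : np G u < h ^ 2) (hw : w ∈ Dec_K G h u) : (nb G w \ Dec_K G h u).card ≤ 14 * h := by
  have h0 : Dec_d G u w ≤ 8 * h := by simpa [Dec_K] using hw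
  have h1 : nb G w \ Dec_K G h u ⊆ (Dec_nn G w \ Dec_nn G u) ∪
      (Dec_nn G u).filter (fun x => h < Dec_d G u x) := by
    intro y hy
    simp only [mem_sdiff, mem_union, mem_filter, Dec_K, mem_univ, true_and, not_le] at hy ⊢
    have hy1 : G.Adj w y := by simpa [nb] using hy.1
    by_cases h2 : y ∈ Dec_nn G u
    · right
      refine ⟨h2, ?_⟩
      omega
    · left
      exact ⟨(Dec_mem G).2 (Or.inr hy1), h2⟩
  have h2 := card_le_card h1
  have h3 := card_union_le (Dec_nn G w \ Dec_nn G u)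
    ((Dec_nn G u).filter (fun x => h < Dec_d G u x))
  have h4 : (Dec_nn G w \ Dec_nn G u).card ≤ 8 * h := by
    have := Dec_symm G hD w u
    unfold Dec_d at this h0
    omega
  have h5 := Dec_far G hu
  omega

/-- double counting of the edges which leave the closed neighbourhood of `u` -/
theorem Dec_leave {D h : ℕ} (hD : ∀ u, (nb G u).card = D) (hh : 36 * h ≤ D) {u : V}
    (hu : np G u < h ^ 2) : (Dec_K G h u \ Dec_nn G u).card ≤ h := by
  by_contra hc
  push Not at hc
  have h1 : (Dec_K G h u \ Dec_nn G u).card * h ≤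
      ∑ x ∈ Dec_K G h u \ Dec_nn G u, (Dec_nn G u ∩ Dec_nn G x).card := by
    rw [← smul_eq_mul]
    refine card_nsmul_le_sum _ _ _ fun x hx => ?_
    have h2 := Dec_inter G hD u x
    have h3 : Dec_d G u x ≤ 8 * h := by
      have := (mem_sdiff.1 hx).1
      simpa [Dec_K] using this
    omega
  have h2 : ∑ x ∈ Dec_K G h u \ Dec_nn G u, (Dec_nn G u ∩ Dec_nn G x).card =
      ∑ y ∈ Dec_nn G u, ((Dec_K G h u \ Dec_nn G u).filter (fun x => y ∈ Dec_nn G x)).card := by
    have e1 : ∀ x ∈ Dec_K G h u \ Dec_nn G u, (Dec_nn G u ∩ Dec_nn G x).card =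
        ∑ y ∈ Dec_nn G u, if y ∈ Dec_nn G x then 1 else 0 := by
      intro x _
      rw [← card_filter, filter_mem_eq_inter]
    rw [sum_congr rfl e1, sum_comm]
    refine sum_congr rfl fun y _ => ?_
    rw [card_filter]
  have h3 : ∑ y ∈ Dec_nn G u, ((Dec_K G h u \ Dec_nn G u).filter (fun x => y ∈ Dec_nn G x)).card ≤
      ∑ y ∈ Dec_nn G u, Dec_d G u y := by
    refine sum_le_sum fun y _ => ?_
    rw [Dec_symm G hD u y, Dec_d]
    refine card_le_card ?_
    intro x hx
    simp only [mem_filter, mem_sdiff] at hx ⊢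
    exact ⟨(Dec_memc G).1 hx.2, hx.1.2⟩
  have h4 : ∑ y ∈ Dec_nn G u, Dec_d G u y = np G u := by
    rw [Dec_nn, sum_insert (by simp [nb]), Dec_self, zero_add, Dec_np]
  have h5 : h * h ≤ (Dec_K G h u \ Dec_nn G u).card * h := Nat.mul_le_mul_right _ hc.le
  have h6 : h ^ 2 = h * h := by ring
  omega

theorem Dec_inn {D h : ℕ} (hD : ∀ u, (nb G u).card = D) (hh : 36 * h ≤ D) {u w : V}
    (hu : np G u < h ^ 2) (hw : w ∈ Dec_K G h u) :
    (Dec_K G h u \ insert w (nb G w)).card ≤ 14 * h := by
  have h0 : Dec_d G u w ≤ 8 * h := by simpa [Dec_K] using hw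
  have h1 : Dec_K G h u \ insert w (nb G w) ⊆ (Dec_K G h u \ Dec_nn G u) ∪
      (Dec_nn G u \ Dec_nn G w) := by
    intro y hy
    have hy2 : y ∉ Dec_nn G w := by
      simpa [Dec_nn] using (mem_sdiff.1 hy).2
    have hy1 := (mem_sdiff.1 hy).1
    simp only [mem_sdiff, mem_union]
    by_cases h2 : y ∈ Dec_nn G u
    · exact Or.inr ⟨h2, hy2⟩
    · exact Or.inl ⟨hy1, h2⟩
  have h2 := card_le_card h1
  have h3 := card_union_le (Dec_K G h u \ Dec_nn G u) (Dec_nn G u \ Dec_nn G w)
  have h4 := Dec_leave G hD hh hu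
  unfold Dec_d at h0
  omega

end Dec

theorem thm_Dec : St_Dec := by
  intro V _ G D h hD h0 hh
  let s : Setoid {u : V // np G u < h ^ 2} :=
    { r := fun u v => Dec_d G u.1 v.1 ≤ 2 * h
      iseqv :=
        { refl := fun u => by
            show Dec_d G u.1 u.1 ≤ 2 * h
            rw [Dec_self]
            omega
          symm := fun {u v} huv => by
            show Dec_d G v.1 u.1 ≤ 2 * h
            rw [Dec_symm G hD]
            exact huv
          trans := fun {u v w} huv hvw => by
            show Dec_d G u.1 w.1 ≤ 2 * h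
            have h1 : Dec_d G u.1 v.1 ≤ 2 * h := huv
            have h2 : Dec_d G v.1 w.1 ≤ 2 * h := hvw
            have h3 := Dec_tri G u.1 v.1 w.1
            exact Dec_cent G hD hh u.2 w.2 (by omega) } }
  refine ⟨Quotient s, Fintype.ofFinite _, fun q => Dec_K G h q.out.1, ?_, ?_⟩
  · refine ⟨?_, ?_, ?_, ?_⟩
    · intro q
      refine ⟨q.out.1, ?_⟩
      simp [Dec_K, Dec_self]
    · intro p q w hp hq
      have h1 : Dec_d G p.out.1 w ≤ 8 * h := by simpa [Dec_K] using hp
      have h2 : Dec_d G q.out.1 w ≤ 8 * h := by simpa [Dec_K] using hq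
      have h3 := Dec_tri G p.out.1 w q.out.1
      have h4 := Dec_symm G hD w q.out.1
      have h5 : Dec_d G p.out.1 q.out.1 ≤ 2 * h :=
        Dec_cent G hD hh p.out.2 q.out.2 (by omega)
      rw [← Quotient.out_eq p, ← Quotient.out_eq q]
      exact Quotient.sound h5
    · intro q w hw
      exact Dec_out G hD q.out.2 hw
    · intro q w hw
      exact Dec_inn G hD hh q.out.2 hw
  · intro u hu
    by_contra hc
    push Not at hc
    let q : Quotient s := Quotient.mk s ⟨u, hc⟩
    apply hu q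
    have h1 : s.r q.out ⟨u, hc⟩ := Quotient.exact (Quotient.out_eq q)
    have h2 : Dec_d G q.out.1 u ≤ 2 * h := h1
    simp only [Dec_K, mem_filter, mem_univ, true_and]
    omega

end Pool.TCT
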