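import Pool.Agent.Helper3.TCT.Defs

/-!
# END9: the total colouring from a vertex colouring with loads at most three (helper35)
-/

set_option autoImplicit false

namespace Pool.TCT

open Pool.TC Pool.TCM Pool.TCS Finset
open scoped Classical

section

variable {V κ : Type} [Fintype V] [Fintype κ]

omit [Fintype κ] in
private theorem End9_mem (G : SimpleGraph V) (u v : V) : v ∈ nb G u ↔ G.Adj u v := by
  simp [nb]

private theorem End9_surj {G : SimpleGraph V} {D : ℕ} {N : κ → V → V} (hL : Lat G D N)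
    {u v : V} (h : G.Adj u v) : ∃ a, N a u = v := by
  have hinj : Function.Injective (fun a => N a u) := fun a b hab => hL.inj u a b hab
  have h1 : (univ.image (fun a => N a u)) ⊆ insert u (nb G u) := by
    intro x hx
    obtain ⟨a, -, rfl⟩ := mem_image.1 hx
    by_cases hx2 : N a u = u
    · rw [mem_insert]
      exact Or.inl hx2
    · rw [mem_insert]
      right
      exact (End9_mem G u _).2 (hL.sub a u hx2)
  have h2 : (insert u (nb G u)).card ≤ (univ.image (fun a => N a u)).card := by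
    rw [card_image_of_injective _ hinj, card_univ, hL.card, ← hL.deg u]
    exact card_insert_le _ _
  have h3 := eq_of_subset_of_card_le h1 h2
  have h4 : v ∈ insert u (nb G u) := by
    rw [mem_insert]
    exact Or.inr ((End9_mem G u v).2 h)
  rw [← h3] at h4
  obtain ⟨a, -, ha⟩ := mem_image.1 h4
  exact ⟨a, ha⟩

end

/-- END9. -/
theorem thm_End9 (hFun : St_Fun) : St_End9 := by
  intro V κ _ _ G D N c hL hc hload
  obtain ⟨g, hg1, hg2⟩ := hFun V (fun u => N (c u) u) 3 (by norm_num) (fun v => by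
    have h := hload v
    unfold load at h
    exact h)
  have hadj : ∀ u v, u ≠ v → N (c u) u = v → G.Adj u v := by
    intro u v huv h
    have h1 := hL.sub (c u) u (by rw [h]; exact huv.symm)
    rwa [h] at h1
  -- no arc is reversed
  have hnr : ∀ u v, u ≠ v → N (c u) u = v → N (c v) v = u → False := by
    intro u v huv h1 h2
    have h3 : N (c u) v = u := by rw [← h1]; exact hL.inv _ _
    have h4 := hL.inj v (c v) (c u) (h2.trans h3.symm)
    exact hc u v (hadj u v huv h1) h4.symm
  let P : Sym2 V → V → Prop := fun z u => ∃ v, z = s(u, v) ∧ u ≠ v ∧ N (c u) u = v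
  let Q : Sym2 V → κ → Prop := fun z a => ∃ u v, z = s(u, v) ∧ G.Adj u v ∧ N a u = v
  let e : Sym2 V → κ ⊕ Fin 4 := fun z =>
    if h : ∃ u, P z u then Sum.inr (g h.choose) else
      if h' : ∃ a, Q z a then Sum.inl h'.choose else Sum.inr 0
  have hPu : ∀ u v, u ≠ v → N (c u) u = v → ∀ u', P s(u, v) u' → u' = u := by
    rintro u v huv h u' ⟨v', h1, h2, h3⟩
    rcases Sym2.eq_iff.1 h1 with ⟨h4, _⟩ | ⟨h4, h5⟩
    · exact h4.symm
    · exfalso
      rw [← h4, ← h5] at h3
      exact hnr u v huv h h3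
  have hF1 : ∀ u v, u ≠ v → N (c u) u = v → e s(u, v) = Sum.inr (g u) := by
    intro u v huv h
    have hex : ∃ u', P s(u, v) u' := ⟨u, v, rfl, huv, h⟩
    show (if h : ∃ u', P s(u, v) u' then (Sum.inr (g h.choose) : κ ⊕ Fin 4) else
      if h' : ∃ a, Q s(u, v) a then Sum.inl h'.choose else Sum.inr 0) = _
    rw [dif_pos hex, hPu u v huv h _ hex.choose_spec]
  have hQ : ∀ (u v u' v' : V) (a : κ), s(u, v) = s(u', v') → N a u' = v' → N a u = v := by
    intro u v u' v' a h3 h5
    rcases Sym2.eq_iff.1 h3 with ⟨h6, h7⟩ | ⟨h6, h7⟩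
    · rw [h6, h7]
      exact h5
    · have h8 := hL.inv a u'
      rw [h5] at h8
      rw [h6, h7]
      exact h8
  have hF2 : ∀ u v, G.Adj u v → N (c u) u ≠ v → N (c v) v ≠ u →
      ∃ a, e s(u, v) = Sum.inl a ∧ N a u = v := by
    intro u v huv h1 h2
    have hnex : ¬ ∃ u', P s(u, v) u' := by
      rintro ⟨u', v', h3, _, h5⟩
      rcases Sym2.eq_iff.1 h3 with ⟨h6, h7⟩ | ⟨h6, h7⟩
      · rw [← h6, ← h7] at h5
        exact h1 h5
      · rw [← h6, ← h7] at h5
        exact h2 h5
    obtain ⟨a, ha⟩ := End9_surj hL huv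
    have hex : ∃ a, Q s(u, v) a := ⟨a, u, v, rfl, huv, ha⟩
    refine ⟨hex.choose, ?_, ?_⟩
    · show (if h : ∃ u', P s(u, v) u' then (Sum.inr (g h.choose) : κ ⊕ Fin 4) else
        if h' : ∃ a, Q s(u, v) a then Sum.inl h'.choose else Sum.inr 0) = _
      rw [dif_neg hnex, dif_pos hex]
    · obtain ⟨u', v', h3, _, h5⟩ := hex.choose_spec
      exact hQ u v u' v' _ h3 h5
  -- the three cases for an edge
  have hcase : ∀ u v, G.Adj u v →
      (N (c u) u = v ∧ e s(u, v) = Sum.inr (g u)) ∨ (N (c v) v = u ∧ e s(u, v) = Sum.inr (g v)) ∨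
        (N (c u) u ≠ v ∧ ∃ a, e s(u, v) = Sum.inl a ∧ N a u = v) := by
    intro u v huv
    by_cases h1 : N (c u) u = v
    · exact Or.inl ⟨h1, hF1 u v huv.ne h1⟩
    · by_cases h2 : N (c v) v = u
      · right
        left
        refine ⟨h2, ?_⟩
        rw [Sym2.eq_swap]
        exact hF1 v u huv.ne' h2
      · exact Or.inr (Or.inr ⟨h1, hF2 u v huv h1 h2⟩)
  refine ⟨e, ?_, ?_⟩
  · intro u v w huv huw hvw heq
    rcases hcase u v huv with ⟨h1, h2⟩ | ⟨h1, h2⟩ | ⟨h1, a, h2, h3⟩
    · rcases hcase u w huw with ⟨h4, h5⟩ | ⟨h4, h5⟩ | ⟨h4, b, h5, h6⟩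
      · exact hvw (h1.symm.trans h4)
      · rw [h2, h5] at heq
        have h6 := hg2 w (by show N (c w) w ≠ w; rw [h4]; exact huw.ne)
        have h7 : g w ≠ g u := by
          have h8 : g w ≠ g (N (c w) w) := h6
          rwa [h4] at h8
        exact h7 (Sum.inr.inj heq).symm
      · rw [h2, h5] at heq
        cases heq
    · rcases hcase u w huw with ⟨h4, h5⟩ | ⟨h4, h5⟩ | ⟨h4, b, h5, h6⟩
      · rw [h2, h5] at heq
        have h6 := hg2 v (by show N (c v) v ≠ v; rw [h1]; exact huv.ne)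
        have h7 : g v ≠ g u := by
          have h8 : g v ≠ g (N (c v) v) := h6
          rwa [h1] at h8
        exact h7 (Sum.inr.inj heq)
      · rw [h2, h5] at heq
        exact hg1 v w hvw (h1.trans h4.symm) (Sum.inr.inj heq)
      · rw [h2, h5] at heq
        cases heq
    · rcases hcase u w huw with ⟨h4, h5⟩ | ⟨h4, h5⟩ | ⟨h4, b, h5, h6⟩
      · rw [h2, h5] at heq
        cases heq
      · rw [h2, h5] at heq
        cases heq
      · rw [h2, h5] at heq
        have h7 : a = b := Sum.inl.inj heq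
        rw [h7] at h3
        exact hvw (h3.symm.trans h6)
  · intro u v huv heq
    rcases hcase u v huv with ⟨h1, h2⟩ | ⟨h1, h2⟩ | ⟨h1, a, h2, h3⟩
    · rw [h2] at heq
      cases heq
    · rw [h2] at heq
      cases heq
    · rw [h2] at heq
      have h4 : a = c u := Sum.inl.inj heq
      rw [h4] at h3
      exact h1 h3

end Pool.TCT
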