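import Pool.Agent.Helper3.TCT.Defs

/-!
# An injective map on a part of a finite set extends to an injective map
-/

set_option autoImplicit false

namespace Pool.TCT

open Pool.TC Pool.TCM Pool.TCS Finset
open scoped Classical

theorem thm_Ext : St_Ext := by
  intro X _ Y f hf
  have hinj : Set.InjOn f (Y : Set X) := fun u hu v hv h =>
    hf u (Finset.mem_coe.1 hu) v (Finset.mem_coe.1 hv) h
  obtain ⟨e, he⟩ := Finset.exists_equiv_extend_of_card_eq (α := X) (β := X) rfl (s := Y) (f := f)
    (t := Finset.univ) (by simp) hinj
  exact ⟨fun x => (e x).1, fun u hu => he u hu, fun a b hab =>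
    e.injective (Subtype.ext hab)⟩

end Pool.TCT
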