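import Pool.Agent.Helper3.TCT.Defs

/-!
# T9, module Fun: colouring the arcs of a functional graph (helper29)
-/

set_option autoImplicit false

namespace Pool.TCT

open Finset
open scoped Classical

/-- two different vertices whose arcs must get different colours -/
def FunR {V : Type} (p : V → V) (u v : V) : Prop := u ≠ v ∧ (p u = p v ∨ v = p u ∨ u = p v)

theorem FunR_symm {V : Type} (p : V → V) {u v : V} (h : FunR p u v) : FunR p v u := by
  obtain ⟨h1, h2⟩ := h
  refine ⟨h1.symm, ?_⟩
  rcases h2 with h2 | h2 | h2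
  · exact Or.inl h2.symm
  · exact Or.inr (Or.inr h2)
  · exact Or.inr (Or.inl h2)

theorem Fun_deg {V : Type} [Fintype V] (p : V → V) (r : ℕ) (hr : 2 ≤ r)
    (h : ∀ v, (univ.filter (fun u => p u = v)).card ≤ r) (W : Finset V) (hW : W.Nonempty) :
    ∃ u ∈ W, (W.filter (fun v => FunR p u v)).card ≤ r := by
  by_cases h1 : ∃ u ∈ W, ∀ u' ∈ W, u' ≠ u → p u' ≠ u
  · obtain ⟨u, hu, hu1⟩ := h1
    refine ⟨u, hu, ?_⟩
    have hsub : W.filter (fun v => FunR p u v) ⊆
        insert (p u) ((univ.filter (fun v => p v = p u)).erase u) := by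
      intro v hv
      obtain ⟨hvW, hne, hR⟩ := mem_filter.1 hv
      rcases hR with hR | hR | hR
      · exact mem_insert_of_mem (mem_erase.2 ⟨hne.symm, mem_filter.2 ⟨mem_univ _, hR.symm⟩⟩)
      · rw [hR]
        exact mem_insert_self _ _
      · exact absurd hR.symm (hu1 v hvW hne.symm)
    have hmem : u ∈ univ.filter (fun v => p v = p u) := mem_filter.2 ⟨mem_univ _, rfl⟩
    have hc := card_le_card hsub
    have hi := card_insert_le (p u) ((univ.filter (fun v => p v = p u)).erase u)
    have he := card_erase_of_mem hmem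
    have hp : 0 < (univ.filter (fun v => p v = p u)).card := card_pos.2 ⟨u, hmem⟩
    have hb := h (p u)
    omega
  · push Not at h1
    have himg : W ⊆ W.image p := by
      intro u hu
      obtain ⟨u', hu', _, hpu⟩ := h1 u hu
      exact mem_image.2 ⟨u', hu', hpu⟩
    have hcard : (W.image p).card = W.card := le_antisymm card_image_le (card_le_card himg)
    have hinj : Set.InjOn p W := injOn_of_card_image_eq hcard
    obtain ⟨u, hu⟩ := hW
    obtain ⟨s, hs, _, hps⟩ := h1 u hu
    refine ⟨u, hu, ?_⟩
    have hsub : W.filter (fun v => FunR p u v) ⊆ {p u, s} := by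
      intro v hv
      obtain ⟨hvW, hne, hR⟩ := mem_filter.1 hv
      rcases hR with hR | hR | hR
      · exact absurd (hinj (mem_coe.2 hu) (mem_coe.2 hvW) hR) hne
      · rw [hR]
        exact mem_insert_self _ _
      · refine mem_insert_of_mem (mem_singleton.2 ?_)
        exact hinj (mem_coe.2 hvW) (mem_coe.2 hs) (hR.symm.trans hps.symm)
    exact ((card_le_card hsub).trans card_le_two).trans hr

theorem Fun_greedy {V : Type} [Fintype V] (p : V → V) (r : ℕ) (hr : 2 ≤ r)
    (h : ∀ v, (univ.filter (fun u => p u = v)).card ≤ r) (n : ℕ) :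
    ∀ W : Finset V, W.card = n →
      ∃ g : V → Fin (r + 1), ∀ u ∈ W, ∀ v ∈ W, FunR p u v → g u ≠ g v := by
  induction n with
  | zero =>
    intro W hW
    refine ⟨fun _ => 0, fun u hu => ?_⟩
    rw [card_eq_zero] at hW
    rw [hW] at hu
    exact absurd hu (notMem_empty u)
  | succ n ih =>
    intro W hW
    have hne : W.Nonempty := card_pos.1 (by omega)
    obtain ⟨u, hu, hdeg⟩ := Fun_deg p r hr h W hne
    obtain ⟨g, hg⟩ := ih (W.erase u) (by rw [card_erase_of_mem hu]; omega)
    have hfree : ∃ a : Fin (r + 1), a ∉ (W.filter (fun v => FunR p u v)).image g := by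
      by_contra hcon
      push Not at hcon
      have h1 : (univ : Finset (Fin (r + 1))) ⊆ (W.filter (fun v => FunR p u v)).image g :=
        fun a _ => hcon a
      have h2 := card_le_card h1
      have h3 : ((W.filter (fun v => FunR p u v)).image g).card ≤ r := card_image_le.trans hdeg
      rw [card_univ, Fintype.card_fin] at h2
      omega
    obtain ⟨a, ha⟩ := hfree
    have hav : ∀ v ∈ W, FunR p u v → a ≠ g v := by
      intro v hv hR e
      exact ha (mem_image.2 ⟨v, mem_filter.2 ⟨hv, hR⟩, e.symm⟩)
    refine ⟨Function.update g u a, ?_⟩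
    intro v hv w hw hR
    by_cases hvu : v = u
    · subst hvu
      have hwv : w ≠ v := hR.1.symm
      rw [Function.update_self, Function.update_of_ne hwv]
      exact hav w hw hR
    · by_cases hwu : w = u
      · subst hwu
        rw [Function.update_self, Function.update_of_ne hvu]
        exact (hav v hv (FunR_symm p hR)).symm
      · rw [Function.update_of_ne hvu, Function.update_of_ne hwu]
        exact hg v (mem_erase.2 ⟨hvu, hv⟩) w (mem_erase.2 ⟨hwu, hw⟩) hR

/-- FUN -/
theorem thm_Fun : St_Fun := by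
  intro V _ p r hr h
  obtain ⟨g, hg⟩ := Fun_greedy p r hr (fun v => by
    have := h v
    exact this) _ univ rfl
  refine ⟨g, ?_, ?_⟩
  · intro u u' hne hp
    exact hg u (mem_univ _) u' (mem_univ _) ⟨hne, Or.inl hp⟩
  · intro u hp
    exact hg u (mem_univ _) (p u) (mem_univ _) ⟨hp.symm, Or.inr (Or.inl rfl)⟩

end Pool.TCT
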