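import Pool.Agent.Helper3.TCT.Defs

/-!
# T9, module Good: the rows of the good colours (helper26)
-/

set_option autoImplicit false

namespace Pool.TCT

open Pool.TC Pool.TCM Pool.TCS Finset
open scoped Classical

theorem good_bet {m K : ℕ} (h1 : 8 * K ≤ m) (h2 : 24 ≤ K) : 0 ≤ 1 - 3 * bet m K := by
  have hm : (192 : ℝ) ≤ m := by
    have : 192 ≤ m := by omega
    exact_mod_cast this
  have hm0 : (0 : ℝ) < m := by linarith
  have h3 : 1 / (m : ℝ) ≤ 1 / 192 := one_div_le_one_div_of_le (by norm_num) hm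
  have h4 : (0 : ℝ) ≤ 1 - 1 / (m : ℝ) := by linarith
  have h5 : (1 - 1 / (m : ℝ)) ^ (2 * K) ≤ 1 := pow_le_one₀ h4 (by
    have : 0 ≤ 1 / (m : ℝ) := by positivity
    linarith)
  have h6 : bet m K ≤ 1 / (m : ℝ) := by
    unfold bet
    have : 0 ≤ 1 / (m : ℝ) := by positivity
    nlinarith
  linarith

theorem good_mem_Cv {V κ : Type} [Fintype V] [Fintype κ] {S : CS V κ} {U : Finset V}
    {L : V → Finset κ} {v : V} {p : V × κ} :
    p ∈ Cv S U L v ↔ p.1 ∈ U ∧ p.2 ∈ L p.1 ∧ S.r p.1 p.2 = v := by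
  simp [Cv]

theorem good_mem_Pn {V κ : Type} [Fintype V] [Fintype κ] {S : CS V κ} {U : Finset V}
    {L : V → Finset κ} {u w : V} {a : κ} :
    w ∈ Pn S U L u a ↔ w ∈ U ∧ S.adj u w ∧ a ∈ L w := by
  simp [Pn]

/-- GOOD. The rows of the good colours. -/
theorem thm_Good (hSub : St_Sub) (hIter : Pool.TCS.St_Iter) (hGreedy : St_Greedy)
    (hExt : St_Ext) : St_Good := by
  intro V κ ι _ _ _ G D B Kn m n L0 N K Q Rw Gd al Lam hLat hDec hNK hRw hGd hQ hlist
  obtain ⟨A, hA1, hA2, hA3, hA4, hA5⟩ := hSub V κ ι G D B N K Q Rw Gd al Lam hLat hDec hRw hGd hQ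
    hlist hNK.B0 hNK.La hNK.BD hNK.expL
  have hnb : ∀ u w, w ∈ nb G u ↔ G.Adj u w := by
    intro u w
    simp [nb]
  -- sizes
  have hB0 : (1 : ℝ) ≤ B := by exact_mod_cast hNK.B0
  have hBD' : (10 : ℝ) ^ 16 * B ≤ D := by
    refine le_trans ?_ hNK.BD
    have : (0 : ℝ) ≤ 10 ^ 16 * B := by positivity
    nlinarith [hNK.La]
  have hBD : 10 ^ 16 * B ≤ D := by exact_mod_cast hBD'
  have hB1 := hNK.B0
  have hD16 : 10 ^ 16 ≤ D := by omega
  have hBleD : B ≤ D := by omega
  -- the indices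
  let rel : V → V → Prop := fun u v =>
    (∃ x, (x = u ∨ G.Adj u x) ∧ (x = v ∨ G.Adj v x)) ∨ ∃ i, u ∈ K i ∧ v ∈ K i
  have hrsymm : ∀ u v, rel u v → rel v u := by
    rintro u v (⟨x, h1, h2⟩ | ⟨i, h1, h2⟩)
    · exact Or.inl ⟨x, h2, h1⟩
    · exact Or.inr ⟨i, h2, h1⟩
  have hrcount : ∀ u, (univ.filter (fun v => v ≠ u ∧ rel u v)).card ≤ D ^ 3 - 1 := by
    intro u
    have h1 : ((insert u (nb G u)).biUnion (fun x => insert x (nb G x))).card ≤ (D + 1) * (D + 1) := by
      refine (card_biUnion_le_card_mul _ _ (D + 1) ?_).trans ?_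
      · intro x _
        exact (card_insert_le _ _).trans (by rw [hLat.deg])
      · exact Nat.mul_le_mul_right _ ((card_insert_le _ _).trans (by rw [hLat.deg]))
    have h2 : (univ.filter (fun v => ∃ i, u ∈ K i ∧ v ∈ K i)).card ≤ D + 1 + B := by
      by_cases hu : ∃ i, u ∈ K i
      · obtain ⟨i, hi⟩ := hu
        have h3 : univ.filter (fun v => ∃ i, u ∈ K i ∧ v ∈ K i) ⊆
            insert u (nb G u) ∪ (K i \ insert u (nb G u)) := by
          intro v hv
          obtain ⟨j, hj1, hj2⟩ := (mem_filter.1 hv).2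
          have hij : i = j := hDec.disj i j u hi hj1
          rw [← hij] at hj2
          by_cases hv' : v ∈ insert u (nb G u)
          · exact mem_union_left _ hv'
          · exact mem_union_right _ (mem_sdiff.2 ⟨hj2, hv'⟩)
        refine (card_le_card h3).trans ((card_union_le _ _).trans ?_)
        have h4 : (insert u (nb G u)).card ≤ D + 1 := (card_insert_le _ _).trans (by rw [hLat.deg])
        have h5 := hDec.inn i u hi
        omega
      · have h3 : univ.filter (fun v => ∃ i, u ∈ K i ∧ v ∈ K i) = ∅ := by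
          rw [filter_eq_empty_iff]
          rintro v _ ⟨i, hi, _⟩
          exact hu ⟨i, hi⟩
        rw [h3, card_empty]
        omega
    have h3 : univ.filter (fun v => v ≠ u ∧ rel u v) ⊆
        ((insert u (nb G u)).biUnion (fun x => insert x (nb G x))) ∪
          univ.filter (fun v => ∃ i, u ∈ K i ∧ v ∈ K i) := by
      intro v hv
      rcases (mem_filter.1 hv).2.2 with ⟨x, hx1, hx2⟩ | h
      · refine mem_union_left _ (mem_biUnion.2 ⟨x, ?_, ?_⟩)
        · rw [mem_insert, hnb]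
          exact hx1
        · rw [mem_insert, hnb]
          rcases hx2 with h | h
          · exact Or.inl h.symm
          · exact Or.inr h.symm
      · exact mem_union_right _ (mem_filter.2 ⟨mem_univ _, h⟩)
    refine (card_le_card h3).trans ((card_union_le _ _).trans ?_)
    have h6 : (D + 1) * (D + 1) + (D + 1 + B) + 1 ≤ D ^ 3 := by
      have h7 : D ^ 3 = D * D * D := by ring
      rw [h7]
      have h8 : 10 * (D * D) ≤ D * D * D := by nlinarith
      have h9 : D ≤ D * D := by nlinarith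
      nlinarith
    omega
  obtain ⟨idx, hidx⟩ := hGreedy V rel (D ^ 3 - 1) hrsymm (fun u => by convert hrcount u)
  have hT : D ^ 3 - 1 + 1 = D ^ 3 := by
    have : 0 < D ^ 3 := by positivity
    omega
  have hidxK : ∀ i, ∀ w ∈ K i, ∀ w' ∈ K i, idx w = idx w' → w = w' := by
    intro i w hw w' hw' h
    by_contra hne
    exact hidx w w' hne (Or.inr ⟨i, hw, hw'⟩) h
  have hcl : ∀ a w, N a w = w ∨ G.Adj w (N a w) := by
    intro a w
    by_cases h : N a w = w
    · exact Or.inl h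
    · exact Or.inr (hLat.sub a w h)
  have hidxN : ∀ a b w w', N a w = N b w' → idx w = idx w' → w = w' := by
    intro a b w w' h1 h2
    by_contra hne
    refine hidx w w' hne (Or.inl ⟨N a w, hcl a w, ?_⟩) h2
    rw [h1]
    exact hcl b w'
  have hNinj : ∀ a u u', N a u = N a u' → u = u' := by
    intro a u u' h
    rw [← hLat.inv a u, h, hLat.inv]
  -- the row with a given index
  have hex : ∀ i (t : Fin (D ^ 3 - 1 + 1)), ∃ w : V, (∃ w' ∈ K i, idx w' = t) →
      w ∈ K i ∧ idx w = t := by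
    intro i t
    by_cases h : ∃ w' ∈ K i, idx w' = t
    · obtain ⟨w, hw1, hw2⟩ := h
      exact ⟨w, fun _ => ⟨hw1, hw2⟩⟩
    · exact ⟨(hDec.ne i).choose, fun h' => absurd h' h⟩
  choose wi hwi using hex
  have hwi2 : ∀ i, ∀ w ∈ K i, wi i (idx w) = w := by
    intro i w hw
    obtain ⟨h1, h2⟩ := hwi i (idx w) ⟨w, hw, rfl⟩
    exact hidxK i _ h1 w hw h2
  -- the conflict structure
  let f : Fin (D ^ 3 - 1 + 1) → V ⊕ (ι × κ) → V ⊕ (ι × κ) := fun t x =>
    match x with
    | Sum.inl v => Sum.inl v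
    | Sum.inr p => Sum.inl (N p.2 (wi p.1 t))
  let Y : Fin (D ^ 3 - 1 + 1) → Finset (V ⊕ (ι × κ)) := fun t =>
    univ.filter (fun x => ∃ i a, x = Sum.inr (i, a) ∧ ∃ w ∈ K i, idx w = t)
  have hfY : ∀ t, ∀ u ∈ Y t, ∀ v ∈ Y t, f t u = f t v → u = v := by
    intro t u hu v hv h
    obtain ⟨i, a, rfl, w, hw, hwt⟩ := (mem_filter.1 hu).2
    obtain ⟨j, b, rfl, w', hw', hwt'⟩ := (mem_filter.1 hv).2
    have h1 : N a (wi i t) = N b (wi j t) := Sum.inl_injective h
    obtain ⟨h2, h3⟩ := hwi i t ⟨w, hw, hwt⟩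
    obtain ⟨h4, h5⟩ := hwi j t ⟨w', hw', hwt'⟩
    have h6 : wi i t = wi j t := hidxN a b _ _ h1 (h3.trans h5.symm)
    rw [← h6] at h1 h4
    have h7 : i = j := hDec.disj i j _ h2 h4
    have h8 : a = b := hLat.inj _ a b h1
    rw [h7, h8]
  have hgex : ∀ t, ∃ g : V ⊕ (ι × κ) → V ⊕ (ι × κ), (∀ u ∈ Y t, g u = f t u) ∧
      Function.Injective g := fun t => hExt _ (Y t) (f t) (hfY t)
  choose gg hgg1 hgg2 using hgex
  obtain ⟨S, hSA, hSR⟩ : ∃ S : CS (V ⊕ (ι × κ)) (Fin (D ^ 3 - 1 + 1)),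
      (∀ x y, S.adj x y ↔ ∃ i a b, x = Sum.inr (i, a) ∧ y = Sum.inr (i, b) ∧ a ≠ b) ∧
      ∀ u t, S.r u t = gg t u :=
    ⟨{ adj := fun x y => ∃ i a b, x = Sum.inr (i, a) ∧ y = Sum.inr (i, b) ∧ a ≠ b
       r := fun u t => gg t u
       symm := by
         rintro x y ⟨i, a, b, hx, hy, hab⟩
         exact ⟨i, b, a, hy, hx, hab.symm⟩
       irr := by
         rintro x ⟨i, a, b, hx, hy, hab⟩
         rw [hx] at hy
         exact hab (Prod.ext_iff.1 (Sum.inr_injective hy)).2
       inj := fun u u' t h => hgg2 t h }, fun _ _ => Iff.rfl, fun _ _ => rfl⟩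
  have hSadj : ∀ i a j b, S.adj (Sum.inr (i, a)) (Sum.inr (j, b)) ↔ i = j ∧ a ≠ b := by
    intro i a j b
    rw [hSA]
    constructor
    · rintro ⟨i', a', b', h1, h2, h3⟩
      have h4 := Prod.ext_iff.1 (Sum.inr_injective h1)
      have h5 := Prod.ext_iff.1 (Sum.inr_injective h2)
      simp only at h4 h5
      exact ⟨h4.1.trans h5.1.symm, by rw [h4.2, h5.2]; exact h3⟩
    · rintro ⟨rfl, h⟩
      exact ⟨i, a, b, rfl, rfl, h⟩
  have hSr : ∀ i a (t : Fin (D ^ 3 - 1 + 1)), (∃ w ∈ K i, idx w = t) →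
      S.r (Sum.inr (i, a)) t = Sum.inl (N a (wi i t)) := by
    intro i a t h
    rw [hSR]
    exact hgg1 t _ (mem_filter.2 ⟨mem_univ _, i, a, rfl, h⟩)
  -- the lists
  set l : ℕ := ⌈(98 * (D : ℝ)) / (100 * (10000 * B))⌉₊ with hl
  have hden : (0 : ℝ) < 100 * (10000 * B) := by positivity
  have hl1 : 98 * (D : ℝ) ≤ l * (100 * (10000 * B)) := by
    have := Nat.le_ceil ((98 * (D : ℝ)) / (100 * (10000 * B)))
    rw [← hl] at this
    exact (div_le_iff₀ hden).1 this
  have hLex : ∀ x : V ⊕ (ι × κ), ∃ t : Finset (Fin (D ^ 3 - 1 + 1)), ∀ i a, x = Sum.inr (i, a) →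
      a ∈ Gd i → t.card = l ∧ ∀ s ∈ t, ∃ w ∈ Rw i, A w a ∧ idx w = s := by
    intro x
    rcases x with v | ⟨i, a⟩
    · exact ⟨∅, fun i a h => by cases h⟩
    · by_cases ha : a ∈ Gd i
      · have h1 : (((Rw i).filter (fun w => A w a)).image idx).card =
            ((Rw i).filter (fun w => A w a)).card := by
          apply card_image_of_injOn
          intro w hw w' hw' h
          have h2 := (mem_filter.1 (mem_coe.1 hw)).1
          have h3 := (mem_filter.1 (mem_coe.1 hw')).1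
          exact hidxK i w (hRw i h2) w' (hRw i h3) h
        have h2 : l ≤ (((Rw i).filter (fun w => A w a)).image idx).card := by
          rw [h1, hl, Nat.ceil_le, div_le_iff₀ hden]
          have h3 := hA3 i a ha
          have h4 : ((98 * D : ℕ) : ℝ) ≤
              ((100 * (10000 * B) * ((Rw i).filter (fun w => A w a)).card : ℕ) : ℝ) := by
            exact_mod_cast h3
          push_cast at h4
          linarith
        obtain ⟨t, ht1, ht2⟩ := exists_subset_card_eq h2
        refine ⟨t, fun j b hjb _ => ?_⟩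
        have h5 := Prod.ext_iff.1 (Sum.inr_injective hjb)
        simp only at h5
        obtain ⟨rfl, rfl⟩ := h5
        refine ⟨ht2, fun s hs => ?_⟩
        obtain ⟨w, hw, hws⟩ := mem_image.1 (ht1 hs)
        exact ⟨w, (mem_filter.1 hw).1, (mem_filter.1 hw).2, hws⟩
      · refine ⟨∅, fun j b hjb hb => ?_⟩
        have h5 := Prod.ext_iff.1 (Sum.inr_injective hjb)
        simp only at h5
        obtain ⟨rfl, rfl⟩ := h5
        exact absurd hb ha
  choose L hL using hLex
  obtain ⟨U, hU⟩ : ∃ U : Finset (V ⊕ (ι × κ)), ∀ x, x ∈ U ↔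
      ∃ i a, x = Sum.inr (i, a) ∧ a ∈ Gd i :=
    ⟨univ.filter (fun x => ∃ i a, x = Sum.inr (i, a) ∧ a ∈ Gd i), fun x => by simp⟩
  have hLm : ∀ i, ∀ a ∈ Gd i, ∀ t ∈ L (Sum.inr (i, a)), wi i t ∈ Rw i ∧ A (wi i t) a ∧
      idx (wi i t) = t ∧ S.r (Sum.inr (i, a)) t = Sum.inl (N a (wi i t)) := by
    intro i a ha t ht
    obtain ⟨w, hw1, hw2, hw3⟩ := (hL (Sum.inr (i, a)) i a rfl ha).2 t ht
    have h1 : wi i t = w := by
      rw [← hw3]
      exact hwi2 i w (hRw i hw1)
    refine ⟨by rw [h1]; exact hw1, by rw [h1]; exact hw2, by rw [h1]; exact hw3, ?_⟩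
    exact hSr i a t ⟨w, hRw i hw1, hw3⟩
  have hb : ∀ k : ℕ, 1000 * (10000 * B) * k ≤ 961 * D → (k : ℝ) ≤ (1 - 1 / 100) * l := by
    intro k hk
    have h1 : ((1000 * (10000 * B) * k : ℕ) : ℝ) ≤ ((961 * D : ℕ) : ℝ) := by exact_mod_cast hk
    push_cast at h1
    have h2 : (B : ℝ) * (98000 * k) ≤ (B : ℝ) * (96100 * l) := by nlinarith
    have h3 : 98000 * (k : ℝ) ≤ 96100 * l := le_of_mul_le_mul_left h2 (by linarith)
    have h4 : (0 : ℝ) ≤ l := Nat.cast_nonneg _
    linarith
  have hsolv : Solv S U L := by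
    refine hIter (V ⊕ (ι × κ)) (Fin (D ^ 3 - 1 + 1)) S n U L (D ^ 3) l m Kn L0 (1 / 100) Lam
      ?_ ?_ ?_ ?_ ?_ ?_ (by norm_num) (by norm_num) hNK.mK hNK.K24
      (lt_of_lt_of_le one_pos hNK.La) hNK.LK hNK.expI hNK.L00 hNK.LL0 hNK.err hNK.gn ?_
    · -- degrees
      intro u
      rcases u with v | ⟨i, a⟩
      · have : univ.filter (fun v' => S.adj (Sum.inl v) v') = ∅ := by
          rw [filter_eq_empty_iff]
          rintro x _ h0
          obtain ⟨i, a, b, h, _⟩ := (hSA _ _).1 h0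
          cases h
        rw [this, card_empty]
        exact Nat.zero_le _
      · have h1 : univ.filter (fun v' => S.adj (Sum.inr (i, a)) v') ⊆
            (univ : Finset κ).image (fun b => (Sum.inr (i, b) : V ⊕ (ι × κ))) := by
          intro x hx
          obtain ⟨j, a', b', h2, h3, h4⟩ := (hSA _ _).1 (mem_filter.1 hx).2
          have h5 := Prod.ext_iff.1 (Sum.inr_injective h2)
          simp only at h5
          rw [mem_image]
          exact ⟨b', mem_univ _, by rw [h3, h5.1]⟩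
        refine (card_le_card h1).trans (card_image_le.trans ?_)
        rw [card_univ, hLat.card]
        nlinarith [Nat.pow_le_pow_right (show 0 < D by omega) (show 2 ≤ 3 by norm_num), sq_nonneg D]
    · rw [Fintype.card_fin, hT]
    · intro u hu
      obtain ⟨i, a, rfl, ha⟩ := (hU u).1 hu
      exact (hL _ i a rfl ha).1
    · intro u hu t ht t' ht' h
      obtain ⟨i, a, rfl, ha⟩ := (hU u).1 hu
      obtain ⟨_, _, h3, h4⟩ := hLm i a ha t ht
      obtain ⟨_, _, h3', h4'⟩ := hLm i a ha t' ht'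
      rw [h4, h4'] at h
      have h5 := hNinj a _ _ (Sum.inl_injective h)
      rw [← h3, ← h3', h5]
    · intro v
      rcases v with v | q
      · refine hb _ (le_trans (Nat.mul_le_mul_left _ ?_) (hA5 v))
        refine card_le_card_of_injOn (fun p => match p.1 with
          | Sum.inl _ => (Classical.choice (Fintype.card_pos_iff.1 (by rw [hLat.card]; omega)) : κ)
          | Sum.inr q => q.2) ?_ ?_
        · rintro ⟨x, t⟩ hp
          obtain ⟨h1, h2, h3⟩ := good_mem_Cv.1 (mem_coe.1 hp)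
          obtain ⟨i, a, h4, ha⟩ := (hU x).1 h1
          simp only at h2 h3 h4
          subst h4
          obtain ⟨h5, h6, h7, h8⟩ := hLm i a ha t h2
          rw [h8] at h3
          have h9 : N a (wi i t) = v := Sum.inl_injective h3
          have h10 : N a v = wi i t := by rw [← h9, hLat.inv]
          simp only [coe_filter, mem_univ, true_and, Set.mem_ofPred_eq]
          rw [h10]
          exact h6
        · rintro ⟨x, t⟩ hp ⟨x', t'⟩ hp' hxx
          obtain ⟨h1, h2, h3⟩ := good_mem_Cv.1 (mem_coe.1 hp)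
          obtain ⟨i, a, h4, ha⟩ := (hU x).1 h1
          obtain ⟨h1', h2', h3'⟩ := good_mem_Cv.1 (mem_coe.1 hp')
          obtain ⟨i', a', h4', ha'⟩ := (hU x').1 h1'
          simp only at h2 h3 h4 h2' h3' h4'
          subst h4
          subst h4'
          have haa : a = a' := hxx
          subst haa
          obtain ⟨h5, h6, h7, h8⟩ := hLm i a ha t h2
          obtain ⟨h5', h6', h7', h8'⟩ := hLm i' a ha' t' h2'
          rw [h8] at h3
          rw [h8'] at h3'
          have h9 : wi i t = wi i' t' := hNinj a _ _ ((Sum.inl_injective h3).trans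
            (Sum.inl_injective h3').symm)
          have h10 : i = i' := hDec.disj i i' (wi i t) (hRw i h5) (by rw [h9]; exact hRw i' h5')
          have h11 : t = t' := by rw [← h7, ← h7', h9]
          rw [h10, h11]
      · have : Cv S U L (Sum.inr q) = ∅ := by
          rw [eq_empty_iff_forall_notMem]
          rintro ⟨x, t⟩ hx
          obtain ⟨h1, h2, h3⟩ := good_mem_Cv.1 hx
          obtain ⟨i, a, h4, ha⟩ := (hU x).1 h1
          simp only at h2 h3 h4
          subst h4
          obtain ⟨_, _, _, h8⟩ := hLm i a ha t h2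
          rw [h8] at h3
          cases h3
        rw [this, card_empty]
        have h4 : (0 : ℝ) ≤ l := Nat.cast_nonneg _
        push_cast
        linarith
    · intro u hu t ht
      obtain ⟨i, a, rfl, ha⟩ := (hU u).1 hu
      refine hb _ (le_trans (Nat.mul_le_mul_left _ ?_) (hA4 (wi i t)))
      refine card_le_card_of_injOn (fun p => match p with
          | Sum.inl _ => a
          | Sum.inr q => q.2) ?_ ?_
      · intro x hp
        obtain ⟨h1, h2, h3⟩ := good_mem_Pn.1 (mem_coe.1 hp)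
        obtain ⟨j, b, h4, hb'⟩ := (hU x).1 h1
        subst h4
        have h5 := ((hSadj i a j b).1 h2).1
        subst h5
        simp only [coe_filter, mem_univ, true_and, Set.mem_ofPred_eq]
        exact (hLm i b hb' t h3).2.1
      · intro x hp x' hp' hxx
        obtain ⟨h1, h2, h3⟩ := good_mem_Pn.1 (mem_coe.1 hp)
        obtain ⟨j, b, h4, hb'⟩ := (hU x).1 h1
        obtain ⟨h1', h2', h3'⟩ := good_mem_Pn.1 (mem_coe.1 hp')
        obtain ⟨j', b', h4', hb''⟩ := (hU x').1 h1'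
        subst h4
        subst h4'
        have h5 := ((hSadj i a j b).1 h2).1
        have h5' := ((hSadj i a j' b').1 h2').1
        have hbb : b = b' := hxx
        rw [← h5, ← h5', hbb]
    · refine hNK.L0n.trans (mul_le_mul_of_nonneg_right ?_ (pow_nonneg (good_bet hNK.mK hNK.K24) n))
      rw [div_le_iff₀ (by positivity)]
      linarith
  -- the result
  obtain ⟨c, hc1, hc2, hc3⟩ := hsolv
  have hmU : ∀ i, ∀ a ∈ Gd i, (Sum.inr (i, a) : V ⊕ (ι × κ)) ∈ U := fun i a ha =>
    (hU _).2 ⟨i, a, rfl, ha⟩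
  refine ⟨fun i a => wi i (c (Sum.inr (i, a))), ?_, ?_, ?_, ?_⟩
  · intro i a ha
    obtain ⟨h1, h2, _, _⟩ := hLm i a ha _ (hc1 _ (hmU i a ha))
    obtain ⟨j, _, _, h3⟩ := hA1 _ _ h2
    exact ⟨h1, h3⟩
  · intro i a ha b hb' h
    by_contra hab
    obtain ⟨_, _, h1, _⟩ := hLm i a ha _ (hc1 _ (hmU i a ha))
    obtain ⟨_, _, h2, _⟩ := hLm i b hb' _ (hc1 _ (hmU i b hb'))
    refine hc3 _ (hmU i a ha) _ (hmU i b hb') ((hSadj i a i b).2 ⟨rfl, hab⟩) ?_
    rw [← h1, ← h2]
    exact congrArg idx h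
  · intro i j a ha b hb' h
    by_contra hab
    obtain ⟨_, _, _, h1⟩ := hLm i a ha _ (hc1 _ (hmU i a ha))
    obtain ⟨_, _, _, h2⟩ := hLm j b hb' _ (hc1 _ (hmU j b hb'))
    refine hc2 _ (hmU i a ha) _ (hmU j b hb') ?_ ?_
    · intro h3
      have h4 := Prod.ext_iff.1 (Sum.inr_injective h3)
      exact hab h4
    · rw [h1, h2]
      exact congrArg Sum.inl h
  · intro i j a ha hb' h
    obtain ⟨h1, h2, _, _⟩ := hLm i a ha _ (hc1 _ (hmU i a ha))
    obtain ⟨h1', h2', _, _⟩ := hLm j a hb' _ (hc1 _ (hmU j a hb'))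
    have h3 := hA2 _ _ a i h2 h2' h (hRw i h1)
    exact hDec.disj i j _ h3 (hRw j h1')

end Pool.TCT
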