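import Pool.Agent.Helper3.TCT.Defs

/-!
# T9, module Greedy: greedy colouring (helper55)
-/

set_option autoImplicit false

namespace Pool.TCT

open Pool.TC Pool.TCM Pool.TCS Finset
open scoped Classical

/-- GREEDY. Greedy colouring. -/
theorem thm_Greedy : St_Greedy := by
  intro V _ r d hsym hdeg
  have key : ∀ S : Finset V, ∃ f : V → Fin (d + 1), ∀ u ∈ S, ∀ v ∈ S, u ≠ v → r u v →
      f u ≠ f v := by
    intro S
    induction S using Finset.induction_on with
    | empty =>
      exact ⟨fun _ => 0, fun u hu => absurd hu (Finset.notMem_empty u)⟩
    | insert a S ha ih =>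
      obtain ⟨f, hf⟩ := ih
      have hcard : ((univ.filter (fun v => v ≠ a ∧ r a v)).image f).card <
          (univ : Finset (Fin (d + 1))).card := by
        rw [Finset.card_univ, Fintype.card_fin]
        exact lt_of_le_of_lt (Finset.card_image_le.trans (hdeg a)) (Nat.lt_succ_self d)
      obtain ⟨c, -, hc⟩ := Finset.exists_mem_notMem_of_card_lt_card hcard
      have hc' : ∀ v, v ≠ a → r a v → f v ≠ c := by
        intro v hv hr h
        apply hc
        rw [← h]
        exact Finset.mem_image_of_mem f (Finset.mem_filter.2 ⟨Finset.mem_univ v, hv, hr⟩)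
      refine ⟨Function.update f a c, fun u hu v hv huv hr => ?_⟩
      rw [Finset.mem_insert] at hu hv
      by_cases h1 : u = a
      · subst h1
        rw [Function.update_self, Function.update_of_ne huv.symm]
        exact (hc' v huv.symm hr).symm
      · by_cases h2 : v = a
        · subst h2
          rw [Function.update_self, Function.update_of_ne h1]
          exact hc' u h1 (hsym u v hr)
        · rw [Function.update_of_ne h1, Function.update_of_ne h2]
          exact hf u (hu.resolve_left h1) v (hv.resolve_left h2) huv hr
  obtain ⟨f, hf⟩ := key univ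
  exact ⟨f, fun u v huv hr => hf u (Finset.mem_univ u) v (Finset.mem_univ v) huv hr⟩

end Pool.TCT
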