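import Pool.Agent.Helper3.TCT.Defs

/-!
# LAT: a regular graph of degree `D` has an edge colouring with `D + 1` colours (from Vizing)
-/

set_option autoImplicit false

namespace Pool.TCT

open Pool.TC Pool.TCM Finset
open scoped Classical

theorem thm_Lat (hViz : Pool.TCM.St_Viz) : St_Lat := by
  intro V _ G D hdeg
  obtain ⟨E, hcov, hsub⟩ := hViz V (Fin (D + 1)) G D (fun u => (hdeg u).le) (Fintype.card_fin _)
  refine ⟨E.N, hdeg, Fintype.card_fin _, E.inv, ?_, hsub⟩
  intro u a b hab
  by_cases ha : E.N a u = u
  · have hb : E.N b u = u := hab ▸ ha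
    by_contra hne
    have hsubset : nb G u ⊆ ((univ \ {a, b} : Finset (Fin (D + 1)))).image (fun c => E.N c u) := by
      intro v hv
      have hadj : G.Adj u v := (mem_filter.mp hv).2
      obtain ⟨c, hc⟩ := hcov u v hadj
      refine mem_image.mpr ⟨c, ?_, hc⟩
      rw [mem_sdiff]
      refine ⟨mem_univ _, ?_⟩
      intro hcab
      rw [mem_insert, mem_singleton] at hcab
      have hvu : v = u := by
        rcases hcab with h | h
        · rw [← hc, h, ha]
        · rw [← hc, h, hb]
      exact hadj.ne hvu.symm
    have h1 := (card_le_card hsubset).trans card_image_le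
    rw [hdeg u, card_sdiff, inter_univ, card_univ, Fintype.card_fin, card_pair hne] at h1
    have h2 : ({a, b} : Finset (Fin (D + 1))).card ≤ (univ : Finset (Fin (D + 1))).card :=
      card_le_card (subset_univ _)
    rw [card_pair hne, card_univ, Fintype.card_fin] at h2
    omega
  · exact E.uniq a b u hab ha

end Pool.TCT
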