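import Pool.Agent.Helper3.TCT.Defs

/-!
MAIN9: the theorem from the two stages.
-/

set_option autoImplicit false

namespace Pool.TCT

open Pool.TC Pool.TCM Pool.TCS Finset
open scoped Classical

private theorem load_union {V κ : Type} (N : κ → V → V) (U U' : Finset V) (c : V → κ) (v : V) :
    load N (U ∪ U') c v ≤ load N U c v + load N U' c v := by
  unfold load
  rw [filter_union]
  exact card_union_le _ _

private theorem load_congr {V κ : Type} (N : κ → V → V) (U : Finset V) (c c' : V → κ) (v : V)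
    (h : ∀ u ∈ U, c u = c' u) : load N U c v = load N U c' v := by
  unfold load
  congr 1
  refine filter_congr fun u hu => ?_
  rw [h u hu]

/-- The main theorem. -/
theorem thm_Main9 (hReg : St_Reg) (hLat : St_Lat) (hDec : St_Dec) (hS9 : St_S9) (hK9 : St_K9)
    (hEnd9 : St_End9) (hNum9 : St_Num9) : St_Main9 := by
  obtain ⟨D0, hD0⟩ := hNum9
  refine ⟨D0, fun D hD V _ G hdeg => ?_⟩
  obtain ⟨h, K, m0, m2, n, L0, Kn, m, n', L0', g, Lam, x, q, l1, Lam', hh, hhD, hN6, hNK⟩ :=
    hD0 D hD
  obtain ⟨W, _, H, f, hf, hadj, hreg, -⟩ := hReg V G D (D * D) hdeg (fun u => by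
    refine (card_filter_le _ _).trans ?_
    rw [card_product]
    exact Nat.mul_le_mul (hdeg u) (hdeg u))
  obtain ⟨N, hN⟩ := hLat W H D hreg
  obtain ⟨ι, _, KK, hKK, hnp⟩ := hDec W H D h hreg hh hhD
  obtain ⟨c0, hc0, hl2, hl1⟩ := hS9 W (Fin (D + 1)) H D h K m0 m2 n L0 g Lam x q l1 N
    (univ.filter (fun u => ∀ i, u ∉ KK i)) hN hN6 (fun u hu => hnp u (by simpa using hu))
  obtain ⟨c, hc, hprop, hk2, hk1⟩ := hK9 W (Fin (D + 1)) ι H D (14 * h) Kn m n' L0' N KK c0 Lam' hN
    hKK hNK (fun u v hu hv huv => hc0 u (by simpa using hu) v (by simpa using hv) huv)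
  set S : Finset W := univ.filter (fun u => ∀ i, u ∉ KK i) with hS
  have huniv : (univ : Finset W) ⊆ S ∪ KU KK := by
    intro u _
    simp only [mem_union, hS, mem_filter, KU, mem_univ, true_and]
    by_cases hu : ∃ i, u ∈ KK i
    · exact Or.inr hu
    · push Not at hu
      exact Or.inl hu
  have hnbS : ∀ v, nb H v ∩ S = (nb H v).filter (fun u => ∀ i, u ∉ KK i) := by
    intro v
    ext u
    simp [hS]
  have hload : ∀ v, load N univ c v ≤ 3 := by
    intro v
    have h1 : load N univ c v ≤ load N (S ∪ KU KK) c v := by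
      unfold load
      exact card_le_card (filter_subset_filter _ huniv)
    have h2 := load_union N S (KU KK) c v
    have h3 : load N S c v = load N S c0 v :=
      load_congr N S c c0 v (fun u hu => hc u (by simpa [hS] using hu))
    have h4 := hl2 v
    have h5 := hk2 v
    by_cases hv : ∃ i, v ∈ KK i
    · obtain ⟨i, hi⟩ := hv
      have h6 : (nb H v ∩ S).card ≤ 14 * h := by
        refine le_trans (card_le_card ?_) (hKK.out i v hi)
        intro u hu
        rw [mem_inter] at hu
        rw [mem_sdiff]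
        refine ⟨hu.1, ?_⟩
        have := hu.2
        rw [hS, mem_filter] at this
        exact this.2 i
      have h7 := hl1 v (by omega)
      omega
    · push Not at hv
      by_cases hd : 2 * (nb H v ∩ S).card ≤ D
      · have h7 := hl1 v hd
        omega
      · push Not at hd
        rw [hnbS] at hd
        have h7 := hk1 v hv hd
        omega
  obtain ⟨e, he1, he2⟩ := hEnd9 W (Fin (D + 1)) H D N c hN hprop hload
  have hcol : Fintype.card (Fin (D + 1) ⊕ Fin 4) = D + 5 := by
    simp only [Fintype.card_sum, Fintype.card_fin]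
  let φ : Fin (D + 1) ⊕ Fin 4 ≃ Fin (D + 5) := Fintype.equivFinOfCardEq hcol
  refine ⟨fun u => φ (Sum.inl (c (f u))), fun x => φ (e (x.map f)), ?_, ?_, ?_⟩
  · intro u v huv h
    exact hprop _ _ (hadj u v huv) (Sum.inl_injective (φ.injective h))
  · intro u v w huv huw hvw h
    simp only [Sym2.map_mk] at h
    exact he1 (f u) (f v) (f w) (hadj u v huv) (hadj u w huw) (fun h' => hvw (hf h'))
      (φ.injective h)
  · intro u v huv h
    simp only [Sym2.map_mk] at h
    exact he2 (f u) (f v) (hadj u v huv) (φ.injective h)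

/-- The main theorem for all types. -/
theorem main9 (hM : St_Main9) :
    ∃ D0 : ℕ, ∀ D ≥ D0, ∀ {V : Type*} [Fintype V] (G : SimpleGraph V),
    (∀ u, (univ.filter (fun v => G.Adj u v)).card ≤ D) →
    ∃ (c : V → Fin (D + 5)) (e : Sym2 V → Fin (D + 5)), IsTotalColouring G c e := by
  obtain ⟨D0, hD0⟩ := hM
  refine ⟨D0, fun D hD V _ G hdeg => ?_⟩
  let φ : V ≃ Fin (Fintype.card V) := Fintype.equivFin V
  let G' : SimpleGraph (Fin (Fintype.card V)) := G.comap φ.symm
  have hadj : ∀ a b, G'.Adj a b ↔ G.Adj (φ.symm a) (φ.symm b) := fun a b => Iff.rfl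
  have hnb : ∀ a, (nb G' a) = (univ.filter (fun v => G.Adj (φ.symm a) v)).map φ.toEmbedding := by
    intro a
    ext b
    simp only [nb, mem_filter, mem_univ, true_and, mem_map, Equiv.coe_toEmbedding]
    constructor
    · intro h
      exact ⟨φ.symm b, h, by simp⟩
    · rintro ⟨v, h, rfl⟩
      rw [hadj]
      simpa using h
  obtain ⟨c, e, hce⟩ := hD0 D hD (Fin (Fintype.card V)) G'
    (by
      intro a
      rw [hnb, card_map]
      exact hdeg _)
  refine ⟨fun v => c (φ v), fun x => e (x.map φ), ?_, ?_, ?_⟩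
  · intro u v huv
    exact hce.vertex_vertex (φ u) (φ v) (by simpa [hadj] using huv)
  · intro u v w h1 h2 h3
    simp only [Sym2.map_mk]
    exact hce.edge_edge (φ u) (φ v) (φ w) (by simpa [hadj] using h1) (by simpa [hadj] using h2)
      (fun h => h3 (φ.injective h))
  · intro u v huv
    simp only [Sym2.map_mk]
    exact hce.vertex_edge (φ u) (φ v) (by simpa [hadj] using huv)

end Pool.TCT
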