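import Pool.Agent.Helper3.TCT.Defs
import Pool.Agent.Helper3.TCS.Num5

/-!
# NUM9. The parameters
-/

set_option autoImplicit false

namespace Pool.TCT

open Pool.TC Pool.TCM Pool.TCS Finset
open scoped Classical

/-! ### Powers -/

theorem num9_P {Y a e G : ℕ} (hY : Y ≤ 2 ^ a) (h : 4 + a * e ≤ 17 * G ^ 2) :
    8 * (Y ^ e + 1) ≤ 2 ^ (17 * G ^ 2) := by
  have h1 : Y ^ e ≤ 2 ^ (a * e) := by
    rw [pow_mul]
    exact Nat.pow_le_pow_left hY e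
  have h2 : 1 ≤ 2 ^ (a * e) := Nat.one_le_two_pow
  have h3 : 2 ^ (4 + a * e) ≤ 2 ^ (17 * G ^ 2) := Nat.pow_le_pow_right (by norm_num) h
  rw [pow_add] at h3
  omega

theorem num9_pw {G : ℕ} (j : ℕ) : 2 ^ (G + 1 + j) = 2 ^ j * 2 ^ (G + 1) := by
  rw [pow_add, mul_comm]

theorem num9_e1 {D G : ℕ} (hG : 80 ≤ G) (hup : D < 2 ^ (G + 1)) :
    4 * ((3 * (2 * D + 2) + 2) ^ 12 + 1) ≤ 2 ^ (17 * G ^ 2) := by
  have h1 : 3 * (2 * D + 2) + 2 ≤ 2 ^ (G + 1 + 3) := by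
    rw [num9_pw]
    omega
  have h2 := num9_P (e := 12) (G := G) h1 (by nlinarith)
  omega

theorem num9_e2 {D G : ℕ} (hG : 80 ≤ G) (hup : D < 2 ^ (G + 1)) :
    4 * (2 * ((D + 2) ^ 20 + 1)) ≤ 2 ^ (17 * G ^ 2) := by
  have h1 : D + 2 ≤ 2 ^ (G + 1 + 1) := by
    rw [num9_pw]
    omega
  have h2 := num9_P (e := 20) (G := G) h1 (by nlinarith)
  omega

theorem num9_e3 {D G : ℕ} (hG : 80 ≤ G) (hup : D < 2 ^ (G + 1)) :
    4 * ((3 * D ^ 3 + 2) ^ 12 + 1) ≤ 2 ^ (17 * G ^ 2) := by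
  have h1 : 3 * D ^ 3 + 2 ≤ 2 ^ ((G + 1) * 3 + 2) := by
    have h3 : D ^ 3 + 1 ≤ 2 ^ ((G + 1) * 3) := by
      rw [pow_mul]
      have h4 : (D + 1) ^ 3 ≤ (2 ^ (G + 1)) ^ 3 := Nat.pow_le_pow_left hup 3
      nlinarith
    rw [pow_add]
    omega
  have h2 := num9_P (e := 12) (G := G) h1 (by nlinarith)
  omega

/-! ### The near-cliques -/

theorem num9_err {K m L0 : ℕ} (hK : 24 ≤ K) (hm : m = 2 ^ 12 * K ^ 2)
    (hL0 : L0 = K * (2 ^ 22 * K ^ 2 * m) ^ 2) (h2 : 2 ^ 42 * K ^ 2 ≤ 2 ^ K) :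
    8 * Err m K (K : ℝ) L0 ≤ 1 / 100 * bet m K / 16 := by
  have hK' : (24 : ℝ) ≤ K := by exact_mod_cast hK
  have hm' : (m : ℝ) = 2 ^ 12 * (K : ℝ) ^ 2 := by exact_mod_cast hm
  have hmp : (0 : ℝ) < m := by rw [hm']; positivity
  have hmn : 0 < m := by exact_mod_cast hmp
  have h2' : (2 : ℝ) ^ 42 * (K : ℝ) ^ 2 ≤ 2 ^ K := by exact_mod_cast h2
  have h8 : 8 * K ≤ m := by
    rw [hm]
    nlinarith
  obtain ⟨hb, -⟩ := num5_bet hmn h8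
  have hR : 3 / 6400 * (1 / (m : ℝ)) ≤ 1 / 100 * bet m K / 16 := by linarith
  refine le_trans ?_ hR
  have ha : 8 * (40 * (K : ℝ) ^ 3 * (1 / (m : ℝ)) ^ 3) ≤ 1 / 6400 * (1 / (m : ℝ)) := by
    have e1 : 8 * (40 * (K : ℝ) ^ 3 * (1 / (m : ℝ)) ^ 3) =
        320 * (K : ℝ) ^ 3 / ((m : ℝ) ^ 2 * m) := by
      field_simp
      norm_num
    have e2 : 1 / 6400 * (1 / (m : ℝ)) = 1 / (6400 * m) := by
      field_simp
    rw [e1, e2, div_le_div_iff₀ (by positivity) (by positivity)]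
    have e3 : 320 * (K : ℝ) ^ 3 * 6400 ≤ (m : ℝ) ^ 2 := by
      rw [hm']
      have e4 : (2 ^ 12 * (K : ℝ) ^ 2) ^ 2 = 16777216 * (K : ℝ) ^ 3 * K := by ring
      rw [e4]
      have e6 : 0 < (K : ℝ) ^ 3 := by positivity
      nlinarith
    nlinarith
  have hb' : 8 * ((2 : ℝ) ^ 14 * (1 / 2) ^ K) ≤ 1 / 6400 * (1 / (m : ℝ)) := by
    have e2 : 1 / 6400 * (1 / (m : ℝ)) = 1 / (6400 * m) := by
      field_simp
    have e1 : 8 * ((2 : ℝ) ^ 14 * (1 / 2) ^ K) = 2 ^ 17 / 2 ^ K := by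
      rw [one_div_pow]
      ring
    rw [e1, e2, div_le_div_iff₀ (by positivity) (by positivity), one_mul]
    refine le_trans ?_ h2'
    rw [hm']
    have e6 : 0 < (K : ℝ) ^ 2 := by positivity
    nlinarith
  have hc : 8 * (64 * (K : ℝ) ^ 2 * Real.sqrt ((K : ℝ) / L0)) ≤ 1 / 6400 * (1 / (m : ℝ)) := by
    have e0 : (0 : ℝ) < 2 ^ 22 * (K : ℝ) ^ 2 * m := by positivity
    have e1 : (K : ℝ) / L0 = (1 / (2 ^ 22 * (K : ℝ) ^ 2 * m)) ^ 2 := by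
      have e9 : (L0 : ℝ) = K * (2 ^ 22 * (K : ℝ) ^ 2 * m) ^ 2 := by exact_mod_cast hL0
      have e10 : (K : ℝ) ≠ 0 := by positivity
      rw [e9, one_div_pow, div_mul_eq_div_div, div_self e10]
    rw [e1, Real.sqrt_sq (by positivity)]
    have e2 : 8 * (64 * (K : ℝ) ^ 2 * (1 / (2 ^ 22 * (K : ℝ) ^ 2 * m))) =
        1 / 8192 * (1 / (m : ℝ)) := by
      field_simp
      norm_num
    rw [e2]
    have e3 : 0 < 1 / (m : ℝ) := by positivity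
    nlinarith
  unfold Err
  linarith

/-- `K` is small compared with `2 ^ K` -/
theorem num9_2K {G K : ℕ} (hG : 80 ≤ G) (hK : K = 17 * G ^ 2) : 2 ^ 42 * K ^ 2 ≤ 2 ^ K := by
  have h1 : K ≤ 2 ^ (2 * G + 5) := by
    have h3 : G ≤ 2 ^ G := Nat.lt_two_pow_self.le
    calc K = 17 * G ^ 2 := hK
      _ ≤ 32 * (2 ^ G) ^ 2 := Nat.mul_le_mul (by norm_num) (Nat.pow_le_pow_left h3 2)
      _ = 2 ^ (2 * G + 5) := by
          rw [← pow_mul, pow_add, mul_comm G 2]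
          ring
  calc 2 ^ 42 * K ^ 2 ≤ 2 ^ 42 * (2 ^ (2 * G + 5)) ^ 2 := by gcongr
    _ = 2 ^ (42 + (2 * G + 5) * 2) := by rw [← pow_mul, ← pow_add]
    _ ≤ 2 ^ K := by
        apply Nat.pow_le_pow_right (by norm_num)
        rw [hK]
        nlinarith

theorem num9_NK {D G h K : ℕ} (hG : 80 ≤ G) (hup : D < 2 ^ (G + 1)) (hh : 0 < h)
    (hhD : h * G ^ 20 ≤ D) (hK : K = 17 * G ^ 2) (hbig : (2 : ℝ) ^ 1920 ≤ (G : ℝ) ^ 2) :
    NK D (14 * h) K (2 ^ 12 * K ^ 2) (32 * (2 ^ 12 * K ^ 2) * 7)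
      (K * (2 ^ 22 * K ^ 2 * (2 ^ 12 * K ^ 2)) ^ 2) (K : ℝ) := by
  have hLam : (K : ℝ) = 17 * (G : ℝ) ^ 2 := by exact_mod_cast hK
  have hG' : (80 : ℝ) ≤ G := by exact_mod_cast hG
  have hK1 : 1 ≤ K := by rw [hK]; nlinarith
  have hK24 : 24 ≤ K := by rw [hK]; nlinarith
  have hh' : (0 : ℝ) < h := by exact_mod_cast hh
  have hhD' : (h : ℝ) * (G : ℝ) ^ 20 ≤ D := by exact_mod_cast hhD
  obtain ⟨m, hm⟩ : ∃ m, m = 2 ^ 12 * K ^ 2 := ⟨_, rfl⟩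
  have h8 : 8 * K ≤ m := by
    rw [hm]
    nlinarith
  have hmn : 0 < m := by omega
  rw [← hm]
  obtain ⟨L0, hL0⟩ : ∃ L0, L0 = K * (2 ^ 22 * K ^ 2 * m) ^ 2 := ⟨_, rfl⟩
  rw [← hL0]
  have hL0K : K ≤ L0 := by
    rw [hL0]
    exact Nat.le_mul_of_pos_right _ (by positivity)
  constructor
  · omega
  · push_cast
    have h1 : (10 : ℝ) ^ 16 * 14 * 17 ≤ (G : ℝ) ^ 18 :=
      le_trans (by norm_num) (pow_le_pow_left₀ (by norm_num) hG' 18)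
    calc 10 ^ 16 * (14 * (h : ℝ)) * K = (10 ^ 16 * 14 * 17) * (h * (G : ℝ) ^ 2) := by
          rw [hLam]
          ring
      _ ≤ (G : ℝ) ^ 18 * (h * (G : ℝ) ^ 2) := mul_le_mul_of_nonneg_right h1 (by positivity)
      _ = h * (G : ℝ) ^ 20 := by ring
      _ ≤ D := hhD'
  · exact_mod_cast hK1
  · rw [hLam]
    have h1 := num5_exp (num9_e2 hG hup)
    push_cast at h1 ⊢
    linarith
  · rw [hLam]
    have h1 := num5_exp (num9_e3 hG hup)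
    push_cast at h1 ⊢
    exact h1
  · exact hK24
  · exact le_refl _
  · exact h8
  · omega
  · exact_mod_cast hL0K
  · exact num9_err hK24 hm hL0 (num9_2K hG hK)
  · have h1 := num5_gn (T := 7) hmn h8
    linarith
  · have h1 := num5_L0 (m := m) (K := K) (T := 7) (j := 2 ^ 9 * K ^ 2) (by rw [hm]; ring) (by
      have : 0 < 2 ^ 9 * K ^ 2 := by positivity
      exact this) h8
    have h2 : ((1 : ℝ) / 2) ^ (256 * 7) = 1 / 2 ^ 1792 := by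
      rw [one_div_pow]
    rw [h2] at h1
    have h3 : (L0 : ℝ) = 2 ^ 68 * 17 ^ 9 * (G : ℝ) ^ 18 := by
      have h4 : (L0 : ℝ) = (K : ℝ) * (2 ^ 22 * (K : ℝ) ^ 2 * (2 ^ 12 * (K : ℝ) ^ 2)) ^ 2 := by
        have h5 : L0 = K * (2 ^ 22 * K ^ 2 * (2 ^ 12 * K ^ 2)) ^ 2 := by rw [hL0, hm]
        exact_mod_cast h5
      rw [h4, hLam]
      ring
    have h6 : 98 / 100 * (G : ℝ) ^ 20 / 140000 ≤ 98 / 100 * D / (10000 * ((14 * h : ℕ) : ℝ)) := by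
      rw [div_le_div_iff₀ (by norm_num) (by positivity)]
      push_cast
      nlinarith
    have h7 : (L0 : ℝ) ≤ 98 / 100 * (G : ℝ) ^ 20 / 140000 * (1 / 2 ^ 1792) := by
      rw [h3, mul_one_div, le_div_iff₀ (by positivity)]
      have h8 : (2 : ℝ) ^ 68 * 17 ^ 9 * (140000 * 100 / 98) ≤ 2 ^ 128 := by norm_num
      have h9 : (2 : ℝ) ^ 1920 = 2 ^ 128 * 2 ^ 1792 := by rw [← pow_add]
      rw [h9] at hbig
      have h10 : (2 : ℝ) ^ 68 * 17 ^ 9 * (140000 * 100 / 98) * 2 ^ 1792 ≤ (G : ℝ) ^ 2 :=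
        le_trans (mul_le_mul_of_nonneg_right h8 (by positivity)) hbig
      obtain ⟨W, hW⟩ : ∃ W : ℝ, W = 2 ^ 1792 := ⟨_, rfl⟩
      rw [← hW] at h10 ⊢
      have h11 := mul_le_mul_of_nonneg_left h10 (show (0 : ℝ) ≤ (G : ℝ) ^ 18 by positivity)
      calc 2 ^ 68 * 17 ^ 9 * (G : ℝ) ^ 18 * W
          = 98 / 100 * ((G : ℝ) ^ 18 * (2 ^ 68 * 17 ^ 9 * (140000 * 100 / 98) * W)) / 140000 := by
            ring
        _ ≤ 98 / 100 * ((G : ℝ) ^ 18 * (G : ℝ) ^ 2) / 140000 := by gcongr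
        _ = 98 / 100 * (G : ℝ) ^ 20 / 140000 := by ring
    refine h7.trans ?_
    exact mul_le_mul h6 h1 (by positivity) (by positivity)

/-! ### The sparse vertices -/

/-- natural numbers: everything is bounded by `Z` -/
theorem num9_nat {K A m0 Z : ℕ} (hK : 24 ≤ K) (hA : 1 ≤ A)
    (hm0 : m0 = 2 ^ 22 * K ^ 3 * 1 * A) (hZ : 4096 * (m0 ^ 2 * 1 * A) ≤ Z) :
    2 ^ 44 ≤ Z ∧ 2 ^ 16 * K ^ 2 ≤ Z ∧ K ≤ Z ∧ 2 ^ 22 ≤ m0 ∧ 8 * K ≤ m0 := by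
  have hm1 : 2 ^ 22 * K ^ 3 ≤ m0 := by
    rw [hm0]
    calc 2 ^ 22 * K ^ 3 = 2 ^ 22 * K ^ 3 * 1 * 1 := by ring
      _ ≤ 2 ^ 22 * K ^ 3 * 1 * A := by gcongr
  have hK3 : K ≤ K ^ 3 := Nat.le_self_pow (by norm_num) K
  have hm22 : 2 ^ 22 ≤ m0 := by nlinarith
  have hm8 : 8 * K ≤ m0 := by nlinarith
  have hRm : m0 ^ 2 ≤ Z := by
    refine le_trans ?_ hZ
    have h1 : m0 ^ 2 * 1 ≤ m0 ^ 2 * 1 * A := Nat.le_mul_of_pos_right _ hA
    omega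
  have h44 : 2 ^ 44 ≤ m0 ^ 2 := by
    calc 2 ^ 44 = (2 ^ 22) ^ 2 := by norm_num
      _ ≤ m0 ^ 2 := Nat.pow_le_pow_left hm22 2
  have h16 : 2 ^ 16 * K ^ 2 ≤ m0 ^ 2 := by
    calc 2 ^ 16 * K ^ 2 = (2 ^ 8 * K) ^ 2 := by ring
      _ ≤ m0 ^ 2 := Nat.pow_le_pow_left (by nlinarith) 2
  refine ⟨h44.trans hRm, h16.trans hRm, ?_, hm22, hm8⟩
  refine le_trans ?_ (h16.trans hRm)
  nlinarith

theorem num9_N6 {D G h K A m0 T Z : ℕ} (hG : 80 ≤ G) (hlow : 2 ^ G ≤ D) (hup : D < 2 ^ (G + 1))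
    (hK : K = 17 * G ^ 2) (hA : 1 ≤ A) (hh : (D + 1) ^ 2 ≤ A * h ^ 2) (hh2 : h ≤ D)
    (hm0 : m0 = 2 ^ 22 * K ^ 3 * 1 * A) (hZT : Z = 2 ^ T)
    (hZ : 4096 * (m0 ^ 2 * 1 * A) ≤ Z) (hT : 300 * T ≤ G) :
    ∃ (m2 n L0 : ℕ) (g x q l1 : ℝ), N6 D h K m0 m2 n L0 g (K : ℝ) x q l1 := by
  have hK1 : 1 ≤ K := by rw [hK]; nlinarith
  have hK24 : 24 ≤ K := by rw [hK]; nlinarith
  obtain ⟨z44, z16, zK, m22, m8⟩ := num9_nat hK24 hA hm0 hZ
  have hm0n : 0 < m0 := by omega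
  have hLam : (K : ℝ) = 17 * (G : ℝ) ^ 2 := by exact_mod_cast hK
  have hZ44 : (2 : ℝ) ^ 44 ≤ Z := by exact_mod_cast z44
  have hZ1 : (1 : ℝ) ≤ Z := le_trans (by norm_num) hZ44
  have hZ0 : (0 : ℝ) < Z := lt_of_lt_of_le one_pos hZ1
  obtain ⟨d, hd⟩ : ∃ d : ℝ, d = D + 1 := ⟨_, rfl⟩
  have hD0 : 0 < D := lt_of_lt_of_le (by positivity) hlow
  have hZd : (Z : ℝ) ^ 300 ≤ d := by
    have h1 : Z ^ 300 ≤ D + 1 := by
      calc Z ^ 300 = 2 ^ (300 * T) := by rw [hZT, ← pow_mul]; congr 1; ring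
        _ ≤ 2 ^ G := Nat.pow_le_pow_right (by norm_num) hT
        _ ≤ D + 1 := by omega
    rw [hd]
    exact_mod_cast h1
  have hZK : Z ^ 4 ≤ 2 ^ K := by
    rw [hZT, ← pow_mul]
    apply Nat.pow_le_pow_right (by norm_num)
    rw [hK]
    exact num5_4 hG hT
  have hd0 : 0 < d := lt_of_lt_of_le (by positivity) hZd
  have hKZ : (K : ℝ) ≤ Z := by exact_mod_cast zK
  have hK1' : (1 : ℝ) ≤ K := by exact_mod_cast hK1
  obtain ⟨hne, hZe, hde⟩ := num5_e hZ44 hZd hKZ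
  obtain ⟨e, he⟩ : ∃ e : ℝ, e = d / (Z : ℝ) ^ 8 := ⟨_, rfl⟩
  rw [← he] at hne hZe hde
  obtain ⟨n1, hn1⟩ : ∃ n1 : ℝ, n1 = Real.sqrt (D * K) := ⟨_, rfl⟩
  have hn1e : n1 ≤ e := by
    refine le_trans ?_ hne
    rw [hn1]
    apply Real.sqrt_le_sqrt
    apply mul_le_mul_of_nonneg_right _ (by linarith only [hK1'])
    rw [hd]
    linarith
  have hn0 : 0 ≤ n1 := by rw [hn1]; exact Real.sqrt_nonneg _
  have he6 : 10 ^ 6 * e ≤ d := by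
    refine le_trans ?_ hde
    have h1 : (1 : ℝ) ≤ (Z : ℝ) ^ 4 := one_le_pow₀ hZ1
    have h2 : 0 ≤ e := le_trans (by linarith only [hZ0]) hZe
    nlinarith
  -- the probabilities
  obtain ⟨hbe1, hbe2⟩ := num5_bet hm0n m8
  obtain ⟨be, hbe⟩ : ∃ be : ℝ, be = bet m0 K := ⟨_, rfl⟩
  rw [← hbe] at hbe1 hbe2
  have hm0' : (2 : ℝ) ^ 22 ≤ m0 := by exact_mod_cast m22
  have hm0p : (0 : ℝ) < m0 := lt_of_lt_of_le (by positivity) hm0'
  have hbe0 : 0 < be := lt_of_lt_of_le (by positivity) hbe1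
  have hi : 1 / (m0 : ℝ) ≤ 1 / 2 ^ 22 := one_div_le_one_div_of_le (by positivity) hm0'
  have hbe3 : be ≤ 1 / 16 := by
    refine hbe2.trans (hi.trans ?_)
    norm_num
  have hA' : (1 : ℝ) ≤ A := by exact_mod_cast hA
  have hA0 : (0 : ℝ) < A := by linarith only [hA']
  have hh' : d ^ 2 ≤ A * (h : ℝ) ^ 2 := by
    rw [hd]
    exact_mod_cast hh
  have hh2' : (h : ℝ) ≤ d := by
    rw [hd]
    have : (h : ℝ) ≤ D := by exact_mod_cast hh2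
    linarith only [this]
  obtain ⟨de, hde'⟩ : ∃ de : ℝ, de = be ^ 2 * (h : ℝ) ^ 2 / (2 * d ^ 2) := ⟨_, rfl⟩
  have hde1 : 1 / (4 * (m0 : ℝ) ^ 2 * A) ≤ de := by
    rw [hde', div_le_div_iff₀ (by positivity) (by positivity)]
    have h1 : (3 / 4 * (1 / (m0 : ℝ))) ^ 2 ≤ be ^ 2 := pow_le_pow_left₀ (by positivity) hbe1 2
    have h2 : (3 / 4 * (1 / (m0 : ℝ))) ^ 2 * (m0 : ℝ) ^ 2 = 9 / 16 := by
      field_simp
      norm_num
    have h3 : 9 / 16 ≤ be ^ 2 * (m0 : ℝ) ^ 2 := by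
      rw [← h2]
      exact mul_le_mul_of_nonneg_right h1 (by positivity)
    have h4 : 9 / 16 * (A * (h : ℝ) ^ 2) ≤ be ^ 2 * (m0 : ℝ) ^ 2 * (A * (h : ℝ) ^ 2) :=
      mul_le_mul_of_nonneg_right h3 (by positivity)
    calc 1 * (2 * d ^ 2) ≤ 4 * (9 / 16 * (A * (h : ℝ) ^ 2)) := by
          have : 0 ≤ A * (h : ℝ) ^ 2 := by positivity
          linarith only [hh', this]
      _ ≤ 4 * (be ^ 2 * (m0 : ℝ) ^ 2 * (A * (h : ℝ) ^ 2)) := by linarith only [h4]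
      _ = be ^ 2 * (h : ℝ) ^ 2 * (4 * (m0 : ℝ) ^ 2 * A) := by ring
  have hde0 : 0 < de := lt_of_lt_of_le (by positivity) hde1
  have hde2 : de ≤ be / 32 := by
    rw [hde', div_le_iff₀ (by positivity)]
    have h1 : (h : ℝ) ^ 2 ≤ d ^ 2 := pow_le_pow_left₀ (Nat.cast_nonneg h) hh2' 2
    have h2 : be ^ 2 ≤ be * (1 / 16) := by
      rw [sq]
      exact mul_le_mul_of_nonneg_left hbe3 hbe0.le
    calc be ^ 2 * (h : ℝ) ^ 2 ≤ be * (1 / 16) * d ^ 2 := mul_le_mul h2 h1 (by positivity)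
          (by positivity)
      _ = be / 32 * (2 * d ^ 2) := by ring
  -- the error of the first step
  have hsq : Real.sqrt ((K : ℝ) / d) ≤ 1 / (Z : ℝ) ^ 4 := by
    rw [Real.sqrt_le_left (by positivity), one_div_pow, div_le_div_iff₀ hd0 (by positivity),
      one_mul]
    have h1 : (Z : ℝ) ^ 9 ≤ d := (pow_le_pow_right₀ hZ1 (by norm_num)).trans hZd
    calc (K : ℝ) * ((Z : ℝ) ^ 4) ^ 2 ≤ Z * ((Z : ℝ) ^ 4) ^ 2 := by gcongr
      _ = (Z : ℝ) ^ 9 := by ring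
      _ ≤ d := h1
  obtain ⟨E, hE⟩ : ∃ E : ℝ, E = Err m0 K (K : ℝ) d := ⟨_, rfl⟩
  have hE1 : E ≤ de / 128 := by
    have h1 := num5_err0 (b := de) (ll := d) (Lam := (K : ℝ)) hK1 (le_refl 1) hA hm0 (by
      refine le_trans ?_ hde1
      apply one_div_le_one_div_of_le (by positivity)
      have : 0 < (m0 : ℝ) ^ 2 * A := by positivity
      linarith only [this]) hZ z44 hZK hsq (le_trans (Nat.mul_le_mul_right _ (by norm_num)) z16)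
    rw [← hE] at h1
    refine h1.trans (le_of_eq ?_)
    norm_num
  have hE0 : 0 ≤ E := by
    rw [hE]
    unfold Err
    positivity
  -- the gap
  obtain ⟨g, hg⟩ : ∃ g : ℝ, g = 1 / (Z : ℝ) := ⟨_, rfl⟩
  have hg0 : 0 < g := by rw [hg]; positivity
  have hgd : g ≤ de / 2 := by
    have h1 : g ≤ 1 / (4096 * ((m0 : ℝ) ^ 2 * A)) := by
      rw [hg]
      apply one_div_le_one_div_of_le (by positivity)
      have : 4096 * ((m0 : ℝ) ^ 2 * 1 * A) ≤ Z := by exact_mod_cast hZ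
      linarith only [this]
    have h2 : 1 / (4096 * ((m0 : ℝ) ^ 2 * A)) = 1 / (4 * (m0 : ℝ) ^ 2 * A) / 1024 := by
      field_simp
      norm_num
    rw [h2] at h1
    linarith only [h1, hde1, hde0]
  have hg1 : g ≤ 1 / 64 := by linarith only [hgd, hde2, hbe3]
  have hEs : E ≤ 1 / 64 := by linarith only [hE1, hde2, hbe3, hde0]
  obtain ⟨x, hx⟩ : ∃ x : ℝ, x = (D : ℝ) / 2 + 2 * n1 + 1 := ⟨_, rfl⟩
  have hDd : (D : ℝ) = d - 1 := by rw [hd]; ring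
  have hd16 : 16 ≤ d := by
    have : (2 : ℝ) ^ 44 ≤ e := hZ44.trans hZe
    linarith only [this, he6]
  have hx0 : 0 ≤ x := by
    rw [hx]
    positivity
  have hx1 : x ≤ 3 / 4 * d := by
    rw [hx, hDd]
    linarith only [hn1e, he6, hn0, hd16]
  have hx3 : x / d ≤ 1 - (1 / 2) / 2 := by
    rw [div_le_iff₀ hd0]
    linarith only [hx1]
  have hx4 : 0 ≤ x / d := by positivity
  obtain ⟨q, hq⟩ : ∃ q : ℝ, q = be * (D / d) - de := ⟨_, rfl⟩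
  have hmu1 : (D : ℝ) / d ≤ 1 + 2 * 0 := by
    rw [div_le_iff₀ hd0, hDd]
    linarith only
  have hmu2 : 1 / 2 ≤ (D : ℝ) / d := by
    rw [le_div_iff₀ hd0, hDd]
    linarith only [hd16]
  have q0 : 0 ≤ q := by
    rw [hq]
    have := mul_le_mul_of_nonneg_left hmu2 hbe0.le
    linarith only [this, hde2, hbe0]
  have q1 : q ≤ be := by
    rw [hq]
    have := mul_le_mul_of_nonneg_left hmu1 hbe0.le
    linarith only [this, hde0]
  obtain ⟨l1, hl1⟩ : ∃ l1 : ℝ, l1 = d * ((1 - q) * (1 - be * x / d) - E) := ⟨_, rfl⟩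
  have hbx : be * x / d = be * (x / d) := mul_div_assoc _ _ _
  have hx5 : x / d ≤ 1 := by linarith only [hx3]
  have hl1' : d / 8 ≤ l1 := by
    rw [hl1, hbx]
    have h1 : be * (x / d) ≤ be * 1 := mul_le_mul_of_nonneg_left hx5 hbe0.le
    have h2 : (1 / 2 : ℝ) * (1 / 2) ≤ (1 - q) * (1 - be * (x / d)) :=
      mul_le_mul (by linarith only [q1, hbe3]) (by linarith only [h1, hbe3]) (by norm_num)
        (by linarith only [q1, hbe3])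
    have h3 : (1 : ℝ) / 8 ≤ (1 - q) * (1 - be * (x / d)) - E := by
      linarith only [h2, hEs]
    have h4 := mul_le_mul_of_nonneg_left h3 hd0.le
    linarith only [h4]
  have hxg : x * (1 - be) * (1 - q) + E * d ≤ (1 - g) * l1 := by
    have h1 := num5_xg (f := 1 / 2) hbe0.le hx4 hx3 q0 (by linarith only [q1, hbe3]) hg0.le
      (by linarith only [hg1]) (by linarith only [hg1]) hE0 (by linarith only [hEs])
    have h2 := mul_le_mul_of_nonneg_left h1 hd0.le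
    have h3 : d * (x / d * (1 - be) * (1 - q) + E) = x * (1 - be) * (1 - q) + E * d := by
      field_simp
    have h4 : d * ((1 - g) * ((1 - q) * (1 - be * (x / d)) - E)) = (1 - g) * l1 := by
      rw [hl1, hbx]
      ring
    rw [← h3, ← h4]
    exact h2
  have hyg : (D : ℝ) * (1 - be) * (1 - be * x / d) + E * d ≤ (1 - g) * l1 := by
    have h1 := num5_yg (b := 0) (de := de) hbe0.le (by linarith only [hbe3]) hx4 hx5 hmu1 q0
      (le_of_eq hq) hg0.le (by linarith only [hg1]) hE0 (by linarith only [hgd, hE1, hde0])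
    have h2 := mul_le_mul_of_nonneg_left h1 hd0.le
    have h3 : d * ((D : ℝ) / d * (1 - be) * (1 - be * (x / d)) + E) =
        (D : ℝ) * (1 - be) * (1 - be * x / d) + E * d := by
      rw [hbx]
      field_simp
    have h4 : d * ((1 - g) * ((1 - q) * (1 - be * (x / d)) - E)) = (1 - g) * l1 := by
      rw [hl1, hbx]
      ring
    rw [← h3, ← h4]
    exact h2
  -- the second part
  obtain ⟨m2, hm2⟩ : ∃ m2, m2 = 256 * K ^ 2 * Z := ⟨_, rfl⟩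
  obtain ⟨L0, hL0d⟩ : ∃ L0, L0 = K * (2 ^ 16 * K ^ 2 * m2 * Z) ^ 2 := ⟨_, rfl⟩
  have hZn : 0 < Z := by omega
  have hm28 : 8 * K ≤ m2 := by
    rw [hm2]
    exact num5_8 hK1 hZn
  have hm2n : 0 < m2 := lt_of_lt_of_le (Nat.mul_pos (by norm_num) hK1) hm28
  have hL0K : K ≤ L0 := by
    rw [hL0d]
    exact Nat.le_mul_of_pos_right _ (by positivity)
  have hL0Z : (L0 : ℝ) ≤ (Z : ℝ) ^ 9 := by
    have h1 : (L0 : ℝ) = K * (2 ^ 16 * (K : ℝ) ^ 2 * (256 * (K : ℝ) ^ 2 * Z) * Z) ^ 2 := by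
      have h2 : L0 = K * (2 ^ 16 * K ^ 2 * (256 * K ^ 2 * Z) * Z) ^ 2 := by rw [hL0d, hm2]
      exact_mod_cast h2
    have h2 : 2 ^ 16 * (K : ℝ) ^ 2 ≤ Z := by exact_mod_cast z16
    have h3 : 256 * (K : ℝ) ^ 2 ≤ Z := by linarith only [h2, sq_nonneg (K : ℝ)]
    rw [h1]
    calc (K : ℝ) * (2 ^ 16 * (K : ℝ) ^ 2 * (256 * (K : ℝ) ^ 2 * Z) * Z) ^ 2
        ≤ Z * (Z * (Z * Z) * Z) ^ 2 := by gcongr
      _ = (Z : ℝ) ^ 9 := by ring
  refine ⟨m2, 32 * m2 * T, L0, g, x, q, l1, ?_⟩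
  constructor
  · exact hD0
  · rw [hLam]
    have h1 := num5_exp (num9_e1 hG hup)
    push_cast at h1 ⊢
    exact h1
  · rw [← hn1, hx]
  · rw [← hd]
    linarith only [hx1, hd0]
  · rw [← hd, ← hbe, ← hde', hq, mul_div_assoc]
  · exact q0
  · linarith only [q1, hbe3]
  · exact m8
  · exact hm28
  · exact hK24
  · exact lt_of_lt_of_le one_pos hK1'
  · exact le_refl _
  · rw [← hd]
    linarith only [hKZ, hZe, he6, hZ0]
  · rw [← hd, ← hbe, ← hE, hl1]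
  · linarith only [hl1', hd0]
  · rw [← hd, ← hbe, ← hE]
    exact hxg
  · rw [← hd, ← hbe, ← hE]
    exact hyg
  · exact hg0
  · linarith only [hg1]
  · exact lt_of_lt_of_le hK1 hL0K
  · exact_mod_cast hL0K
  · exact num5_err2 hK1 hm2 hL0d hg z44 hZK
      (le_trans (Nat.mul_le_mul_right _ (by norm_num)) z16)
  · have h1 := num5_gn (T := T) hm2n hm28
    have h2 := mul_le_mul_of_nonneg_left h1 hg0.le
    have h3 : g * 2 ^ T = 1 := by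
      have h4 : (Z : ℝ) = 2 ^ T := by exact_mod_cast hZT
      rw [hg, ← h4]
      field_simp
    linarith only [h2, h3]
  · have h1 := num5_L0 (m := m2) (K := K) (T := T) (j := 32 * K ^ 2 * Z)
      (by rw [hm2]; ring) (by
        have : 0 < 32 * K ^ 2 * Z := by positivity
        exact this) hm28
    have h2 : ((1 : ℝ) / 2) ^ (256 * T) = 1 / (Z : ℝ) ^ 256 := by
      have h4 : (Z : ℝ) = 2 ^ T := by exact_mod_cast hZT
      rw [h4, one_div_pow, ← pow_mul, mul_comm 256]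
    rw [h2] at h1
    have h5 : (Z : ℝ) ^ 9 ≤ d / 8 * (1 / (Z : ℝ) ^ 256) := by
      rw [mul_one_div, le_div_iff₀ (by positivity), ← pow_add]
      have h6 : 8 * (Z : ℝ) ^ 265 ≤ Z ^ 300 := by
        have h7 : (Z : ℝ) ^ 300 = Z ^ 35 * Z ^ 265 := by rw [← pow_add]
        rw [h7]
        apply mul_le_mul_of_nonneg_right _ (by positivity)
        have h8 : (Z : ℝ) ≤ Z ^ 35 := le_self_pow₀ hZ1 (by norm_num)
        linarith only [h8, hZ44]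
      linarith only [h6, hZd]
    calc (L0 : ℝ) ≤ (Z : ℝ) ^ 9 := hL0Z
      _ ≤ d / 8 * (1 / (Z : ℝ) ^ 256) := h5
      _ ≤ l1 * (1 / (Z : ℝ) ^ 256) := mul_le_mul_of_nonneg_right hl1' (by positivity)
      _ ≤ l1 * (1 - 3 * bet m2 K) ^ (32 * m2 * T) :=
          mul_le_mul_of_nonneg_left h1 (by linarith only [hl1', hd0])

/-! ### Large degrees -/

theorem num9_X {G : ℕ} : 4096 * ((2 ^ 22 * (17 * G ^ 2) ^ 3 * 1 * (4 * G ^ 40)) ^ 2 * 1 *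
    (4 * G ^ 40)) ≤ 2 ^ 90 * G ^ 132 := by
  calc 4096 * ((2 ^ 22 * (17 * G ^ 2) ^ 3 * 1 * (4 * G ^ 40)) ^ 2 * 1 * (4 * G ^ 40))
      = 4096 * ((2 ^ 22 * 17 ^ 3 * 4) ^ 2 * 4) * G ^ 132 := by ring
    _ ≤ 2 ^ 90 * G ^ 132 := Nat.mul_le_mul_right _ (by norm_num)

theorem thm_Num9 : St_Num9 := by
  obtain ⟨C, hC⟩ : ∃ C : ℕ, C = 300 * 222 := ⟨_, rfl⟩
  refine ⟨2 ^ (2 ^ (2 * C + 4)), fun D hD => ?_⟩
  have hG0 : 2 ^ (2 * C + 4) ≤ Nat.log 2 D := Nat.le_log_of_pow_le (by norm_num) hD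
  have hDpos : D ≠ 0 := by
    have : 0 < 2 ^ (2 ^ (2 * C + 4)) := by positivity
    omega
  have hlow : 2 ^ Nat.log 2 D ≤ D := Nat.pow_log_le_self 2 hDpos
  have hup : D < 2 ^ (Nat.log 2 D + 1) := Nat.lt_pow_succ_log_self (by norm_num) D
  generalize Nat.log 2 D = G at hG0 hlow hup
  have h80 : 80 ≤ G := by
    refine le_trans ?_ hG0
    calc 80 ≤ 2 ^ 7 := by norm_num
      _ ≤ 2 ^ (2 * C + 4) := Nat.pow_le_pow_right (by norm_num) (by omega)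
  have hbig : (2 : ℝ) ^ 1920 ≤ (G : ℝ) ^ 2 := by
    obtain ⟨j, hj⟩ : ∃ j : ℕ, j = 960 := ⟨_, rfl⟩
    have h1 : (2 : ℝ) ^ j ≤ G := by
      have h2 : 2 ^ j ≤ G := le_trans (Nat.pow_le_pow_right (by norm_num) (by omega)) hG0
      exact_mod_cast h2
    calc (2 : ℝ) ^ 1920 = (2 ^ j) ^ 2 := by rw [← pow_mul, hj]
      _ ≤ (G : ℝ) ^ 2 := pow_le_pow_left₀ (by positivity) h1 2
  have hlogc := num5_log _ _ hG0
  have hc1 : 1 ≤ Nat.clog 2 G := Nat.clog_pos (by norm_num) (by omega)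
  -- the power of `2`
  obtain ⟨K, hK⟩ : ∃ K, K = 17 * G ^ 2 := ⟨_, rfl⟩
  obtain ⟨A, hA⟩ : ∃ A, A = 4 * G ^ 40 := ⟨_, rfl⟩
  obtain ⟨m0, hm0⟩ : ∃ m0, m0 = 2 ^ 22 * K ^ 3 * 1 * A := ⟨_, rfl⟩
  obtain ⟨T, hT⟩ : ∃ T, T = Nat.clog 2 (4096 * (m0 ^ 2 * 1 * A)) := ⟨_, rfl⟩
  have hT1 : 4096 * (m0 ^ 2 * 1 * A) ≤ 2 ^ T := by
    rw [hT]
    exact Nat.le_pow_clog (by norm_num) _
  have hT2 : 300 * T ≤ G := by
    have h1 : 4096 * (m0 ^ 2 * 1 * A) ≤ 2 ^ 90 * G ^ 132 := by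
      rw [hm0, hK, hA]
      exact num9_X
    have h2 := num5_clog h1
    rw [← hT] at h2
    refine le_trans ?_ hlogc
    rw [hC]
    generalize Nat.clog 2 G = c at h2 hc1
    omega
  -- the parameter `h`
  have hGp : 0 < G := by omega
  have hG20 : 36 * G ^ 20 ≤ D := by
    have h1 : G ≤ 2 ^ Nat.clog 2 G := Nat.le_pow_clog (by norm_num) G
    calc 36 * G ^ 20 ≤ 2 ^ 6 * (2 ^ Nat.clog 2 G) ^ 20 := by gcongr; norm_num
      _ = 2 ^ (6 + Nat.clog 2 G * 20) := by rw [← pow_mul, ← pow_add]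
      _ ≤ 2 ^ G := by
          apply Nat.pow_le_pow_right (by norm_num)
          refine le_trans ?_ hlogc
          rw [hC]
          generalize Nat.clog 2 G = c at hc1
          omega
      _ ≤ D := hlow
  have hGG : 0 < G ^ 20 := by positivity
  obtain ⟨h, hh⟩ : ∃ h, h = D / G ^ 20 := ⟨_, rfl⟩
  have hh1 : h * G ^ 20 ≤ D := by rw [hh]; exact Nat.div_mul_le_self D _
  have hh2 : D < (h + 1) * G ^ 20 := by
    rw [hh, mul_comm]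
    exact Nat.lt_mul_div_succ D hGG
  have hh0 : 0 < h := by
    rw [hh]
    apply Nat.div_pos _ hGG
    omega
  have hh3 : (D + 1) ^ 2 ≤ A * h ^ 2 := by
    have h1 : D + 1 ≤ 2 * h * G ^ 20 := by
      have h2 : (h + 1) * G ^ 20 ≤ 2 * h * G ^ 20 := Nat.mul_le_mul_right _ (by omega)
      omega
    calc (D + 1) ^ 2 ≤ (2 * h * G ^ 20) ^ 2 := Nat.pow_le_pow_left h1 2
      _ = A * h ^ 2 := by rw [hA]; ring
  have hhD : h ≤ D := by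
    rw [hh]
    exact Nat.div_le_self _ _
  obtain ⟨m2, n, L0, g, x, q, l1, h6⟩ := num9_N6 h80 hlow hup hK
    (by rw [hA]; exact Nat.succ_le_of_lt (by positivity)) hh3 hhD hm0 rfl hT1 hT2
  refine ⟨h, K, m0, m2, n, L0, K, 2 ^ 12 * K ^ 2, 32 * (2 ^ 12 * K ^ 2) * 7,
    K * (2 ^ 22 * K ^ 2 * (2 ^ 12 * K ^ 2)) ^ 2, g, (K : ℝ), x, q, l1, (K : ℝ), hh0, ?_, h6,
    num9_NK h80 hup hh0 hh1 hK hbig⟩
  have h1 : 36 * h ≤ h * G ^ 20 := by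
    rw [mul_comm]
    apply Nat.mul_le_mul_left
    calc 36 ≤ G := by omega
      _ ≤ G ^ 20 := Nat.le_self_pow (by norm_num) G
  exact h1.trans hh1

end Pool.TCT
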