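import Pool.Agent.Helper3.TCT.Defs

/-!
# PAI: a pairing which avoids a sparse set of bad pairs (Hall's theorem)
-/

set_option autoImplicit false

namespace Pool.TCT

open Finset
open scoped Classical

theorem thm_Pai : St_Pai := by
  intro V κ _ R Q bad k hrow hcol hRQ hk
  let t : {u // u ∈ R} → Finset κ := fun u => Q.filter (fun a => ¬ bad u.1 a)
  have hall : ∀ S : Finset {u // u ∈ R}, S.card ≤ (S.biUnion t).card := by
    intro S
    by_contra hlt
    have hlt' : (S.biUnion t).card < S.card := not_le.mp hlt
    have hSne : S.Nonempty := by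
      rcases S.eq_empty_or_nonempty with h | h
      · subst h
        simp at hlt'
      · exact h
    obtain ⟨u0, hu0⟩ := hSne
    have hSR : S.card ≤ R.card := by
      have h1 : S.card ≤ (univ : Finset {u // u ∈ R}).card := card_le_card (subset_univ S)
      have h2 : (univ : Finset {u // u ∈ R}).card = R.card := by
        rw [card_univ, Fintype.card_coe]
      omega
    have hsub : S.biUnion t ⊆ Q := by
      intro a ha
      obtain ⟨u, _, hau⟩ := mem_biUnion.mp ha
      exact (mem_filter.mp hau).1
    have hex : ∃ a ∈ Q, a ∉ S.biUnion t := by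
      by_contra hcon
      push Not at hcon
      have h3 : Q.card ≤ (S.biUnion t).card := card_le_card hcon
      omega
    obtain ⟨a, haQ, haN⟩ := hex
    have hbad : ∀ u ∈ S, bad u.1 a := by
      intro u hu
      by_contra hb
      exact haN (mem_biUnion.mpr ⟨u, hu, mem_filter.mpr ⟨haQ, hb⟩⟩)
    have hSk : S.card ≤ k := by
      have h4 : S.card = (S.map (Function.Embedding.subtype _)).card := (card_map _).symm
      have h5 : S.map (Function.Embedding.subtype _) ⊆ R.filter (fun u => bad u a) := by
        intro x hx
        obtain ⟨u, hu, rfl⟩ := mem_map.mp hx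
        exact mem_filter.mpr ⟨u.2, hbad u hu⟩
      have h6 := card_le_card h5
      have h7 := hcol a haQ
      omega
    have h8 : (t u0).card ≤ (S.biUnion t).card :=
      card_le_card (subset_biUnion_of_mem t hu0)
    have h9 : (Q.filter (fun a => bad u0.1 a)).card + (t u0).card = Q.card :=
      card_filter_add_card_filter_not (s := Q) (fun a => bad u0.1 a)
    have h10 := hrow u0.1 u0.2
    omega
  obtain ⟨f, hinj, hf⟩ := (Finset.all_card_le_biUnion_card_iff_exists_injective t).mp hall
  refine ⟨fun u => if h : u ∈ R then f ⟨u, h⟩ else Classical.arbitrary κ, ?_, ?_⟩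
  · intro u hu
    have := mem_filter.mp (hf ⟨u, hu⟩)
    simp only [hu, dif_pos]
    exact this
  · intro u hu v hv huv
    simp only [hu, hv, dif_pos] at huv
    have := hinj huv
    exact congrArg Subtype.val this

end Pool.TCT
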