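import Pool.Agent.Helper3.TCT.Defs

/-!
S9: the colouring of the vertices with sparse neighbourhoods (helper31). The first lemmas are copied
from Core5 (helper79).
-/

set_option autoImplicit false
set_option linter.unusedSectionVars false
set_option linter.unusedVariables false

namespace Pool.TCT

open Pool.TC Pool.TCM Pool.TCS Finset
open scoped Classical

section aux

variable {V κ : Type} [Fintype V] [Fintype κ]

theorem s9_npair {S : CS V κ} {A B : Finset V} (hAB : A ⊆ B) :
    npair S B ≤ npair S A + ((B.card : ℝ) - A.card) * B.card := by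
  have h1 : (B ×ˢ B).filter (fun p => p.1 ≠ p.2 ∧ ¬ S.adj p.1 p.2) ⊆
      (A ×ˢ A).filter (fun p => p.1 ≠ p.2 ∧ ¬ S.adj p.1 p.2) ∪
        (((B \ A) ×ˢ B) ∪ (B ×ˢ (B \ A))) := by
    rintro ⟨a, b⟩ hp
    simp only [mem_filter, mem_product, mem_union, mem_sdiff] at hp ⊢
    by_cases ha : a ∈ A
    · by_cases hb : b ∈ A
      · exact Or.inl ⟨⟨ha, hb⟩, hp.2⟩
      · exact Or.inr (Or.inr ⟨hp.1.1, hp.1.2, hb⟩)
    · exact Or.inr (Or.inl ⟨⟨hp.1.1, ha⟩, hp.1.2⟩)
  have h2 := card_le_card h1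
  have h3 := card_union_le ((A ×ˢ A).filter (fun p => p.1 ≠ p.2 ∧ ¬ S.adj p.1 p.2))
    (((B \ A) ×ˢ B) ∪ (B ×ˢ (B \ A)))
  have h4 := card_union_le ((B \ A) ×ˢ B) (B ×ˢ (B \ A))
  rw [card_product, card_product] at h4
  have h5 : (B \ A).card = B.card - A.card := card_sdiff_of_subset hAB
  have h6 : A.card ≤ B.card := card_le_card hAB
  have h7 : (((B \ A).card : ℕ) : ℝ) = (B.card : ℝ) - A.card := by
    rw [h5, Nat.cast_sub h6]
  have h8 : ((((B ×ˢ B).filter (fun p => p.1 ≠ p.2 ∧ ¬ S.adj p.1 p.2)).card : ℕ) : ℝ) ≤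
      (((A ×ˢ A).filter (fun p => p.1 ≠ p.2 ∧ ¬ S.adj p.1 p.2)).card : ℝ) +
        (((B \ A).card : ℝ) * B.card + B.card * ((B \ A).card : ℝ)) := by
    exact_mod_cast h2.trans (h3.trans (Nat.add_le_add_left h4 _))
  unfold npair
  rw [h7] at h8
  linarith

theorem s9_mono {S : CS V κ} {A B : Finset V} (hAB : A ⊆ B) {b l : ℝ} (hb : 0 ≤ b)
    (hl : 0 < l) (hbl : b * B.card ≤ l) :
    b * A.card / l - b ^ 2 * npair S A / l ^ 2 ≤ b * B.card / l - b ^ 2 * npair S B / l ^ 2 := by
  have h1 := s9_npair (S := S) hAB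
  have h2 : (A.card : ℝ) ≤ B.card := by exact_mod_cast card_le_card hAB
  have h3 : b ^ 2 * (npair S B - npair S A) ≤ b * ((B.card : ℝ) - A.card) * l := by
    have h4 : b ^ 2 * (npair S B - npair S A) ≤ b ^ 2 * (((B.card : ℝ) - A.card) * B.card) :=
      mul_le_mul_of_nonneg_left (by linarith) (by positivity)
    have h5 : b ^ 2 * (((B.card : ℝ) - A.card) * B.card) =
        b * ((B.card : ℝ) - A.card) * (b * B.card) := by ring
    have h6 : b * ((B.card : ℝ) - A.card) * (b * B.card) ≤ b * ((B.card : ℝ) - A.card) * l :=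
      mul_le_mul_of_nonneg_left hbl (mul_nonneg hb (by linarith))
    linarith
  have h7 : b * B.card / l - b ^ 2 * npair S B / l ^ 2 -
      (b * A.card / l - b ^ 2 * npair S A / l ^ 2) =
      (b * ((B.card : ℝ) - A.card) * l - b ^ 2 * (npair S B - npair S A)) / l ^ 2 := by
    field_simp
    ring
  have h8 : 0 ≤ (b * ((B.card : ℝ) - A.card) * l - b ^ 2 * (npair S B - npair S A)) / l ^ 2 :=
    div_nonneg (by linarith) (by positivity)
  linarith

theorem s9_bet {m K : ℕ} (hmK : 8 * K ≤ m) (hK : 24 ≤ K) :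
    0 < bet m K ∧ bet m K ≤ 1 / 192 := by
  have hm : 192 ≤ m := by omega
  have hm' : (192 : ℝ) ≤ m := by exact_mod_cast hm
  have hm0 : (0 : ℝ) < m := by linarith
  have h1 : 1 / (m : ℝ) ≤ 1 / 192 := one_div_le_one_div_of_le (by norm_num) hm'
  have h2 : 0 < 1 / (m : ℝ) := one_div_pos.2 hm0
  have h3 : 0 < 1 - 1 / (m : ℝ) := by linarith
  unfold bet
  refine ⟨by positivity, ?_⟩
  exact (mul_le_of_le_one_right h2.le (pow_le_one₀ h3.le (by linarith))).trans h1

/-- trimming: the right-hand lists are smaller -/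
theorem s9_solv {S : CS V κ} {U : Finset V} {L L' : V → Finset κ}
    (h : ∀ u ∈ U, L' u ⊆ L u) (hs : Solv S U L') : Solv S U L := by
  obtain ⟨c, h1, h2, h3⟩ := hs
  exact ⟨c, fun u hu => h u hu (h1 u hu), h2, h3⟩

theorem s9_Cv {S : CS V κ} {U : Finset V} {L L' : V → Finset κ}
    (h : ∀ u ∈ U, L' u ⊆ L u) (v : V) : ((Cv S U L' v).card : ℝ) ≤ (Cv S U L v).card := by
  have : Cv S U L' v ⊆ Cv S U L v := by
    intro p hp
    simp only [Cv, mem_filter, mem_univ, true_and] at hp ⊢
    exact ⟨hp.1, h _ hp.1 hp.2.1, hp.2.2⟩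
  exact_mod_cast card_le_card this

theorem s9_Pn {S : CS V κ} {U : Finset V} {L L' : V → Finset κ}
    (h : ∀ u ∈ U, L' u ⊆ L u) (u : V) (a : κ) :
    ((Pn S U L' u a).card : ℝ) ≤ (Pn S U L u a).card := by
  have : Pn S U L' u a ⊆ Pn S U L u a := by
    intro p hp
    simp only [Pn, mem_filter, mem_univ, true_and] at hp ⊢
    exact ⟨hp.1, hp.2.1, h _ hp.1 hp.2.2⟩
  exact_mod_cast card_le_card this

/-- two steps of the nibble -/
theorem s9_run (hStep : Pool.TCS.St_Step) (hIter : Pool.TCS.St_Iter) [Nonempty κ] (S : CS V κ)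
    (U : Finset V) (L : V → Finset κ) (D K m0 m2 n L0 ll : ℕ) (g Lam x y q l1 : ℝ)
    (hH : Hyp S U L D ll m0 K x y q Lam) (mK2 : 8 * K ≤ m2)
    (l1def : l1 = (ll : ℝ) * ((1 - q) * (1 - bet m0 K * x / ll) - Err m0 K Lam ll))
    (l1pos : 0 < l1)
    (xg : x * (1 - bet m0 K) * (1 - q) + Err m0 K Lam ll * ll ≤ (1 - g) * l1)
    (yg : y * (1 - bet m0 K) * (1 - bet m0 K * x / ll) + Err m0 K Lam ll * ll ≤ (1 - g) * l1)
    (g0 : 0 < g) (g1 : g ≤ 7 / 8) (L00 : 0 < L0) (LL0 : Lam ≤ L0)
    (err2 : 8 * Err m2 K Lam L0 ≤ g * bet m2 K / 16) (gn : 7 / 8 ≤ g * (1 + bet m2 K / 16) ^ n)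
    (L0n : (L0 : ℝ) ≤ l1 * (1 - 3 * bet m2 K) ^ n) : Solv S U L := by
  obtain ⟨U', L', hU', hL', hcard, hC, hP, hsol⟩ := hStep V κ S U L D ll m0 K x y q Lam hH
  apply hsol
  have hex : ∀ u : V, ∃ t : Finset κ, u ∈ U' → t ⊆ L' u ∧ t.card = ⌈l1⌉₊ := by
    intro u
    by_cases hu : u ∈ U'
    · have h1 : l1 ≤ ((L' u).card : ℝ) := by rw [l1def]; exact hcard u hu
      have h2 : ⌈l1⌉₊ ≤ (L' u).card := Nat.ceil_le.2 h1
      obtain ⟨t, ht1, ht2⟩ := exists_subset_card_eq h2
      exact ⟨t, fun _ => ⟨ht1, ht2⟩⟩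
    · exact ⟨∅, fun h => absurd h hu⟩
  choose L2 hL2 using hex
  have hle : l1 ≤ (⌈l1⌉₊ : ℝ) := Nat.le_ceil _
  have hg : 0 ≤ 1 - g := by linarith
  obtain ⟨hb0, hb1⟩ := s9_bet mK2 hH.K24
  refine s9_solv (fun u hu => (hL2 u hu).1) ?_
  refine hIter V κ S n U' L2 D ⌈l1⌉₊ m2 K L0 g Lam hH.deg hH.col (fun u hu => (hL2 u hu).2)
    ?_ ?_ ?_ g0 g1 mK2 hH.K24 hH.L0 hH.LK hH.hexp L00 LL0 err2 gn ?_
  · intro u hu a ha a' ha'
    exact hH.inj2 u (hU' hu) a (hL' u hu ((hL2 u hu).1 ha)) a' (hL' u hu ((hL2 u hu).1 ha'))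
  · intro v
    refine (s9_Cv (fun u hu => (hL2 u hu).1) v).trans ((hC v).trans (xg.trans ?_))
    exact mul_le_mul_of_nonneg_left hle hg
  · intro u hu a ha
    refine (s9_Pn (fun u hu => (hL2 u hu).1) u a).trans
      ((hP u hu a ((hL2 u hu).1 ha)).trans (yg.trans ?_))
    exact mul_le_mul_of_nonneg_left hle hg
  · refine L0n.trans (mul_le_mul_of_nonneg_right hle (pow_nonneg (by linarith) n))

theorem s9_mem_Cv {S : CS V κ} {U : Finset V} {L : V → Finset κ} {v : V} {p : V × κ} :
    p ∈ Cv S U L v ↔ p.1 ∈ U ∧ p.2 ∈ L p.1 ∧ S.r p.1 p.2 = v := by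
  simp [Cv]

theorem s9_mem_Pn {S : CS V κ} {U : Finset V} {L : V → Finset κ} {u w : V} {a : κ} :
    w ∈ Pn S U L u a ↔ w ∈ U ∧ S.adj u w ∧ a ∈ L w := by
  simp [Pn]

theorem s9_npair_ge {S : CS V κ} {B : Finset V} (C : Finset (V × V))
    (h : ∀ p ∈ C, p.1 ∈ B ∧ p.2 ∈ B ∧ p.1 ≠ p.2 ∧ ¬ S.adj p.1 p.2) :
    (C.card : ℝ) / 2 ≤ npair S B := by
  unfold npair
  refine div_le_div_of_nonneg_right ?_ (by norm_num)
  have h1 : C ⊆ (B ×ˢ B).filter (fun p => p.1 ≠ p.2 ∧ ¬ S.adj p.1 p.2) := by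
    intro p hp
    obtain ⟨h2, h3, h4, h5⟩ := h p hp
    rw [mem_filter, mem_product]
    exact ⟨⟨h2, h3⟩, h4, h5⟩
  exact_mod_cast card_le_card h1

/-- the conflict structure with two copies of every vertex -/
noncomputable def s9S (G : SimpleGraph V) (N : κ → V → V) (hinv : ∀ a u, N a (N a u) = u)
    (sg : V → Prop) (τ : V → Bool) : CS (V ⊕ V) κ where
  adj := fun x y => ∃ u w, x = Sum.inl u ∧ y = Sum.inl w ∧ G.Adj u w
  r := fun x a => match x with
    | Sum.inl u => if sg (N a u) ∨ τ u = false then Sum.inl (N a u) else Sum.inr (N a u)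
    | Sum.inr u => if sg (N a u) ∨ τ u = false then Sum.inr (N a u) else Sum.inl (N a u)
  symm := by
    rintro x y ⟨u, w, hx, hy, h⟩
    exact ⟨w, u, hy, hx, h.symm⟩
  irr := by
    rintro x ⟨u, w, hx, hy, h⟩
    rw [hx] at hy
    exact h.ne (Sum.inl_injective hy)
  inj := by
    have hN : ∀ a u u', N a u = N a u' → u = u' := by
      intro a u u' h
      rw [← hinv a u, h, hinv]
    rintro (u | u) (u' | u') a h
    · simp only at h
      split_ifs at h
      · exact congrArg _ (hN a u u' (Sum.inl_injective h))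
      · exact congrArg _ (hN a u u' (Sum.inr_injective h))
    · simp only at h
      split_ifs at h with h1 h2 h2
      · have h3 := hN a u u' (Sum.inl_injective h)
        subst h3
        exact absurd h1 h2
      · have h3 := hN a u u' (Sum.inr_injective h)
        subst h3
        exact absurd h2 h1
    · simp only at h
      split_ifs at h with h1 h2 h2
      · have h3 := hN a u u' (Sum.inr_injective h)
        subst h3
        exact absurd h1 h2
      · have h3 := hN a u u' (Sum.inl_injective h)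
        subst h3
        exact absurd h2 h1
    · simp only at h
      split_ifs at h
      · exact congrArg _ (hN a u u' (Sum.inr_injective h))
      · exact congrArg _ (hN a u u' (Sum.inl_injective h))

end aux

/-- S9 -/
theorem thm_S9 (hBip : Pool.TCM.St_Bip) (hStep : Pool.TCS.St_Step) (hIter : Pool.TCS.St_Iter) :
    St_S9 := by
  intro V κ _ _ G D h K m0 m2 n L0 g Lam x q l1 N S hLat hN hS
  have hnb : ∀ u w, w ∈ nb G u ↔ G.Adj u w := by
    intro u w
    simp [nb]
  have : Nonempty κ := by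
    rw [← Fintype.card_pos_iff, hLat.card]
    omega
  have hD0 : (0 : ℝ) ≤ D := Nat.cast_nonneg _
  have hl0 : (0 : ℝ) < (D : ℝ) + 1 := by linarith
  have hcast : (((D + 1 : ℕ) : ℝ)) = (D : ℝ) + 1 := by push_cast; ring
  -- the bipartition
  obtain ⟨τ, _, hτ⟩ := hBip V V id (fun v => nb G v ∩ S) D D D Lam (fun u => rfl) hN.D0
    (fun i => (card_le_card inter_subset_left).trans (hLat.deg i).le)
    (fun i => (card_le_card inter_subset_left).trans (hLat.deg i).le)
    (by
      intro w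
      refine le_trans (card_le_card ?_) (hLat.deg w).le
      intro i hi
      rw [mem_filter, mem_inter] at hi
      rw [hnb]
      exact ((hnb i w).1 hi.2.1).symm)
    hN.La.le (by
      refine le_trans ?_ hN.expH
      refine mul_le_mul_of_nonneg_left ?_ (by positivity)
      have h1 : 4 * (D : ℝ) * D ≤ (3 * ((2 * D + 2 : ℕ) : ℝ) + 2) ^ 2 := by
        push_cast
        nlinarith
      have h2 : (1 : ℝ) ≤ 3 * ((2 * D + 2 : ℕ) : ℝ) + 2 := by
        push_cast
        linarith
      have h3 : (3 * ((2 * D + 2 : ℕ) : ℝ) + 2) ^ 2 ≤ (3 * ((2 * D + 2 : ℕ) : ℝ) + 2) ^ 12 :=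
        pow_le_pow_right₀ h2 (by norm_num)
      linarith)
  let sg : V → Prop := fun v => 2 * (nb G v ∩ S).card ≤ D
  let T : CS (V ⊕ V) κ := s9S G N hLat.inv sg τ
  let U : Finset (V ⊕ V) := S.map ⟨Sum.inl, Sum.inl_injective⟩
  let L : V ⊕ V → Finset κ := fun _ => univ
  have hU : ∀ p, p ∈ U ↔ ∃ u ∈ S, p = Sum.inl u := by
    intro p
    simp only [U, mem_map, Function.Embedding.coeFn_mk]
    constructor
    · rintro ⟨u, hu, h⟩
      exact ⟨u, hu, h.symm⟩
    · rintro ⟨u, hu, h⟩
      exact ⟨u, hu, h.symm⟩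
  have hr : ∀ u a, T.r (Sum.inl u) a =
      if sg (N a u) ∨ τ u = false then Sum.inl (N a u) else Sum.inr (N a u) := by
    intro u a
    by_cases h1 : sg (N a u) ∨ τ u = false
    · rw [if_pos h1]
      exact if_pos h1
    · rw [if_neg h1]
      exact if_neg h1
  have hadj : ∀ u w, T.adj (Sum.inl u) (Sum.inl w) ↔ G.Adj u w := by
    intro u w
    constructor
    · rintro ⟨u', w', h1, h2, h3⟩
      rw [Sum.inl_injective h1, Sum.inl_injective h2]
      exact h3
    · intro h
      exact ⟨u, w, rfl, rfl, h⟩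
  have hsq0 : 0 ≤ Real.sqrt ((D : ℝ) * Lam) := Real.sqrt_nonneg _
  have hx := hN.xdef
  -- the number of options which use a right vertex
  have hCa : ∀ (v : V) (P : V → Prop) (A : Finset ((V ⊕ V) × κ)) (B : Finset V),
      (∀ p ∈ A, ∃ u ∈ S, p.1 = Sum.inl u ∧ N p.2 u = v ∧ P u) →
      (∀ u ∈ nb G v ∩ S, P u → u ∈ B) → A.card ≤ B.card + 1 := by
    intro v P A B hA hB
    have h1 : A.image Prod.fst ⊆
        insert (Sum.inl v) (B.map ⟨Sum.inl, Sum.inl_injective⟩) := by
      intro w hw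
      rw [mem_image] at hw
      obtain ⟨⟨w', a⟩, hp, rfl⟩ := hw
      obtain ⟨u, hu, h2, h3, h4⟩ := hA _ hp
      have h2' : w' = Sum.inl u := h2
      have h3' : N a u = v := h3
      show w' ∈ _
      rw [h2', mem_insert]
      by_cases h5 : u = v
      · left
        rw [h5]
      · right
        rw [mem_map]
        refine ⟨u, hB u ?_ h4, rfl⟩
        rw [mem_inter, hnb]
        refine ⟨?_, hu⟩
        have h6 := hLat.sub a u (by rw [h3']; exact fun h => h5 h.symm)
        rw [h3'] at h6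
        exact h6.symm
    have h2 : Set.InjOn (Prod.fst : (V ⊕ V) × κ → V ⊕ V) A := by
      rintro ⟨w, a⟩ hp ⟨w', a'⟩ hp' hww
      have hww' : w = w' := hww
      subst hww'
      obtain ⟨u, hu, h3, h4, _⟩ := hA _ (mem_coe.1 hp)
      obtain ⟨u', hu', h5, h6, _⟩ := hA _ (mem_coe.1 hp')
      have h7 : u = u' := Sum.inl_injective (h3.symm.trans h5)
      subst h7
      have h8 : a = a' := hLat.inj u a a' (h4.trans h6.symm)
      rw [h8]
    rw [← card_image_of_injOn h2]
    refine (card_le_card h1).trans ((card_insert_le _ _).trans ?_)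
    rw [card_map]
  have hQD : ∀ v, (((nb G v ∩ S).card : ℕ) : ℝ) ≤ D := by
    intro v
    exact_mod_cast (card_le_card inter_subset_left).trans (hLat.deg v).le
  have hCm : ∀ v p, p ∈ Cv T U L v → ∃ u ∈ S, p.1 = Sum.inl u ∧
      T.r (Sum.inl u) p.2 = v := by
    intro v p hp
    obtain ⟨h2, h3, h4⟩ := s9_mem_Cv.1 hp
    obtain ⟨u, hu, h5⟩ := (hU p.1).1 h2
    rw [h5] at h4
    exact ⟨u, hu, h5, h4⟩
  have hC : ∀ v, ((Cv T U L v).card : ℝ) ≤ x := by
    intro v
    rcases v with v | v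
    · by_cases hsv : sg v
      · have h2 := hCa v (fun _ => True) (Cv T U L (Sum.inl v)) (nb G v ∩ S) (by
          intro p hp
          obtain ⟨u, hu, h5, h4⟩ := hCm _ p hp
          refine ⟨u, hu, h5, ?_, trivial⟩
          rw [hr] at h4
          split_ifs at h4 with h6
          exact Sum.inl_injective h4) (fun u hu _ => hu)
        have h4 : 2 * (nb G v ∩ S).card ≤ D := hsv
        have h5 : 2 * (Cv T U L (Sum.inl v)).card ≤ D + 2 := by omega
        have h6 : 2 * ((Cv T U L (Sum.inl v)).card : ℝ) ≤ D + 2 := by exact_mod_cast h5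
        linarith
      · have h2 := hCa v (fun u => τ u = false) (Cv T U L (Sum.inl v))
          ((nb G v ∩ S).filter (fun w => τ w = false)) (by
          intro p hp
          obtain ⟨u, hu, h5, h4⟩ := hCm _ p hp
          rw [hr] at h4
          split_ifs at h4 with h6
          have h7 : N p.2 u = v := Sum.inl_injective h4
          rw [h7] at h6
          exact ⟨u, hu, h5, h7, h6.resolve_left hsv⟩) (fun u hu hu' => mem_filter.2 ⟨hu, hu'⟩)
        have h3 := hτ v false
        have h4 := hQD v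
        have h5 : ((Cv T U L (Sum.inl v)).card : ℝ) ≤
            (((nb G v ∩ S).filter (fun w => τ w = false)).card : ℝ) + 1 := by exact_mod_cast h2
        linarith
    · have h2 := hCa v (fun u => τ u = true) (Cv T U L (Sum.inr v))
        ((nb G v ∩ S).filter (fun w => τ w = true)) (by
        intro p hp
        obtain ⟨u, hu, h5, h4⟩ := hCm _ p hp
        rw [hr] at h4
        split_ifs at h4 with h6
        have h7 : N p.2 u = v := Sum.inr_injective h4
        rw [not_or] at h6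
        exact ⟨u, hu, h5, h7, Bool.eq_true_of_not_eq_false h6.2⟩)
        (fun u hu hu' => mem_filter.2 ⟨hu, hu'⟩)
      have h3 := hτ v true
      have h4 := hQD v
      have h5 : ((Cv T U L (Sum.inr v)).card : ℝ) ≤
          (((nb G v ∩ S).filter (fun w => τ w = true)).card : ℝ) + 1 := by exact_mod_cast h2
      linarith
  -- the neighbours
  have hPs : ∀ u a, Pn T U L (Sum.inl u) a ⊆ (nb G u).map ⟨Sum.inl, Sum.inl_injective⟩ := by
    intro u a w hw
    obtain ⟨h1, h2, _⟩ := s9_mem_Pn.1 hw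
    obtain ⟨w', _, rfl⟩ := (hU w).1 h1
    rw [mem_map]
    exact ⟨w', (hnb u w').2 ((hadj u w').1 h2), rfl⟩
  obtain ⟨hb0, hb1⟩ := s9_bet hN.mK0 hN.K24
  have hH : Hyp T U L (2 * D + 2) (D + 1) m0 K x D q Lam :=
    { deg := by
        rintro (u | u)
        · have h1 : (univ.filter (fun v => T.adj (Sum.inl u) v)) ⊆
              (nb G u).map ⟨Sum.inl, Sum.inl_injective⟩ := by
            intro w hw
            obtain ⟨u', w', h2, h3, h4⟩ := (mem_filter.1 hw).2
            rw [h3, mem_map]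
            refine ⟨w', ?_, rfl⟩
            rw [hnb, Sum.inl_injective h2]
            exact h4
          have h2 := card_le_card h1
          rw [card_map, hLat.deg] at h2
          omega
        · have h1 : (univ.filter (fun v => T.adj (Sum.inr u) v)) = ∅ := by
            rw [filter_eq_empty_iff]
            rintro w _ ⟨u', w', h2, _, _⟩
            cases h2
          rw [h1, card_empty]
          omega
      col := by rw [hLat.card]; omega
      card := fun u _ => by
        show (univ : Finset κ).card = D + 1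
        rw [card_univ, hLat.card]
      inj2 := by
        intro p hp a _ a' _ h
        obtain ⟨u, hu, rfl⟩ := (hU p).1 hp
        rw [hr, hr] at h
        split_ifs at h
        · exact hLat.inj u a a' (Sum.inl_injective h)
        · exact hLat.inj u a a' (Sum.inr_injective h)
      hC := hC
      hP := by
        intro p hp a _
        obtain ⟨u, hu, rfl⟩ := (hU p).1 hp
        have h1 := card_le_card (hPs u a)
        rw [card_map, hLat.deg] at h1
        exact_mod_cast h1
      hq := by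
        intro p hp a _
        obtain ⟨u, hu, rfl⟩ := (hU p).1 hp
        set B : Finset (V ⊕ V) := (nb G u).map ⟨Sum.inl, Sum.inl_injective⟩ with hB
        have hBc : B.card = D := by rw [hB, card_map, hLat.deg]
        have h1 : bet m0 K * (Pn T U L (Sum.inl u) a).card / ((D + 1 : ℕ) : ℝ) -
            bet m0 K ^ 2 * npair T (Pn T U L (Sum.inl u) a) / (((D + 1 : ℕ) : ℝ)) ^ 2 ≤
            bet m0 K * B.card / ((D + 1 : ℕ) : ℝ) -
              bet m0 K ^ 2 * npair T B / (((D + 1 : ℕ) : ℝ)) ^ 2 := by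
          refine s9_mono (hPs u a) hb0.le (by rw [hcast]; exact hl0) ?_
          rw [hBc, hcast]
          have h2 : bet m0 K * (D : ℝ) ≤ 1 * D :=
            mul_le_mul_of_nonneg_right (hb1.trans (by norm_num)) hD0
          linarith
        refine h1.trans (le_trans ?_ hN.qdef)
        rw [hBc, hcast]
        have h2 : ((h : ℝ)) ^ 2 / 2 ≤ npair T B := by
          have h3 := s9_npair_ge (S := T) (B := B)
            (((nb G u ×ˢ nb G u).filter (fun p => p.1 ≠ p.2 ∧ ¬ G.Adj p.1 p.2)).map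
              ⟨fun p : V × V => ((Sum.inl p.1 : V ⊕ V), (Sum.inl p.2 : V ⊕ V)), by
                rintro ⟨a, b⟩ ⟨a', b'⟩ hab
                simp only [Prod.mk.injEq] at hab
                rw [Sum.inl_injective hab.1, Sum.inl_injective hab.2]⟩) (by
            intro p hp
            rw [mem_map] at hp
            obtain ⟨⟨w, w'⟩, hw, rfl⟩ := hp
            rw [mem_filter, mem_product] at hw
            obtain ⟨⟨h4, h5⟩, h6, h7⟩ := hw
            exact ⟨mem_map.2 ⟨w, h4, rfl⟩, mem_map.2 ⟨w', h5, rfl⟩,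
              fun h8 => h6 (Sum.inl_injective h8), fun h8 => h7 ((hadj w w').1 h8)⟩)
          rw [card_map] at h3
          have h5 : h ^ 2 ≤ ((nb G u ×ˢ nb G u).filter
              (fun p => p.1 ≠ p.2 ∧ ¬ G.Adj p.1 p.2)).card := hS u hu
          have h6 : ((h : ℝ)) ^ 2 ≤ (((nb G u ×ˢ nb G u).filter
              (fun p => p.1 ≠ p.2 ∧ ¬ G.Adj p.1 p.2)).card : ℝ) := by
            exact_mod_cast h5
          linarith
        have h3 : bet m0 K ^ 2 * ((h : ℝ) ^ 2 / 2) / ((D : ℝ) + 1) ^ 2 ≤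
            bet m0 K ^ 2 * npair T B / ((D : ℝ) + 1) ^ 2 :=
          div_le_div_of_nonneg_right (mul_le_mul_of_nonneg_left h2 (by positivity)) (by positivity)
        have h4 : bet m0 K ^ 2 * (h : ℝ) ^ 2 / (2 * ((D : ℝ) + 1) ^ 2) =
            bet m0 K ^ 2 * ((h : ℝ) ^ 2 / 2) / ((D : ℝ) + 1) ^ 2 := by
          field_simp
        rw [h4]
        linarith
      l0 := Nat.succ_pos D
      x0 := by linarith
      x1 := by rw [hcast]; exact hN.x1
      y0 := hD0
      y2 := by rw [hcast]; linarith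
      q0 := hN.q0
      q1 := hN.q1
      mK := hN.mK0
      K24 := hN.K24
      L0 := hN.La
      LK := hN.LK
      Ll := by rw [hcast]; exact hN.Ll
      hexp := hN.expH }
  obtain ⟨c, _, hc2, hc3⟩ := s9_run hStep hIter T U L (2 * D + 2) K m0 m2 n L0 (D + 1) g Lam x D q
    l1 hH hN.mK2 (by rw [hcast]; exact hN.l1def) hN.l1pos (by rw [hcast]; exact hN.xg)
    (by rw [hcast]; exact hN.yg) hN.g0 hN.g1 hN.L00 hN.LL0 hN.err2 hN.gn hN.L0n
  have hmem : ∀ u, u ∈ S → (Sum.inl u : V ⊕ V) ∈ U := fun u hu => (hU _).2 ⟨u, hu, rfl⟩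
  refine ⟨fun v => c (Sum.inl v), ?_, ?_, ?_⟩
  · intro u hu w hw huw
    exact hc3 _ (hmem u hu) _ (hmem w hw) ((hadj u w).2 huw)
  · intro v
    unfold load
    have h1 : Set.InjOn (fun u => T.r (Sum.inl u) (c (Sum.inl u)))
        (S.filter (fun u => N (c (Sum.inl u)) u = v)) := by
      intro u hu w hw huw
      by_contra hne
      exact hc2 _ (hmem u (mem_filter.1 (mem_coe.1 hu)).1) _
        (hmem w (mem_filter.1 (mem_coe.1 hw)).1) (fun h2 => hne (Sum.inl_injective h2)) huw
    rw [← card_image_of_injOn h1]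
    have h2 : (S.filter (fun u => N (c (Sum.inl u)) u = v)).image
        (fun u => T.r (Sum.inl u) (c (Sum.inl u))) ⊆ {Sum.inl v, Sum.inr v} := by
      intro p hp
      rw [mem_image] at hp
      obtain ⟨u, hu, rfl⟩ := hp
      have h3 := (mem_filter.1 hu).2
      rw [hr, h3, mem_insert, mem_singleton]
      split_ifs
      · exact Or.inl rfl
      · exact Or.inr rfl
    exact (card_le_card h2).trans card_le_two
  · intro v hv
    unfold load
    rw [card_le_one]
    intro u hu w hw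
    by_contra hne
    have h1 := (mem_filter.1 hu).2
    have h2 := (mem_filter.1 hw).2
    refine hc2 _ (hmem u (mem_filter.1 hu).1) _ (hmem w (mem_filter.1 hw).1)
      (fun h3 => hne (Sum.inl_injective h3)) ?_
    rw [hr, hr, h1, h2, if_pos (Or.inl hv), if_pos (Or.inl hv)]

end Pool.TCT
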