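import Pool.Agent.Helper3.TCT.Defs

/-!
# T9, module Sub: the random sublists (helper55)
-/

set_option autoImplicit false

namespace Pool.TCT

open Pool.TC Pool.TCM Pool.TCS Finset
open scoped Classical

theorem sub_mf {α : Type} {p : α → Prop} {i1 : DecidablePred p} {s : Finset α} {x : α} :
    x ∈ @Finset.filter α p i1 s ↔ x ∈ s ∧ p x := Finset.mem_filter

theorem sub_fe {α : Type} {p : α → Prop} {i1 : DecidablePred p} {s : Finset α}
    (h : ∀ x ∈ s, ¬ p x) : (@Finset.filter α p i1 s).card = 0 := by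
  rw [Finset.card_eq_zero]
  exact Finset.filter_eq_empty_iff.2 h

/-- the upper bound for one row or one right vertex -/
theorem sub_up (hBernL : St_BernL) {T A κ : Type} [Fintype T] [Fintype A] [Nonempty A]
    [Fintype κ] (z : A) (pt : κ → T) (hpt : Function.Injective pt) (Q : Finset κ) (D B : ℕ)
    (Lam : ℝ) (hκ : Fintype.card κ = D + 1) (hA : Fintype.card A = 10000 * B)
    (hQ : D < 25 * (Q.card + 1)) (hB : 0 < B) (hL : 1 ≤ Lam)
    (hD : 10 ^ 16 * (B : ℝ) * Lam ≤ D) :
    ((univ.filter (fun ω : T → A => 961 * D < 1000 * (10000 * B) *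
      (univ.filter (fun a => a ∉ Q ∧ ω (pt a) = z)).card)).card : ℝ) ≤
      Real.exp (-Lam) * Fintype.card (T → A) := by
  have hB' : (1 : ℝ) ≤ B := by exact_mod_cast hB
  have hAr : (Fintype.card A : ℝ) = 10000 * B := by
    rw [hA]
    push_cast
    ring
  have hBL : (1 : ℝ) ≤ B * Lam := one_le_mul_of_one_le_of_one_le hB' hL
  have hD16 : (10 : ℝ) ^ 16 ≤ D := by nlinarith
  have hDpos : (0 : ℝ) < D := by linarith
  have hNq : (0 : ℝ) < 10000 * B := by positivity
  set W : ℝ := D / (10000 * B) with hW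
  have hQr : (D : ℝ) < 25 * (Q.card + 1) := by exact_mod_cast hQ
  have hQc : (univ.filter (fun a => a ∉ Q)).card + Q.card = D + 1 := by
    rw [← hκ, ← Finset.card_univ, ← Finset.card_filter_add_card_filter_not (s := univ)
      (fun a => a ∉ Q)]
    congr 1
    apply congrArg
    ext a
    simp
  set R : Finset T := (univ.filter (fun a => a ∉ Q)).image pt with hR
  have hRc : R.card = (univ.filter (fun a => a ∉ Q)).card := card_image_of_injective _ hpt
  have hRr : (R.card : ℝ) ≤ 96 / 100 * D + 2 := by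
    have h : (R.card : ℝ) + Q.card = D + 1 := by
      rw [hRc]
      exact_mod_cast hQc
    linarith
  set f : T → A → ℝ := fun t x => if t ∈ R ∧ x = z then 1 else 0 with hf
  have hsum : (∑ t, ∑ a, f t a) = R.card := by
    have h1 : ∀ t, (∑ a, f t a) = if t ∈ R then 1 else 0 := by
      intro t
      by_cases ht : t ∈ R
      · simp [hf, ht]
      · simp [hf, ht]
    simp only [h1]
    simp
  have hsq : (∑ t, ∑ a, f t a ^ 2) = R.card := by
    rw [← hsum]
    refine sum_congr rfl fun t _ => sum_congr rfl fun a _ => ?_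
    simp only [hf]
    split_ifs <;> norm_num
  have hLW : Lam * 1 ^ 2 ≤ W := by
    rw [one_pow, mul_one, hW, le_div_iff₀ hNq]
    nlinarith
  have hb := hBernL T A f 1 W Lam one_pos (by linarith) hLW (by
    intro t a
    simp only [hf]
    split_ifs <;> norm_num) (by
    rw [hsq, hAr, hW, div_mul_cancel₀ _ hNq.ne']
    linarith)
  refine le_trans ?_ hb
  have hsqrt : Real.sqrt (W * Lam) ≤ D / (10 ^ 6 * (10000 * B)) := by
    apply Real.sqrt_le_iff.2
    refine ⟨by positivity, ?_⟩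
    rw [hW, div_mul_eq_mul_div, div_pow, div_le_div_iff₀ hNq (by positivity)]
    have h1 : (10 : ℝ) ^ 16 * B * Lam * (D * (10000 * B)) ≤ D * (D * (10000 * B)) := by gcongr
    nlinarith
  norm_cast
  apply card_le_card
  intro ω hω
  rw [sub_mf] at hω ⊢
  refine ⟨mem_univ _, ?_⟩
  have h1 := hω.2
  have h2 : ((univ.filter (fun a => a ∉ Q ∧ ω (pt a) = z)).card : ℝ) ≤ ∑ t, f t (ω t) := by
    have h3 : (∑ t, f t (ω t)) = ((univ.filter (fun t => t ∈ R ∧ ω t = z)).card : ℝ) := by
      simp [hf]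
    rw [h3]
    norm_cast
    refine card_le_card_of_injOn pt ?_ hpt.injOn
    intro a ha
    have ha' := (sub_mf.1 (mem_coe.1 ha)).2
    rw [mem_coe, sub_mf]
    exact ⟨mem_univ _, mem_image_of_mem _ (sub_mf.2 ⟨mem_univ _, ha'.1⟩), ha'.2⟩
  refine le_trans ?_ h2
  have h4 : (961 * D : ℝ) < 1000 * (10000 * B) *
      ((univ.filter (fun a => a ∉ Q ∧ ω (pt a) = z)).card : ℝ) := by
    exact_mod_cast h1
  rw [hsum, hAr]
  have h5 : (R.card : ℝ) / (10000 * B) + 3 * (D / (10 ^ 6 * (10000 * B))) ≤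
      961 * D / (1000 * (10000 * B)) := by
    rw [show (D : ℝ) / (10 ^ 6 * (10000 * B)) = D / 10 ^ 6 / (10000 * B) by
      rw [div_div], show 961 * (D : ℝ) / (1000 * (10000 * B)) = 961 * D / 1000 / (10000 * B) by
      rw [div_div], mul_div_assoc', ← add_div]
    apply div_le_div_of_nonneg_right _ hNq.le
    linarith
  have h6 : 961 * (D : ℝ) / (1000 * (10000 * B)) ≤
      ((univ.filter (fun a => a ∉ Q ∧ ω (pt a) = z)).card : ℝ) := by
    rw [div_le_iff₀ (by positivity)]
    linarith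
  linarith

/-- the lower bound for one colour -/
theorem sub_low (hThin : St_Thin) {T A V κ ι : Type} [Fintype T] [Fintype A] [Nonempty A]
    [Fintype V] [Fintype κ] (z : A) (tt : V → κ → T)
    (htt : ∀ w a w' a', tt w a = tt w' a' → w = w' ∧ a = a')
    (G : SimpleGraph V) (D B : ℕ) (K : ι → Finset V) (Rw : ι → Finset V)
    (al : V → κ → Prop) (Lam : ℝ) (hdec : Dec G B K) (hRw : ∀ i, Rw i ⊆ K i)
    (hA : Fintype.card A = 10000 * B) (hB : 0 < B) (hL : 1 ≤ Lam)
    (hD : 10 ^ 16 * (B : ℝ) * Lam ≤ D) (i : ι) (a : κ)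
    (hal : 99 * D ≤ 100 * ((Rw i).filter (fun w => al w a)).card) :
    ((univ.filter (fun ω : T → A => 100 * (10000 * B) *
      (((Rw i).filter (fun w => al w a)).filter (fun w => ω (tt w a) = z ∧
        ∀ x, G.Adj w x ∧ x ∉ K i ∧ (∃ j, x ∈ Rw j) → ω (tt x a) ≠ z)).card < 98 * D)).card : ℝ) ≤
      2 * Real.exp (-Lam) * Fintype.card (T → A) := by
  have hB' : (1 : ℝ) ≤ B := by exact_mod_cast hB
  have hAr : (Fintype.card A : ℝ) = 10000 * B := by
    rw [hA]
    push_cast
    ring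
  have hBL : (1 : ℝ) ≤ B * Lam := one_le_mul_of_one_le_of_one_le hB' hL
  have hD16 : (10 : ℝ) ^ 16 ≤ D := by nlinarith
  have hal' : 99 * (D : ℝ) ≤ 100 * ((Rw i).filter (fun w => al w a)).card := by
    exact_mod_cast hal
  have h := hThin T A V (fun w => tt w a) (fun _ => z) ((Rw i).filter (fun w => al w a))
    (fun w x => G.Adj w x ∧ x ∉ K i ∧ ∃ j, x ∈ Rw j) B B Lam
    (fun w w' h1 _ => (htt _ _ _ _ h1).1)
    (by
      intro w hw x hx w' hw' h1
      have h2 := (htt _ _ _ _ h1).1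
      rw [h2] at hw'
      exact hx.2.1 (hRw i (sub_mf.1 hw').1))
    (by
      intro w hw
      refine le_trans (card_le_card ?_) (hdec.out i w (hRw i (sub_mf.1 hw).1))
      intro x hx
      have hx' := (sub_mf.1 hx).2
      rw [mem_sdiff]
      exact ⟨sub_mf.2 ⟨mem_univ _, hx'.1⟩, hx'.2.1⟩)
    (by
      intro x
      by_cases hx : x ∉ K i ∧ ∃ j, x ∈ Rw j
      · obtain ⟨hx1, j, hxj⟩ := hx
        refine le_trans (card_le_card ?_) (hdec.out j x (hRw j hxj))
        intro w hw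
        have hw' := sub_mf.1 hw
        have hwi : w ∈ K i := hRw i (sub_mf.1 hw'.1).1
        rw [mem_sdiff]
        refine ⟨sub_mf.2 ⟨mem_univ _, hw'.2.1.symm⟩, fun hwj => ?_⟩
        have hij := hdec.disj i j w hwi hwj
        rw [hij] at hx1
        exact hx1 (hRw j hxj)
      · rw [sub_fe]
        · exact Nat.zero_le _
        · intro w _ hw
          exact hx hw.2)
    hB (by linarith) (by omega) (by nlinarith) (by rw [hAr]; nlinarith)
  refine le_trans ?_ h
  rw [Nat.cast_le]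
  apply card_le_card
  intro ω hω
  rw [sub_mf] at hω ⊢
  refine ⟨mem_univ _, ?_⟩
  have h1 := hω.2
  have h2 : 100 * (10000 * (B : ℝ)) *
      ((((Rw i).filter (fun w => al w a)).filter (fun w => ω (tt w a) = z ∧
        ∀ x, G.Adj w x ∧ x ∉ K i ∧ (∃ j, x ∈ Rw j) → ω (tt x a) ≠ z)).card : ℝ) < 98 * D := by
    exact_mod_cast h1
  rw [hAr]
  have h3 : (10000 * (B : ℝ)) *
      ((((Rw i).filter (fun w => al w a)).filter (fun w => ω (tt w a) = z ∧
        ∀ x, G.Adj w x ∧ x ∉ K i ∧ (∃ j, x ∈ Rw j) → ω (tt x a) ≠ z)).card : ℝ) <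
      99 / 100 * (((Rw i).filter (fun w => al w a)).card : ℝ) := by
    linarith
  refine lt_of_le_of_lt ?_ h3
  refine mul_le_mul_of_nonneg_left ?_ (by positivity)
  rw [Nat.cast_le]
  exact card_le_card fun x hx => sub_mf.2 (sub_mf.1 hx)

/-- the number of dependent events -/
theorem sub_dep {T J : Type} [Fintype J] (S : J → Finset T) (p q : ℕ)
    (h1 : ∀ j, (S j).card ≤ p) (h2 : ∀ t, (univ.filter (fun j => t ∈ S j)).card ≤ q) (j : J) :
    (univ.filter (fun j' => ∃ t, t ∈ S j ∧ t ∈ S j')).card ≤ p * q := by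
  have h3 : (univ.filter (fun j' => ∃ t, t ∈ S j ∧ t ∈ S j')) ⊆
      (S j).biUnion (fun t => univ.filter (fun j' => t ∈ S j')) := by
    intro j' hj'
    obtain ⟨t, ht, ht'⟩ := (sub_mf.1 hj').2
    exact mem_biUnion.2 ⟨t, ht, sub_mf.2 ⟨mem_univ _, ht'⟩⟩
  refine le_trans (card_le_card h3) (le_trans (card_biUnion_le_card_mul _ _ q fun t _ => h2 t) ?_)
  exact Nat.mul_le_mul_right _ (h1 j)

/-- the coordinates of the events -/
noncomputable def sub_S {T V κ ι : Type} [Fintype T] (tt : V → κ → T) (G : SimpleGraph V)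
    (N : κ → V → V) (K : ι → Finset V) : (ι × κ) ⊕ (V ⊕ V) → Finset T
  | Sum.inl p => univ.filter (fun t => ∃ x, t = tt x p.2 ∧ ∃ w ∈ K p.1, w = x ∨ G.Adj w x)
  | Sum.inr (Sum.inl w) => univ.filter (fun t => ∃ a, t = tt w a)
  | Sum.inr (Sum.inr v) => univ.filter (fun t => ∃ a, t = tt (N a v) a)

theorem sub_S_card {T V κ ι : Type} [Fintype T] [Fintype V] [Fintype κ] (tt : V → κ → T)
    (G : SimpleGraph V) (D B : ℕ) (N : κ → V → V) (K : ι → Finset V) (hlat : Lat G D N)
    (hdec : Dec G B K) (hBD : B ≤ D) (j : (ι × κ) ⊕ (V ⊕ V)) :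
    (sub_S tt G N K j).card ≤ (2 * D + 1) * (D + 1) := by
  rcases j with ⟨i, a⟩ | w | v
  · have hK : (K i).card ≤ 2 * D + 1 := by
      obtain ⟨w, hw⟩ := hdec.ne i
      have h1 := hdec.inn i w hw
      have h2 : (insert w (nb G w)).card ≤ D + 1 := by
        refine le_trans (card_insert_le _ _) ?_
        rw [hlat.deg]
      have h3 : (K i).card ≤ (K i \ insert w (nb G w)).card + (insert w (nb G w)).card := by
        refine le_trans (card_le_card ?_) (card_union_le _ _)
        intro x hx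
        by_cases hx' : x ∈ insert w (nb G w)
        · exact mem_union_right _ hx'
        · exact mem_union_left _ (mem_sdiff.2 ⟨hx, hx'⟩)
      omega
    have h1 : sub_S tt G N K (Sum.inl (i, a)) ⊆
        ((K i).biUnion (fun w => insert w (nb G w))).image (fun x => tt x a) := by
      intro t ht
      obtain ⟨x, hx, w, hw, hwx⟩ := (sub_mf.1 ht).2
      refine mem_image.2 ⟨x, mem_biUnion.2 ⟨w, hw, ?_⟩, hx.symm⟩
      rcases hwx with rfl | hwx
      · exact mem_insert_self _ _
      · exact mem_insert_of_mem (sub_mf.2 ⟨mem_univ _, hwx⟩)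
    refine le_trans (card_le_card h1) (le_trans card_image_le
      (le_trans (card_biUnion_le_card_mul _ _ (D + 1) fun w _ => ?_) ?_))
    · refine le_trans (card_insert_le _ _) ?_
      rw [hlat.deg]
    · exact Nat.mul_le_mul_right _ hK
  · have h1 : sub_S tt G N K (Sum.inr (Sum.inl w)) ⊆ (univ : Finset κ).image (fun a => tt w a) := by
      intro t ht
      obtain ⟨a, ha⟩ := (sub_mf.1 ht).2
      exact mem_image.2 ⟨a, mem_univ _, ha.symm⟩
    refine le_trans (card_le_card h1) (le_trans card_image_le ?_)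
    rw [card_univ, hlat.card]
    nlinarith
  · have h1 : sub_S tt G N K (Sum.inr (Sum.inr v)) ⊆
        (univ : Finset κ).image (fun a => tt (N a v) a) := by
      intro t ht
      obtain ⟨a, ha⟩ := (sub_mf.1 ht).2
      exact mem_image.2 ⟨a, mem_univ _, ha.symm⟩
    refine le_trans (card_le_card h1) (le_trans card_image_le ?_)
    rw [card_univ, hlat.card]
    nlinarith

theorem sub_S_deg {T V κ ι : Type} [Fintype T] [Fintype V] [Fintype κ] [Fintype ι]
    (tt : V → κ → T) (htt : ∀ w a w' a', tt w a = tt w' a' → w = w' ∧ a = a')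
    (G : SimpleGraph V) (D B : ℕ) (N : κ → V → V) (K : ι → Finset V) (hlat : Lat G D N)
    (hdec : Dec G B K) (t : T) :
    (univ.filter (fun j => t ∈ sub_S tt G N K j)).card ≤ D + 3 := by
  by_cases ht : ∃ x a, t = tt x a
  · obtain ⟨x, a, rfl⟩ := ht
    have h1 : (univ.filter (fun j => tt x a ∈ sub_S tt G N K j)) ⊆
        ((((insert x (nb G x)).biUnion (fun w => univ.filter (fun i => w ∈ K i))).image
          (fun i => (Sum.inl (i, a) : (ι × κ) ⊕ (V ⊕ V)))) ∪ {Sum.inr (Sum.inl x)}) ∪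
          {Sum.inr (Sum.inr (N a x))} := by
      intro j hj
      have hj' := (sub_mf.1 hj).2
      rcases j with ⟨i, b⟩ | w | v
      · obtain ⟨y, hy, w, hw, hwy⟩ := (sub_mf.1 hj').2
        obtain ⟨rfl, rfl⟩ := htt _ _ _ _ hy
        refine mem_union_left _ (mem_union_left _ (mem_image.2 ⟨i, mem_biUnion.2 ⟨w, ?_,
          sub_mf.2 ⟨mem_univ _, hw⟩⟩, rfl⟩))
        rcases hwy with rfl | hwy
        · exact mem_insert_self _ _
        · exact mem_insert_of_mem (sub_mf.2 ⟨mem_univ _, hwy.symm⟩)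
      · obtain ⟨b, hb⟩ := (sub_mf.1 hj').2
        obtain ⟨rfl, rfl⟩ := htt _ _ _ _ hb
        exact mem_union_left _ (mem_union_right _ (mem_singleton_self _))
      · obtain ⟨b, hb⟩ := (sub_mf.1 hj').2
        obtain ⟨h2, rfl⟩ := htt _ _ _ _ hb
        refine mem_union_right _ (mem_singleton.2 ?_)
        rw [h2, hlat.inv]
    refine le_trans (card_le_card h1) (le_trans (card_union_le _ _) ?_)
    have h2 : (((insert x (nb G x)).biUnion (fun w => univ.filter (fun i => w ∈ K i))).image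
          (fun i => (Sum.inl (i, a) : (ι × κ) ⊕ (V ⊕ V)))).card ≤ (D + 1) * 1 := by
      refine le_trans card_image_le (le_trans (card_biUnion_le_card_mul _ _ 1 fun w _ => ?_) ?_)
      · rw [card_le_one]
        intro i hi i' hi'
        exact hdec.disj i i' w (sub_mf.1 hi).2 (sub_mf.1 hi').2
      · refine Nat.mul_le_mul_right _ (le_trans (card_insert_le _ _) ?_)
        rw [hlat.deg]
    have h3 := card_union_le (((insert x (nb G x)).biUnion
      (fun w => univ.filter (fun i => w ∈ K i))).image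
          (fun i => (Sum.inl (i, a) : (ι × κ) ⊕ (V ⊕ V)))) {Sum.inr (Sum.inl x)}
    rw [card_singleton] at h3 ⊢
    omega
  · rw [sub_fe]
    · exact Nat.zero_le _
    · intro j _ hj
      rcases j with ⟨i, b⟩ | w | v
      · obtain ⟨y, hy, -⟩ := (sub_mf.1 hj).2
        exact ht ⟨_, _, hy⟩
      · obtain ⟨b, hb⟩ := (sub_mf.1 hj).2
        exact ht ⟨_, _, hb⟩
      · obtain ⟨b, hb⟩ := (sub_mf.1 hj).2
        exact ht ⟨_, _, hb⟩

theorem sub_main (hThin : St_Thin) (hBernL : St_BernL) (hLLL0 : Pool.TCS.St_LLL0)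
    {T A V κ ι : Type} [Fintype T] [Fintype A] [Nonempty A] [Fintype V] [Fintype κ] [Fintype ι]
    (z : A) (tt : V → κ → T) (htt : ∀ w a w' a', tt w a = tt w' a' → w = w' ∧ a = a')
    (G : SimpleGraph V) (D B : ℕ) (N : κ → V → V) (K : ι → Finset V) (Q : Finset κ)
    (Rw : ι → Finset V) (Gd : ι → Finset κ) (al : V → κ → Prop) (Lam : ℝ) (hlat : Lat G D N)
    (hdec : Dec G B K) (hRw : ∀ i, Rw i ⊆ K i) (hGd : ∀ i, ∀ a ∈ Gd i, a ∉ Q)
    (hA : Fintype.card A = 10000 * B) (hQ : D < 25 * (Q.card + 1))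
    (hal : ∀ i, ∀ a ∈ Gd i, 99 * D ≤ 100 * ((Rw i).filter (fun w => al w a)).card)
    (hB : 0 < B) (hL : 1 ≤ Lam) (hD : 10 ^ 16 * (B : ℝ) * Lam ≤ D)
    (hexp : 8 * Real.exp (-Lam) * (((D : ℝ) + 2) ^ 20 + 1) ≤ 1) :
    ∃ A : V → κ → Prop, (∀ w a, A w a → ∃ i, w ∈ Rw i ∧ a ∈ Gd i ∧ al w a) ∧
    (∀ w x a i, A w a → A x a → G.Adj w x → w ∈ K i → x ∈ K i) ∧
    (∀ i, ∀ a ∈ Gd i, 98 * D ≤ 100 * (10000 * B) * ((Rw i).filter (fun w => A w a)).card) ∧
    (∀ w, 1000 * (10000 * B) * (univ.filter (fun a => A w a)).card ≤ 961 * D) ∧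
    (∀ v, 1000 * (10000 * B) * (univ.filter (fun a => A (N a v) a)).card ≤ 961 * D) := by
  have hB' : (1 : ℝ) ≤ B := by exact_mod_cast hB
  have hBD : B ≤ D := by
    have h : (B : ℝ) ≤ D := by nlinarith
    exact_mod_cast h
  have hexp0 : 0 < Real.exp (-Lam) := Real.exp_pos _
  obtain ⟨ω, hω⟩ := hLLL0 T A ((ι × κ) ⊕ (V ⊕ V))
    (fun j ω => match j with
      | Sum.inl p => p.2 ∈ Gd p.1 ∧ 100 * (10000 * B) *
          (((Rw p.1).filter (fun w => al w p.2)).filter (fun w => ω (tt w p.2) = z ∧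
            ∀ x, G.Adj w x ∧ x ∉ K p.1 ∧ (∃ j, x ∈ Rw j) → ω (tt x p.2) ≠ z)).card < 98 * D
      | Sum.inr (Sum.inl w) => 961 * D < 1000 * (10000 * B) *
          (univ.filter (fun a => a ∉ Q ∧ ω (tt w a) = z)).card
      | Sum.inr (Sum.inr v) => 961 * D < 1000 * (10000 * B) *
          (univ.filter (fun a => a ∉ Q ∧ ω (tt (N a v) a) = z)).card)
    (sub_S tt G N K) (2 * Real.exp (-Lam)) ((D + 2) ^ 20)
    (by
      intro j ω ω' hωω
      rcases j with ⟨i, a⟩ | w | v
      · rintro ⟨h1, h2⟩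
        refine ⟨h1, ?_⟩
        have h3 : (((Rw i).filter (fun w => al w a)).filter (fun w => ω' (tt w a) = z ∧
            ∀ x, G.Adj w x ∧ x ∉ K i ∧ (∃ j, x ∈ Rw j) → ω' (tt x a) ≠ z)).card =
            (((Rw i).filter (fun w => al w a)).filter (fun w => ω (tt w a) = z ∧
            ∀ x, G.Adj w x ∧ x ∉ K i ∧ (∃ j, x ∈ Rw j) → ω (tt x a) ≠ z)).card := by
          apply congrArg
          apply filter_congr
          intro w hw
          have hwK : w ∈ K i := hRw i (sub_mf.1 hw).1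
          have e1 : ω (tt w a) = ω' (tt w a) :=
            hωω _ (sub_mf.2 ⟨mem_univ _, w, rfl, w, hwK, Or.inl rfl⟩)
          have e2 : ∀ x, G.Adj w x → ω (tt x a) = ω' (tt x a) := fun x hx =>
            hωω _ (sub_mf.2 ⟨mem_univ _, x, rfl, w, hwK, Or.inr hx⟩)
          rw [e1]
          constructor
          · rintro ⟨h4, h5⟩
            refine ⟨h4, fun x hx => ?_⟩
            rw [e2 x hx.1]
            exact h5 x hx
          · rintro ⟨h4, h5⟩
            refine ⟨h4, fun x hx => ?_⟩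
            rw [← e2 x hx.1]
            exact h5 x hx
        show 100 * (10000 * B) * (((Rw i).filter (fun w => al w a)).filter
          (fun w => ω' (tt w a) = z ∧
            ∀ x, G.Adj w x ∧ x ∉ K i ∧ (∃ j, x ∈ Rw j) → ω' (tt x a) ≠ z)).card < 98 * D
        rw [h3]
        exact h2
      · intro h1
        have h3 : (univ.filter (fun a => a ∉ Q ∧ ω' (tt w a) = z)) =
            (univ.filter (fun a => a ∉ Q ∧ ω (tt w a) = z)) := by
          apply filter_congr
          intro a _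
          rw [hωω (tt w a) (sub_mf.2 ⟨mem_univ _, a, rfl⟩)]
        show 961 * D < 1000 * (10000 * B) *
          (univ.filter (fun a => a ∉ Q ∧ ω' (tt w a) = z)).card
        rw [h3]
        exact h1
      · intro h1
        have h3 : (univ.filter (fun a => a ∉ Q ∧ ω' (tt (N a v) a) = z)) =
            (univ.filter (fun a => a ∉ Q ∧ ω (tt (N a v) a) = z)) := by
          apply filter_congr
          intro a _
          rw [hωω (tt (N a v) a) (sub_mf.2 ⟨mem_univ _, a, rfl⟩)]
        show 961 * D < 1000 * (10000 * B) *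
          (univ.filter (fun a => a ∉ Q ∧ ω' (tt (N a v) a) = z)).card
        rw [h3]
        exact h1)
    (by
      intro j
      rcases j with ⟨i, a⟩ | w | v
      · by_cases ha : a ∈ Gd i
        · refine le_trans ?_ (sub_low hThin z tt htt G D B K Rw al Lam hdec hRw hA hB hL hD i a
            (hal i a ha))
          rw [Nat.cast_le]
          apply card_le_card
          intro ω hω
          refine sub_mf.2 ⟨mem_univ _, ?_⟩
          refine lt_of_le_of_lt ?_ (sub_mf.1 hω).2.2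
          exact Nat.mul_le_mul_left _ (card_le_card fun x hx => sub_mf.2 (sub_mf.1 hx))
        · rw [sub_fe]
          · rw [Nat.cast_zero]
            positivity
          · intro ω _ hω
            exact ha hω.1
      · refine le_trans ?_ (le_trans (sub_up hBernL z (fun a => tt w a)
          (fun a b h => (htt _ _ _ _ h).2) Q D B Lam hlat.card hA hQ hB hL hD) ?_)
        · rw [Nat.cast_le]
          apply card_le_card
          intro ω hω
          exact sub_mf.2 ⟨mem_univ _, (sub_mf.1 hω).2⟩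
        · apply mul_le_mul_of_nonneg_right _ (Nat.cast_nonneg _)
          linarith
      · refine le_trans ?_ (le_trans (sub_up hBernL z (fun a => tt (N a v) a)
          (fun a b h => (htt _ _ _ _ h).2) Q D B Lam hlat.card hA hQ hB hL hD) ?_)
        · rw [Nat.cast_le]
          apply card_le_card
          intro ω hω
          exact sub_mf.2 ⟨mem_univ _, (sub_mf.1 hω).2⟩
        · apply mul_le_mul_of_nonneg_right _ (Nat.cast_nonneg _)
          linarith)
    (by
      intro j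
      refine le_trans (sub_dep (sub_S tt G N K) ((2 * D + 1) * (D + 1)) (D + 3)
        (sub_S_card tt G D B N K hlat hdec hBD) (sub_S_deg tt htt G D B N K hlat hdec) j) ?_
      have e1 : 2 * D + 1 ≤ (D + 2) ^ 2 := by nlinarith
      have e2 : D + 1 ≤ D + 2 := by omega
      have e3 : D + 3 ≤ (D + 2) ^ 2 := by nlinarith
      calc (2 * D + 1) * (D + 1) * (D + 3) ≤ (D + 2) ^ 2 * (D + 2) * (D + 2) ^ 2 := by gcongr
        _ = (D + 2) ^ 5 := by ring
        _ ≤ (D + 2) ^ 20 := Nat.pow_le_pow_right (by omega) (by norm_num))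
    (by positivity)
    (by
      push_cast
      linarith)
  have hω1 : ∀ i, ∀ a ∈ Gd i, 98 * D ≤ 100 * (10000 * B) *
          (((Rw i).filter (fun w => al w a)).filter (fun w => ω (tt w a) = z ∧
            ∀ x, G.Adj w x ∧ x ∉ K i ∧ (∃ j, x ∈ Rw j) → ω (tt x a) ≠ z)).card := by
    intro i a ha
    by_contra hcon
    exact hω (Sum.inl (i, a)) ⟨ha, not_le.1 hcon⟩
  have hω2 : ∀ w, 1000 * (10000 * B) *
          (univ.filter (fun a => a ∉ Q ∧ ω (tt w a) = z)).card ≤ 961 * D := by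
    intro w
    by_contra hcon
    exact hω (Sum.inr (Sum.inl w)) (not_le.1 hcon)
  have hω3 : ∀ v, 1000 * (10000 * B) *
          (univ.filter (fun a => a ∉ Q ∧ ω (tt (N a v) a) = z)).card ≤ 961 * D := by
    intro v
    by_contra hcon
    exact hω (Sum.inr (Sum.inr v)) (not_le.1 hcon)
  refine ⟨fun w a => ∃ i, w ∈ Rw i ∧ a ∈ Gd i ∧ al w a ∧ ω (tt w a) = z ∧
    ∀ x, G.Adj w x ∧ x ∉ K i ∧ (∃ j, x ∈ Rw j) → ω (tt x a) ≠ z, ?_, ?_, ?_, ?_, ?_⟩
  · rintro w a ⟨i, h1, h2, h3, -⟩
    exact ⟨i, h1, h2, h3⟩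
  · rintro w x a i ⟨i', h1, -, -, -, h5⟩ ⟨j, g1, -, -, g4, -⟩ hwx hw
    by_contra hx
    have hii : i = i' := hdec.disj _ _ w hw (hRw i' h1)
    rw [← hii] at h5
    exact h5 x ⟨hwx, hx, j, g1⟩ g4
  · intro i a ha
    refine le_trans (hω1 i a ha) (Nat.mul_le_mul_left _ (card_le_card ?_))
    intro w hw
    obtain ⟨h1, h2, h3⟩ := sub_mf.1 hw
    obtain ⟨h4, h5⟩ := sub_mf.1 h1
    exact sub_mf.2 ⟨h4, i, h4, ha, h5, h2, h3⟩
  · intro w
    refine le_trans (Nat.mul_le_mul_left _ (card_le_card ?_)) (hω2 w)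
    intro a ha
    obtain ⟨i, -, h2, -, h4, -⟩ := (sub_mf.1 ha).2
    exact sub_mf.2 ⟨mem_univ _, hGd i a h2, h4⟩
  · intro v
    refine le_trans (Nat.mul_le_mul_left _ (card_le_card ?_)) (hω3 v)
    intro a ha
    obtain ⟨i, -, h2, -, h4, -⟩ := (sub_mf.1 ha).2
    exact sub_mf.2 ⟨mem_univ _, hGd i a h2, h4⟩

theorem thm_Sub (hThin : St_Thin) (hBernL : St_BernL) (hLLL0 : Pool.TCS.St_LLL0) : St_Sub := by
  intro V κ ι _ _ _ G D B N K Q Rw Gd al Lam hlat hdec hRw hGd hQ hal hB hL hD hexp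
  have hpos : 0 < 10000 * B := by omega
  have hne : Nonempty (Fin (10000 * B)) := ⟨⟨0, hpos⟩⟩
  exact sub_main hThin hBernL hLLL0 (T := V × κ) (A := Fin (10000 * B)) ⟨0, hpos⟩ Prod.mk
    (fun w a w' a' h => Prod.mk.inj h) G D B N K Q Rw Gd al Lam hlat hdec hRw hGd
    (Fintype.card_fin _) hQ hal hB hL hD hexp

end Pool.TCT
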