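import Pool.Agent.Helper3.TCT.Defs

/-!
# THIN

Items of `W` are switched on at random, and the items with a switched on guard are removed. The
guards live on other coordinates than the items of `W`; instead of conditioning we mix two
independent samples.
-/

set_option autoImplicit false

namespace Pool.TCT

open Finset
open scoped Classical

namespace ThinP

section mix

variable {T A : Type}

/-- the sample which is `ω` on `I` and `ω'` outside of `I` -/
noncomputable def mx (I : T → Prop) (ω ω' : T → A) : T → A := fun t => if I t then ω t else ω' t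

theorem mx_mx (I : T → Prop) (ω ω' : T → A) : mx I (mx I ω ω') (mx I ω' ω) = ω := by
  funext t
  unfold mx
  by_cases h : I t <;> simp [h]

theorem card_mx [Fintype T] [Fintype A] (I : T → Prop) (P : (T → A) → Prop) :
    (univ.filter (fun p : (T → A) × (T → A) => P (mx I p.1 p.2))).card =
      (univ.filter (fun ω : T → A => P ω)).card * Fintype.card (T → A) := by
  have h1 : (univ.filter (fun p : (T → A) × (T → A) => P p.1)) =
      (univ.filter (fun ω : T → A => P ω)) ×ˢ (univ : Finset (T → A)) := by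
    ext p
    simp
  rw [← Finset.card_univ, ← Finset.card_product, ← h1]
  refine Finset.card_bij (fun p _ => (mx I p.1 p.2, mx I p.2 p.1)) ?_ ?_ ?_
  · intro p hp
    simpa using hp
  · intro p _ q _ h
    have e1 := congrArg Prod.fst h
    have e2 := congrArg Prod.snd h
    simp only at e1 e2
    have a1 := mx_mx I p.1 p.2
    have a2 := mx_mx I p.2 p.1
    have b1 := mx_mx I q.1 q.2
    have b2 := mx_mx I q.2 q.1
    rw [e1, e2, b1] at a1
    rw [e1, e2, b2] at a2
    exact Prod.ext a1.symm a2.symm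
  · intro p hp
    refine ⟨(mx I p.1 p.2, mx I p.2 p.1), ?_, ?_⟩
    · simp only [mem_filter, mem_univ, true_and] at hp ⊢
      rw [mx_mx]
      exact hp
    · simp only [mx_mx]

theorem bound_mx [Fintype T] [Fintype A] (I : T → Prop) (P Q : (T → A) → Prop) (ε : ℝ)
    (hQ : ((univ.filter (fun ω : T → A => Q ω)).card : ℝ) ≤ ε * Fintype.card (T → A))
    (hP : ∀ ω' : T → A, ¬ Q ω' →
      ((univ.filter (fun ω : T → A => P (mx I ω ω'))).card : ℝ) ≤ ε * Fintype.card (T → A)) 
    (hε : 0 ≤ ε) (hN : 0 < Fintype.card (T → A)) :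
    ((univ.filter (fun ω : T → A => P ω)).card : ℝ) ≤ 2 * ε * Fintype.card (T → A) := by
  have h1 := card_mx I P
  have h2 : ((univ.filter (fun p : (T → A) × (T → A) => P (mx I p.1 p.2))).card : ℝ) =
      ∑ ω' : T → A, ((univ.filter (fun ω : T → A => P (mx I ω ω'))).card : ℝ) := by
    rw [Finset.card_filter, Fintype.sum_prod_type_right]
    push_cast
    refine Finset.sum_congr rfl (fun ω' _ => ?_)
    rw [Finset.card_filter]
    push_cast
    rfl
  have h3 : ∑ ω' : T → A, ((univ.filter (fun ω : T → A => P (mx I ω ω'))).card : ℝ) ≤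
      ∑ ω' : T → A, ((if Q ω' then (Fintype.card (T → A) : ℝ) else 0) +
        ε * Fintype.card (T → A)) := by
    refine Finset.sum_le_sum (fun ω' _ => ?_)
    by_cases hq : Q ω'
    · rw [if_pos hq]
      have h4 : ((univ.filter (fun ω : T → A => P (mx I ω ω'))).card : ℝ) ≤
          (Fintype.card (T → A) : ℝ) := by
        exact_mod_cast Finset.card_le_univ _
      have h5 : 0 ≤ ε * (Fintype.card (T → A) : ℝ) := by positivity
      linarith
    · rw [if_neg hq, zero_add]
      exact hP ω' hq
  have h4 : ∑ ω' : T → A, ((if Q ω' then (Fintype.card (T → A) : ℝ) else 0) +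
        ε * Fintype.card (T → A)) =
      ((univ.filter (fun ω : T → A => Q ω)).card : ℝ) * Fintype.card (T → A) +
        Fintype.card (T → A) * (ε * Fintype.card (T → A)) := by
    rw [Finset.sum_add_distrib, ← Finset.sum_filter, Finset.sum_const, Finset.sum_const,
      Finset.card_univ]
    simp only [nsmul_eq_mul]
  have h6 : ((univ.filter (fun ω : T → A => P ω)).card : ℝ) * Fintype.card (T → A) ≤
      (2 * ε * Fintype.card (T → A)) * Fintype.card (T → A) := by
    have h7 : ((univ.filter (fun ω : T → A => P ω)).card : ℝ) * Fintype.card (T → A) =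
        ((univ.filter (fun p : (T → A) × (T → A) => P (mx I p.1 p.2))).card : ℝ) := by
      rw [h1]; push_cast; rfl
    rw [h7, h2]
    refine (h3.trans_eq h4).trans ?_
    have h8 := mul_le_mul_of_nonneg_right hQ (Nat.cast_nonneg (Fintype.card (T → A)) : (0:ℝ) ≤ _)
    nlinarith
  exact le_of_mul_le_mul_right h6 (by exact_mod_cast hN)

end mix

/-- The Bernstein inequality for weighted items. -/
theorem wbern (hBernL : St_BernL) {T A J : Type} [Fintype T] [Fintype A] [Nonempty A] [Fintype J]
    (tj : J → T) (aj : J → A) (hinj : ∀ j j', tj j = tj j' → aj j = aj j' → j = j')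
    (b : J → ℝ) (c W Lam : ℝ) (hc : 0 < c) (hL : 0 < Lam) (hW : Lam * c ^ 2 ≤ W)
    (hb : ∀ j, |b j| ≤ c) (hs : ∑ j, b j ^ 2 ≤ W * Fintype.card A) :
    ((univ.filter (fun ω : T → A => (∑ j, b j) / Fintype.card A + 3 * Real.sqrt (W * Lam) ≤
      ∑ j, if ω (tj j) = aj j then b j else 0)).card : ℝ) ≤
      Real.exp (-Lam) * Fintype.card (T → A) := by
  have key : ∀ t a, (∃ j, tj j = t ∧ aj j = a ∧
      ∀ g : J → ℝ, (∑ j', if tj j' = t ∧ aj j' = a then g j' else 0) = g j) ∨
      (∀ g : J → ℝ, (∑ j', if tj j' = t ∧ aj j' = a then g j' else 0) = 0) := by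
    intro t a
    by_cases h : ∃ j, tj j = t ∧ aj j = a
    · obtain ⟨j, h1, h2⟩ := h
      refine Or.inl ⟨j, h1, h2, fun g => ?_⟩
      rw [Finset.sum_eq_single j]
      · rw [if_pos ⟨h1, h2⟩]
      · intro j' _ hne
        rw [if_neg]
        rintro ⟨h3, h4⟩
        exact hne (hinj j' j (h3.trans h1.symm) (h4.trans h2.symm))
      · intro h'; exact absurd (mem_univ _) h'
    · refine Or.inr (fun g => ?_)
      refine Finset.sum_eq_zero (fun j' _ => ?_)
      rw [if_neg]
      intro h'
      exact h ⟨j', h'⟩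
  have dbl : ∀ g : J → ℝ, (∑ t, ∑ a, ∑ j, if tj j = t ∧ aj j = a then g j else 0) = ∑ j, g j := by
    intro g
    have e1 : ∀ t : T, (∑ a : A, ∑ j, if tj j = t ∧ aj j = a then g j else 0) =
        ∑ j, if tj j = t then g j else 0 := by
      intro t
      rw [Finset.sum_comm]
      refine Finset.sum_congr rfl (fun j _ => ?_)
      by_cases h : tj j = t
      · simp [h]
      · simp [h]
    rw [Finset.sum_congr rfl (fun t _ => e1 t), Finset.sum_comm]
    refine Finset.sum_congr rfl (fun j _ => ?_)
    simp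
  have h := hBernL T A (fun t a => ∑ j, if tj j = t ∧ aj j = a then b j else 0) c W Lam hc hL hW
    (by
      intro t a
      rcases key t a with ⟨j, _, _, h3⟩ | h3
      · simp only [h3 b]; exact hb j
      · simp only [h3 b, abs_zero]; exact hc.le)
    (by
      have e : ∀ t a, (∑ j, if tj j = t ∧ aj j = a then b j else 0) ^ 2 =
          ∑ j, if tj j = t ∧ aj j = a then b j ^ 2 else 0 := by
        intro t a
        rcases key t a with ⟨j, _, _, h3⟩ | h3
        · rw [h3 b, h3 (fun j => b j ^ 2)]
        · rw [h3 b, h3 (fun j => b j ^ 2)]; simp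
      simp only [e, dbl (fun j => b j ^ 2)]
      exact hs)
  have e2 : ∀ ω : T → A, (∑ t, ∑ j, if tj j = t ∧ aj j = ω t then b j else 0) =
      ∑ j, if ω (tj j) = aj j then b j else 0 := by
    intro ω
    rw [Finset.sum_comm]
    refine Finset.sum_congr rfl (fun j _ => ?_)
    rw [Finset.sum_eq_single (tj j)]
    · by_cases h : ω (tj j) = aj j
      · simp [h]
      · rw [if_neg h, if_neg]
        rintro ⟨_, h2⟩
        exact h h2.symm
    · intro t _ hne
      rw [if_neg]
      rintro ⟨h1, _⟩
      exact hne h1.symm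
    · intro h'; exact absurd (mem_univ _) h'
  simp only [dbl b, e2] at h
  exact h

end ThinP

open ThinP in
theorem thm_Thin (hBernL : St_BernL) : St_Thin := by
  intro T A J _ _ _ _ tj aj W gd Bg B Lam hinj hout hBg hB B0 L0 hBgA hBL hAL
  have hA0 : 0 < Fintype.card A := Fintype.card_pos
  have hA0' : (0 : ℝ) < Fintype.card A := by exact_mod_cast hA0
  have hN : 0 < Fintype.card (T → A) := Fintype.card_pos
  have hB0' : (0 : ℝ) < B := by exact_mod_cast B0
  have hB1' : (1 : ℝ) ≤ B := by exact_mod_cast B0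
  have hW0 : (0 : ℝ) < W.card := by
    have : (0 : ℝ) < 10 ^ 8 * B * Lam := by positivity
    linarith
  set w : ℝ := (W.card : ℝ) with hw
  set s : ℝ := (Fintype.card A : ℝ) with hs
  -- the outside part
  set bb : J → ℝ := fun j => ((W.filter (fun w => gd w j)).card : ℝ) with hbb
  have hbb0 : ∀ j, 0 ≤ bb j := fun j => Nat.cast_nonneg _
  have hbbB : ∀ j, bb j ≤ B := fun j => by
    simp only [hbb]; exact_mod_cast hB j
  have hsum : ∑ j, bb j ≤ w * Bg := by
    have e : ∑ j, bb j = ∑ w ∈ W, ((univ.filter (fun j => gd w j)).card : ℝ) := by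
      simp only [hbb, Finset.card_filter]
      push_cast
      rw [Finset.sum_comm]
    rw [e, hw, ← nsmul_eq_mul]
    refine Finset.sum_le_card_nsmul _ _ _ (fun v hv => ?_)
    exact_mod_cast hBg v hv
  have hBgA' : 2000 * (Bg : ℝ) ≤ s := by rw [hs]; exact_mod_cast hBgA
  have hsum2 : ∑ j, bb j ≤ w * s / 2000 := by
    refine hsum.trans ?_
    rw [mul_div_assoc]
    exact mul_le_mul_of_nonneg_left (by linarith) hW0.le
  have hQ := wbern hBernL tj aj hinj bb B (B * w / 2000) Lam hB0' L0
    (by nlinarith [mul_le_mul_of_nonneg_left hBL hB0'.le])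
    (by
      intro j
      rw [abs_of_nonneg (hbb0 j)]
      exact hbbB j)
    (by
      calc ∑ j, bb j ^ 2 ≤ ∑ j, (B : ℝ) * bb j := by
            refine Finset.sum_le_sum (fun j _ => ?_)
            rw [pow_two]
            exact mul_le_mul_of_nonneg_right (hbbB j) (hbb0 j)
        _ = (B : ℝ) * ∑ j, bb j := by rw [Finset.mul_sum]
        _ ≤ (B : ℝ) * (w * s / 2000) := mul_le_mul_of_nonneg_left hsum2 hB0'.le
        _ = B * w / 2000 * s := by ring)
  have hdev1 : 3 * Real.sqrt (B * w / 2000 * Lam) ≤ w / 10000 := by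
    have h1 : B * w / 2000 * Lam ≤ (w / 30000) ^ 2 := by
      nlinarith [mul_le_mul_of_nonneg_left hBL hW0.le]
    have h2 : Real.sqrt (B * w / 2000 * Lam) ≤ w / 30000 := by
      calc Real.sqrt (B * w / 2000 * Lam) ≤ Real.sqrt ((w / 30000) ^ 2) := Real.sqrt_le_sqrt h1
        _ = w / 30000 := Real.sqrt_sq (by positivity)
    linarith
  refine bound_mx (fun t => ∃ v ∈ W, tj v = t) _
    (fun ω' => (∑ j, bb j) / s + 3 * Real.sqrt (B * w / 2000 * Lam) ≤
      ∑ j, if ω' (tj j) = aj j then bb j else 0) (Real.exp (-Lam)) hQ ?_ (Real.exp_pos _).le hN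
  intro ω' hω'
  rw [not_le] at hω'
  -- the killed items
  set W' := W.filter (fun v => ∀ j, gd v j → ω' (tj j) ≠ aj j) with hW'
  have hkill : w ≤ (W'.card : ℝ) + ∑ j, if ω' (tj j) = aj j then bb j else 0 := by
    have e1 : W.card = W'.card + (W.filter (fun v => ¬ ∀ j, gd v j → ω' (tj j) ≠ aj j)).card := by
      rw [hW', Finset.card_filter_add_card_filter_not]
    have e2 : ((W.filter (fun v => ¬ ∀ j, gd v j → ω' (tj j) ≠ aj j)).card : ℝ) ≤
        ∑ j, if ω' (tj j) = aj j then bb j else 0 := by
      have e3 : W.filter (fun v => ¬ ∀ j, gd v j → ω' (tj j) ≠ aj j) ⊆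
          (univ.filter (fun j => ω' (tj j) = aj j)).biUnion (fun j => W.filter (fun v => gd v j)) := by
        intro v hv
        simp only [mem_filter, not_forall, not_not, mem_biUnion, mem_univ, true_and] at hv ⊢
        obtain ⟨h1, j, h2, h3⟩ := hv
        exact ⟨j, h3, h1, h2⟩
      have e4 := (Finset.card_le_card e3).trans Finset.card_biUnion_le
      rw [← Finset.sum_filter]
      simp only [hbb]
      exact_mod_cast e4
    have e1' : w = (W'.card : ℝ) +
        ((W.filter (fun v => ¬ ∀ j, gd v j → ω' (tj j) ≠ aj j)).card : ℝ) := by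
      rw [hw]; exact_mod_cast e1
    linarith
  have hW'big : 999 / 1000 * w ≤ (W'.card : ℝ) := by
    have h1 : (∑ j, bb j) / s ≤ w / 2000 := by
      rw [div_le_iff₀ hA0']
      linarith
    linarith
  have hW'w : (W'.card : ℝ) ≤ w := by
    rw [hw]; exact_mod_cast Finset.card_filter_le _ _
  -- the inside part
  have hI := wbern hBernL tj aj hinj (fun j => if j ∈ W' then (-1 : ℝ) else 0) 1 (w / s) Lam
    one_pos L0
    (by
      rw [one_pow, mul_one, le_div_iff₀ hA0']
      nlinarith [mul_pos hA0' L0])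
    (by
      intro j
      by_cases h : j ∈ W' <;> simp [h])
    (by
      have : ∑ j, (if j ∈ W' then (-1 : ℝ) else 0) ^ 2 = W'.card := by
        simp [ite_pow]
      rw [this, div_mul_cancel₀ _ hA0'.ne']
      exact hW'w)
  have hdev2 : 3 * Real.sqrt (w / s * Lam) ≤ w / s / 1000 := by
    have h1 : w / s * Lam ≤ (w / s / 10000) ^ 2 := by
      have h2 : Lam ≤ w / s / 10 ^ 8 := by
        rw [div_div, le_div_iff₀ (by positivity)]
        nlinarith
      have h3 : 0 < w / s := by positivity
      nlinarith [mul_le_mul_of_nonneg_left h2 h3.le]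
    have h2 : Real.sqrt (w / s * Lam) ≤ w / s / 10000 := by
      calc Real.sqrt (w / s * Lam) ≤ Real.sqrt ((w / s / 10000) ^ 2) := Real.sqrt_le_sqrt h1
        _ = w / s / 10000 := Real.sqrt_sq (by positivity)
    have h3 : 0 < w / s := by positivity
    linarith
  refine le_trans (Nat.cast_le.mpr (Finset.card_le_card (fun ω hω => ?_))) hI
  simp only [mem_filter, mem_univ, true_and] at hω ⊢
  -- the surviving items
  have e1 : W.filter (fun v => mx (fun t => ∃ v ∈ W, tj v = t) ω ω' (tj v) = aj v ∧
      ∀ j, gd v j → mx (fun t => ∃ v ∈ W, tj v = t) ω ω' (tj j) ≠ aj j) =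
      W'.filter (fun v => ω (tj v) = aj v) := by
    ext v
    simp only [hW', mem_filter]
    have a1 : v ∈ W → mx (fun t => ∃ v ∈ W, tj v = t) ω ω' (tj v) = ω (tj v) := by
      intro hv
      unfold mx
      exact if_pos ⟨v, hv, rfl⟩
    have a2 : v ∈ W → ∀ j, gd v j →
        mx (fun t => ∃ v ∈ W, tj v = t) ω ω' (tj j) = ω' (tj j) := by
      intro hv j hj
      unfold mx
      refine if_neg ?_
      rintro ⟨v', hv', h⟩
      exact hout v hv j hj v' hv' h
    constructor
    · rintro ⟨h1, h2, h3⟩
      refine ⟨⟨h1, fun j hj => ?_⟩, ?_⟩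
      · rw [← a2 h1 j hj]; exact h3 j hj
      · rw [← a1 h1]; exact h2
    · rintro ⟨⟨h1, h3⟩, h2⟩
      refine ⟨h1, ?_, fun j hj => ?_⟩
      · rw [a1 h1]; exact h2
      · rw [a2 h1 j hj]; exact h3 j hj
  rw [e1] at hω
  have e2 : (∑ j, if ω (tj j) = aj j then (if j ∈ W' then (-1 : ℝ) else 0) else 0) =
      -((W'.filter (fun v => ω (tj v) = aj v)).card : ℝ) := by
    rw [Finset.card_filter]
    push_cast
    rw [← Finset.sum_neg_distrib, ← Finset.sum_filter_add_sum_filter_not univ (fun j => j ∈ W')]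
    have a1 : (univ.filter (fun j => j ∈ W')) = W' := by ext j; simp
    rw [a1]
    have a2 : ∑ j ∈ univ.filter (fun j => ¬ j ∈ W'),
        (if ω (tj j) = aj j then (if j ∈ W' then (-1 : ℝ) else 0) else 0) = 0 := by
      refine Finset.sum_eq_zero (fun j hj => ?_)
      rw [mem_filter] at hj
      simp [hj.2]
    rw [a2, add_zero]
    refine Finset.sum_congr rfl (fun j hj => ?_)
    by_cases h : ω (tj j) = aj j <;> simp [h, hj]
  have e3 : (∑ j, if j ∈ W' then (-1 : ℝ) else 0) = -(W'.card : ℝ) := by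
    simp
  rw [e2, e3]
  have hpos : 0 < w / s := by positivity
  have h5 : ((W'.filter (fun v => ω (tj v) = aj v)).card : ℝ) < 99 / 100 * (w / s) := by
    rw [← mul_div_assoc, lt_div_iff₀ hA0']
    linarith
  have h6 : 999 / 1000 * (w / s) ≤ (W'.card : ℝ) / s := by
    rw [← mul_div_assoc]
    exact div_le_div_of_nonneg_right hW'big hA0'.le
  rw [neg_div]
  linarith

end Pool.TCT
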