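import Pool.Agent.Helper3.TCM.All
import Pool.Agent.Helper3.TCS.Nib
import Pool.Agent.Helper3.TCS.Reg
import Pool.Agent.Helper32.TN.Prs
import Pool.Agent.Helper32.TN.Pco
import Pool.Agent.Helper32.TN.Mch
import Pool.Agent.Helper3.TCT.Adapt
import Pool.Agent.Helper3.TCT.Main9
import Pool.Agent.Helper3.TCT.Lat
import Pool.Agent.Helper3.TCT.Dec
import Pool.Agent.Helper3.TCT.Fun
import Pool.Agent.Helper3.TCT.End9
import Pool.Agent.Helper3.TCT.S9
import Pool.Agent.Helper3.TCT.K9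
import Pool.Agent.Helper3.TCT.Num9
import Pool.Agent.Helper3.TCT.Greedy
import Pool.Agent.Helper3.TCT.Ext
import Pool.Agent.Helper3.TCT.BernL
import Pool.Agent.Helper3.TCT.Thin
import Pool.Agent.Helper3.TCT.Pai
import Pool.Agent.Helper3.TCT.Sub
import Pool.Agent.Helper3.TCT.Good
import Pool.Agent.Helper60.TCT.KSz
import Pool.Agent.Helper60.TCT.PbC
import Pool.Agent.Helper60.TCT.Crs
import Pool.Agent.Helper60.TCT.Dcx
import Pool.Agent.Helper60.TCT.LowP
import Pool.Agent.Helper60.TCT.Upp3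
import Pool.Agent.Helper60.TCT.Upp4
import Pool.Agent.Helper60.TCT.Upp5
import Pool.Agent.Helper60.TCT.Upp6
import Pool.Agent.Helper60.TCT.LLK
import Pool.Agent.Helper60.TCT.Lab
import Pool.Agent.Helper60.TCT.HallB
import Pool.Agent.Helper60.TCT.Dum
import Pool.Agent.Helper60.TCT.Loa
import Pool.Agent.Helper60.TCT.Frc
import Pool.Agent.Helper60.TCT.Prb
import Pool.Agent.Helper60.TCT.PaiF
import Pool.Agent.Helper60.TCT.OpF
import Pool.Agent.Helper60.TCT.CnF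
import Pool.Agent.Helper60.TCT.TrF
import Pool.Agent.Helper60.TCT.FPr
import Pool.Agent.Helper60.TCT.FLd
import Pool.Agent.Helper60.TCT.Fin9

/-!
The theorem: `Δ + 5` colours for all graphs of large maximum degree.
-/

set_option autoImplicit false

namespace Pool.TCT

open Pool.TC Pool.TCM Pool.TCS Finset
open scoped Classical

theorem thm_LabAll : St_Lab :=
  thm_Lab (thm_PbC thm_KSz) (thm_Dcx (thm_PbC thm_KSz)) (thm_LowP (thm_Thin thm_BernL))
    (thm_Upp3 thm_BernL thm_KSz) (thm_Upp4 thm_BernL) (thm_Upp5 thm_BernL thm_KSz thm_Crs)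
    (thm_Upp6 thm_BernL thm_KSz thm_Crs) (thm_LLK Pool.TCS.thm_LLL0 thm_KSz)

theorem thm_PrbAll : St_Prb :=
  thm_Prb (thm_Frc (thm_PbC thm_KSz) thm_HallB thm_Dum (thm_Loa (thm_PbC thm_KSz)))

theorem thm_Fin9All : St_Fin9 :=
  thm_Fin9 (thm_PaiF thm_Pai) (thm_TrF thm_OpF thm_CnF) thm_FPr thm_FLd

theorem thm_GoodAll : St_Good :=
  thm_Good (thm_Sub (thm_Thin thm_BernL) thm_BernL Pool.TCS.thm_LLL0) Pool.TCS.thm_IterAll thm_Greedy
    thm_Ext

theorem thm_K9All : St_K9 :=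
  thm_K9 (thm_Pair' (Pool.TN.thm_Prs Pool.TN.thm_Mch) Pool.TN.thm_Pco) thm_LabAll thm_PrbAll
    thm_GoodAll thm_Fin9All

/-- The main theorem. -/
theorem total_five :
    ∃ D0 : ℕ, ∀ D ≥ D0, ∀ {V : Type*} [Fintype V] (G : SimpleGraph V),
    (∀ u, (univ.filter (fun v => G.Adj u v)).card ≤ D) →
    ∃ (c : V → Fin (D + 5)) (e : Sym2 V → Fin (D + 5)), IsTotalColouring G c e :=
  main9 (thm_Main9 Pool.TCS.thm_Reg (thm_Lat Pool.TCM.thm_Viz) thm_Dec
    (thm_S9 (Pool.TCM.thm_Bip Pool.TCM.thm_LM) Pool.TCS.thm_StepAll Pool.TCS.thm_IterAll) thm_K9All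
    (thm_End9 thm_Fun) thm_Num9)

end Pool.TCT
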