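import Pool.Agent.Helper3.TCS.Stmts

/-!
# The total chromatic number is at most `Δ + 5` for large `Δ`

Definitions and statements of the parts of the proof (paper proof: `TC9_helper3.md`).
-/

set_option autoImplicit false

namespace Pool.TCT

open Pool.TC Pool.TCM Pool.TCS Finset
open scoped Classical

/-- A regular graph of degree `D` with a proper edge colouring with `D + 1` colours: `N a u` is the
neighbour of `u` along the edge of colour `a`, and `N a u = u` if there is no such edge. -/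
structure Lat {V κ : Type} [Fintype V] [Fintype κ] (G : SimpleGraph V) (D : ℕ) (N : κ → V → V) :
    Prop where
  deg : ∀ u, (nb G u).card = D
  card : Fintype.card κ = D + 1
  inv : ∀ a u, N a (N a u) = u
  inj : ∀ u a b, N a u = N b u → a = b
  sub : ∀ a u, N a u ≠ u → G.Adj u (N a u)

/-- the number of vertices of `U` whose edge with the colour of the vertex goes to `v` -/
noncomputable def load {V κ : Type} (N : κ → V → V) (U : Finset V) (c : V → κ) (v : V) : ℕ :=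
  (U.filter (fun u => N (c u) u = v)).card

/-- ordered pairs of distinct non-adjacent neighbours of `u` -/
noncomputable def np {V : Type} [Fintype V] (G : SimpleGraph V) (u : V) : ℕ :=
  ((nb G u ×ˢ nb G u).filter (fun p => p.1 ≠ p.2 ∧ ¬ G.Adj p.1 p.2)).card

/-- disjoint near-cliques -/
structure Dec {V ι : Type} [Fintype V] (G : SimpleGraph V) (B : ℕ) (K : ι → Finset V) : Prop where
  ne : ∀ i, (K i).Nonempty
  disj : ∀ i j, ∀ w, w ∈ K i → w ∈ K j → i = j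
  out : ∀ i, ∀ w ∈ K i, (nb G w \ K i).card ≤ B
  inn : ∀ i, ∀ w ∈ K i, (K i \ insert w (nb G w)).card ≤ B

/-- the union of the near-cliques -/
noncomputable def KU {V ι : Type} [Fintype V] (K : ι → Finset V) : Finset V :=
  univ.filter (fun v => ∃ i, v ∈ K i)

/-! ### Tools -/

/-- FUN. Colouring the arcs of a functional graph with in-degree at most `r`. -/
def St_Fun : Prop := ∀ (V : Type) [Fintype V] (p : V → V) (r : ℕ), 2 ≤ r →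
  (∀ v, (univ.filter (fun u => p u = v)).card ≤ r) →
  ∃ g : V → Fin (r + 1), (∀ u u', u ≠ u' → p u = p u' → g u ≠ g u') ∧
    (∀ u, p u ≠ u → g u ≠ g (p u))

/-- END9. The total colouring from a vertex colouring with loads at most `3`. -/
def St_End9 : Prop := ∀ (V κ : Type) [Fintype V] [Fintype κ] (G : SimpleGraph V) (D : ℕ)
  (N : κ → V → V) (c : V → κ), Lat G D N → (∀ u v, G.Adj u v → c u ≠ c v) →
  (∀ v, load N univ c v ≤ 3) →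
  ∃ e : Sym2 V → κ ⊕ Fin 4,
    (∀ u v w, G.Adj u v → G.Adj u w → v ≠ w → e s(u, v) ≠ e s(u, w)) ∧
    (∀ u v, G.Adj u v → e s(u, v) ≠ Sum.inl (c u))

/-- LAT. A regular graph has such an edge colouring (Vizing). -/
def St_Lat : Prop := ∀ (V : Type) [Fintype V] (G : SimpleGraph V) (D : ℕ),
  (∀ u, (nb G u).card = D) → ∃ N : Fin (D + 1) → V → V, Lat G D N

/-- BERNL. Bernstein inequality for sums of independent variables. -/
def St_BernL : Prop := ∀ (T A : Type) [Fintype T] [Fintype A] [Nonempty A] (f : T → A → ℝ)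
  (c W Lam : ℝ), 0 < c → 0 < Lam → Lam * c ^ 2 ≤ W → (∀ t a, |f t a| ≤ c) →
  (∑ t, ∑ a, f t a ^ 2) ≤ W * Fintype.card A →
  ((univ.filter (fun ω : T → A => (∑ t, ∑ a, f t a) / Fintype.card A +
    3 * Real.sqrt (W * Lam) ≤ ∑ t, f t (ω t))).card : ℝ) ≤
      Real.exp (-Lam) * Fintype.card (T → A)

/-- THIN. Items `w` in `W` are switched on at random (`ω (tj w) = aj w`); those with a switched on
guard are removed. -/
def St_Thin : Prop := ∀ (T A J : Type) [Fintype T] [Fintype A] [Nonempty A] [Fintype J]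
  (tj : J → T) (aj : J → A) (W : Finset J) (gd : J → J → Prop) (Bg B : ℕ) (Lam : ℝ),
  (∀ j j', tj j = tj j' → aj j = aj j' → j = j') →
  (∀ w ∈ W, ∀ j, gd w j → ∀ w' ∈ W, tj w' ≠ tj j) →
  (∀ w ∈ W, (univ.filter (fun j => gd w j)).card ≤ Bg) →
  (∀ j, (W.filter (fun w => gd w j)).card ≤ B) →
  0 < B → 0 < Lam → 2000 * Bg ≤ Fintype.card A → 10 ^ 8 * B * Lam ≤ W.card →
  10 ^ 8 * (Fintype.card A : ℝ) * Lam ≤ W.card →
  ((univ.filter (fun ω : T → A => (Fintype.card A : ℝ) *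
    (W.filter (fun w => ω (tj w) = aj w ∧ ∀ j, gd w j → ω (tj j) ≠ aj j)).card <
      99 / 100 * W.card)).card : ℝ) ≤ 2 * Real.exp (-Lam) * Fintype.card (T → A)

/-- HALLW. Hall's theorem from a fractional matching. -/
def St_HallW : Prop := ∀ (L R : Type) [Fintype L] [Fintype R] [Nonempty R] (A : Finset L)
  (y : L → R → ℝ), (∀ l r, 0 ≤ y l r) → (∀ l ∈ A, ∑ r, y l r = 1) →
  (∀ r, ∑ l ∈ A, y l r ≤ 1) →
  ∃ f : L → R, (∀ l ∈ A, 0 < y l (f l)) ∧ (∀ l ∈ A, ∀ l' ∈ A, f l = f l' → l = l')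

/-- GREEDY. Greedy colouring. -/
def St_Greedy : Prop := ∀ (V : Type) [Fintype V] (r : V → V → Prop) (d : ℕ),
  (∀ u v, r u v → r v u) → (∀ u, (univ.filter (fun v => v ≠ u ∧ r u v)).card ≤ d) →
  ∃ f : V → Fin (d + 1), ∀ u v, u ≠ v → r u v → f u ≠ f v

/-- EXT. An injective map on a part of a finite set extends to an injective map. -/
def St_Ext : Prop := ∀ (X : Type) [Fintype X] (Y : Finset X) (f : X → X),
  (∀ u ∈ Y, ∀ v ∈ Y, f u = f v → u = v) →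
  ∃ g : X → X, (∀ u ∈ Y, g u = f u) ∧ Function.Injective g

/-- PAI. A pairing which avoids a sparse set of bad pairs. -/
def St_Pai : Prop := ∀ (V κ : Type) [Nonempty κ] (R : Finset V) (Q : Finset κ)
  (bad : V → κ → Prop) (k : ℕ), (∀ u ∈ R, (Q.filter (fun a => bad u a)).card ≤ k) →
  (∀ a ∈ Q, (R.filter (fun u => bad u a)).card ≤ k) → R.card ≤ Q.card → 2 * k < Q.card →
  ∃ f : V → κ, (∀ u ∈ R, f u ∈ Q ∧ ¬ bad u (f u)) ∧ (∀ u ∈ R, ∀ v ∈ R, f u = f v → u = v)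

/-- MTCH. Disjoint non-adjacent pairs in a set. `A` is the number of ordered non-adjacent pairs. -/
def St_Mtch : Prop := ∀ (V : Type) [Fintype V] (K : Finset V) (r : V → V → Prop) (B μ : ℕ),
  (∀ u v, r u v → r v u) → (∀ u, ¬ r u u) → (∀ u ∈ K, (K.filter (fun v => r u v)).card ≤ B) →
  4 * B * μ < (∑ u ∈ K, (K.filter (fun v => r u v)).card) + 4 * B → 0 < B →
  ∃ M : Finset (V × V), M.card = μ ∧ (∀ p ∈ M, p.1 ∈ K ∧ p.2 ∈ K ∧ r p.1 p.2) ∧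
    (∀ p ∈ M, ∀ q ∈ M, p ≠ q → p.1 ≠ q.1 ∧ p.1 ≠ q.2 ∧ p.2 ≠ q.1 ∧ p.2 ≠ q.2)

/-- DEC. The decomposition into near-cliques and vertices with sparse neighbourhoods. -/
def St_Dec : Prop := ∀ (V : Type) [Fintype V] (G : SimpleGraph V) (D h : ℕ),
  (∀ u, (nb G u).card = D) → 0 < h → 36 * h ≤ D →
  ∃ (ι : Type) (_ : Fintype ι) (K : ι → Finset V), Dec G (14 * h) K ∧
    ∀ u, (∀ i, u ∉ K i) → h ^ 2 ≤ np G u

/-! ### The sparse vertices -/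

/-- the numerical conditions for the sparse vertices -/
structure N6 (D h K m0 m2 n L0 : ℕ) (g Lam x q l1 : ℝ) : Prop where
  D0 : 0 < D
  expH : 4 * Real.exp (-Lam) * ((3 * ((2 * D + 2 : ℕ) : ℝ) + 2) ^ 12 + 1) ≤ 1
  xdef : (D : ℝ) / 2 + 2 * Real.sqrt (D * Lam) + 1 ≤ x
  x1 : x ≤ (D : ℝ) + 1
  qdef : bet m0 K * D / ((D : ℝ) + 1) - bet m0 K ^ 2 * (h : ℝ) ^ 2 / (2 * ((D : ℝ) + 1) ^ 2) ≤ q
  q0 : 0 ≤ q
  q1 : q ≤ 1 / 2
  mK0 : 8 * K ≤ m0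
  mK2 : 8 * K ≤ m2
  K24 : 24 ≤ K
  La : 0 < Lam
  LK : Lam ≤ K
  Ll : Lam ≤ (D : ℝ) + 1
  l1def : l1 = ((D : ℝ) + 1) * ((1 - q) * (1 - bet m0 K * x / ((D : ℝ) + 1)) -
    Err m0 K Lam ((D : ℝ) + 1))
  l1pos : 0 < l1
  xg : x * (1 - bet m0 K) * (1 - q) + Err m0 K Lam ((D : ℝ) + 1) * ((D : ℝ) + 1) ≤ (1 - g) * l1
  yg : (D : ℝ) * (1 - bet m0 K) * (1 - bet m0 K * x / ((D : ℝ) + 1)) +
    Err m0 K Lam ((D : ℝ) + 1) * ((D : ℝ) + 1) ≤ (1 - g) * l1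
  g0 : 0 < g
  g1 : g ≤ 7 / 8
  L00 : 0 < L0
  LL0 : Lam ≤ L0
  err2 : 8 * Err m2 K Lam L0 ≤ g * bet m2 K / 16
  gn : 7 / 8 ≤ g * (1 + bet m2 K / 16) ^ n
  L0n : (L0 : ℝ) ≤ l1 * (1 - 3 * bet m2 K) ^ n

/-- S9. The colouring of the vertices with sparse neighbourhoods. -/
def St_S9 : Prop := ∀ (V κ : Type) [Fintype V] [Fintype κ] (G : SimpleGraph V)
  (D h K m0 m2 n L0 : ℕ) (g Lam x q l1 : ℝ) (N : κ → V → V) (S : Finset V),
  Lat G D N → N6 D h K m0 m2 n L0 g Lam x q l1 → (∀ u ∈ S, h ^ 2 ≤ np G u) →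
  ∃ c : V → κ, (∀ u ∈ S, ∀ w ∈ S, G.Adj u w → c u ≠ c w) ∧ (∀ v, load N S c v ≤ 2) ∧
    (∀ v, 2 * (nb G v ∩ S).card ≤ D → load N S c v ≤ 1)

/-! ### The near-cliques -/

section defs

variable {V κ ι : Type} [Fintype V] [Fintype κ]

/-- the vertices which are coloured before the problem colours: outside of the near-cliques, or in
a pair -/
def Cs (K : ι → Finset V) (Pv : Finset V) (u : V) : Prop := (∀ i, u ∉ K i) ∨ u ∈ Pv

/-- the colours not used by the pairs of `K i` -/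
noncomputable def av (K : ι → Finset V) (Pv : Finset V) (c : V → κ) (i : ι) : Finset κ :=
  univ.filter (fun a => ∀ w ∈ K i, w ∈ Pv → c w ≠ a)

/-- the colour `a` is blocked at `w` -/
def blk (G : SimpleGraph V) (K : ι → Finset V) (Pv : Finset V) (c : V → κ) (a : κ) (w : V) :
    Prop := ∃ x, G.Adj w x ∧ Cs K Pv x ∧ c x = a

/-- the problem colours of `K i` -/
noncomputable def Pb (G : SimpleGraph V) (D : ℕ) (N : κ → V → V) (K : ι → Finset V)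
    (Pv : Finset V) (c : V → κ) (i : ι) : Finset κ :=
  (av K Pv c i).filter (fun a =>
    D < 2000 * ((K i \ Pv).filter (fun w => blk G K Pv c a w ∨ N a w ∉ K i)).card)

/-- the rows where `a` is not blocked -/
noncomputable def Wa (G : SimpleGraph V) (K : ι → Finset V) (Pv : Finset V) (c : V → κ) (i : ι)
    (a : κ) : Finset V := (K i \ Pv).filter (fun w => ¬ blk G K Pv c a w)

/-- The state after the colouring of the pairs. -/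
structure Sta (G : SimpleGraph V) (D B : ℕ) (N : κ → V → V) (K : ι → Finset V) (Q : Finset κ)
    (c : V → κ) (Pv : Finset V) (lam : ι → ℕ) : Prop where
  sub : ∀ w ∈ Pv, ∃ i, w ∈ K i
  proper : ∀ u v, Cs K Pv u → Cs K Pv v → G.Adj u v → c u ≠ c v
  inK : ∀ i, ∀ w ∈ K i, w ∈ Pv → N (c w) w ∈ K i
  ld : ∀ v, load N Pv c v ≤ 1
  notQ : ∀ w ∈ Pv, c w ∉ Q
  cnt : ∀ i, (av K Pv c i).card = (K i \ Pv).card + lam i
  spare : ∀ i, ∑ w ∈ K i \ Pv, (nb G w \ K i).card ≤ (K i \ Pv).card * lam i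
  few : ∀ i, (K i ∩ Pv).card ≤ 8 * B

/-- the numerical conditions for the near-cliques -/
structure NK (D B K m n L0 : ℕ) (Lam : ℝ) : Prop where
  B0 : 0 < B
  BD : 10 ^ 16 * (B : ℝ) * Lam ≤ D
  La : 1 ≤ Lam
  expL : 8 * Real.exp (-Lam) * (((D : ℝ) + 2) ^ 20 + 1) ≤ 1
  expI : 4 * Real.exp (-Lam) * ((3 * ((D ^ 3 : ℕ) : ℝ) + 2) ^ 12 + 1) ≤ 1
  K24 : 24 ≤ K
  LK : Lam ≤ K
  mK : 8 * K ≤ m
  L00 : 0 < L0
  LL0 : Lam ≤ L0
  err : 8 * Err m K Lam L0 ≤ 1 / 100 * bet m K / 16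
  gn : 7 / 8 ≤ 1 / 100 * (1 + bet m K / 16) ^ n
  L0n : (L0 : ℝ) ≤ 98 / 100 * D / (10000 * B) * (1 - 3 * bet m K) ^ n

/-- The labels: `w ∈ On` has the label `lb w`. -/
structure Labl (G : SimpleGraph V) (D B : ℕ) (N : κ → V → V) (K : ι → Finset V) (c : V → κ)
    (Pv : Finset V) (On : Finset V) (lb : V → κ) : Prop where
  row : ∀ w ∈ On, w ∉ Pv ∧ ∃ i, w ∈ K i
  lab : ∀ w ∈ On, ∀ i, w ∈ K i → lb w ∈ Pb G D N K Pv c i
  unb : ∀ w ∈ On, ¬ blk G K Pv c (lb w) w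
  cross : ∀ w ∈ On, ∀ x ∈ On, ∀ i, w ∈ K i → x ∉ K i → G.Adj w x → lb w ≠ lb x
  t1 : ∀ i, ∀ a ∈ Pb G D N K Pv c i, (K i \ Pv).card ≤ 4 * (Wa G K Pv c i a).card →
    99 / 100 * ((Wa G K Pv c i a).card : ℝ) ≤
      10000 * B * (On.filter (fun w => w ∈ K i ∧ lb w = a)).card
  t2 : ∀ i, (K i \ Pv).card ≤ 50 * ∑ a ∈ (Pb G D N K Pv c i).filter (fun a =>
      4 * (Wa G K Pv c i a).card < (K i \ Pv).card), (Wa G K Pv c i a).card →
    99 / 100 * (∑ a ∈ (Pb G D N K Pv c i).filter (fun a =>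
      4 * (Wa G K Pv c i a).card < (K i \ Pv).card), ((Wa G K Pv c i a).card : ℝ)) ≤
      10000 * B * ∑ a ∈ (Pb G D N K Pv c i).filter (fun a =>
        4 * (Wa G K Pv c i a).card < (K i \ Pv).card),
          ((On.filter (fun w => w ∈ K i ∧ lb w = a)).card : ℝ)
  t3 : ∀ i, ∀ a ∈ Pb G D N K Pv c i, 10000 * B *
    ((On.filter (fun w => w ∈ K i ∧ lb w = a)).card : ℝ) ≤ (Wa G K Pv c i a).card + D / 10
  t4 : ∀ v, 10000 * B * ((On.filter (fun w => N (lb w) w = v)).card : ℝ) ≤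
    (univ.filter (fun w => ∃ i, w ∈ K i ∧ w ∉ Pv ∧ ∃ a ∈ Pb G D N K Pv c i, N a w = v)).card +
      D / 10
  t5 : ∀ i a, 2000 * ((K i).filter (fun w => ∃ x ∈ On, x ∉ K i ∧ G.Adj w x ∧ lb x = a)).card ≤ D
  t6 : ∀ i, 2000 * ((K i).filter (fun v => ∃ x ∈ On, x ∉ K i ∧ N (lb x) x = v)).card ≤ D

/-- The rows `X` with problem colours. -/
structure Prb (G : SimpleGraph V) (D : ℕ) (N : κ → V → V) (K : ι → Finset V) (c : V → κ)
    (Pv : Finset V) (lam : ι → ℕ) (X : Finset V) (c' : V → κ) : Prop where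
  eq : ∀ v, v ∉ X → c' v = c v
  row : ∀ w ∈ X, w ∉ Pv ∧ ∃ i, w ∈ K i
  proper : ∀ u v, (Cs K Pv u ∨ u ∈ X) → (Cs K Pv v ∨ v ∈ X) → G.Adj u v → c' u ≠ c' v
  prb : ∀ w ∈ X, ∀ i, w ∈ K i → c' w ∈ Pb G D N K Pv c i
  inj : ∀ i, ∀ w ∈ X, ∀ x ∈ X, w ∈ K i → x ∈ K i → c' w = c' x → w = x
  cnt : ∀ i, (Pb G D N K Pv c i).card ≤ (K i ∩ X).card + lam i
  ld2 : ∀ v, load N X c' v ≤ 2
  ldK : ∀ i, ∀ v ∈ K i, load N X c' v ≤ 1
  ldS : ∀ v, (∀ i, v ∉ K i) → D < 2 * ((nb G v).filter (fun u => ∀ i, u ∉ K i)).card →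
    load N X c' v ≤ 1
  x6 : ∀ i a, 2000 * ((K i).filter (fun w => ∃ x ∈ X, x ∉ K i ∧ G.Adj w x ∧ c' x = a)).card ≤ D
  x7 : ∀ i, 2000 * ((K i).filter (fun v => ∃ x ∈ X, x ∉ K i ∧ N (c' x) x = v)).card ≤ D

end defs

/-- PAIR. -/
def St_Pair : Prop := ∀ (V κ ι : Type) [Fintype V] [Fintype κ] [Fintype ι] (G : SimpleGraph V)
  (D B : ℕ) (N : κ → V → V) (K : ι → Finset V) (Q : Finset κ) (c0 : V → κ),
  Lat G D N → Dec G B K → (∀ u v, (∀ i, u ∉ K i) → (∀ i, v ∉ K i) → G.Adj u v → c0 u ≠ c0 v) →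
  25 * Q.card ≤ D → 0 < B → 10000 * B ≤ D →
  ∃ (c : V → κ) (Pv : Finset V) (lam : ι → ℕ), (∀ v, (∀ i, v ∉ K i) → c v = c0 v) ∧
    Sta G D B N K Q c Pv lam

/-- LAB. The random labels. -/
def St_Lab : Prop := ∀ (V κ ι : Type) [Fintype V] [Fintype κ] [Fintype ι] (G : SimpleGraph V)
  (D B : ℕ) (N : κ → V → V) (K : ι → Finset V) (Q : Finset κ) (c : V → κ) (Pv : Finset V)
  (lam : ι → ℕ) (Lam : ℝ), Lat G D N → Dec G B K → Sta G D B N K Q c Pv lam → 0 < B →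
  1 ≤ Lam → 10 ^ 16 * (B : ℝ) * Lam ≤ D → 8 * Real.exp (-Lam) * (((D : ℝ) + 2) ^ 20 + 1) ≤ 1 →
  ∃ (On : Finset V) (lb : V → κ), Labl G D B N K c Pv On lb

/-- PRB. The problem colours. -/
def St_Prb : Prop := ∀ (V κ ι : Type) [Fintype V] [Fintype κ] [Fintype ι] (G : SimpleGraph V)
  (D B : ℕ) (N : κ → V → V) (K : ι → Finset V) (Q : Finset κ) (c : V → κ) (Pv : Finset V)
  (lam : ι → ℕ) (On : Finset V) (lb : V → κ), Lat G D N → Dec G B K →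
  Sta G D B N K Q c Pv lam → 0 < B → 10 ^ 6 * B ≤ D → Labl G D B N K c Pv On lb →
  ∃ (X : Finset V) (c' : V → κ), Prb G D N K c Pv lam X c'

/-- SUB. Random sublists. -/
def St_Sub : Prop := ∀ (V κ ι : Type) [Fintype V] [Fintype κ] [Fintype ι] (G : SimpleGraph V)
  (D B : ℕ) (N : κ → V → V) (K : ι → Finset V) (Q : Finset κ) (Rw : ι → Finset V)
  (Gd : ι → Finset κ) (al : V → κ → Prop) (Lam : ℝ), Lat G D N → Dec G B K →
  (∀ i, Rw i ⊆ K i) → (∀ i, ∀ a ∈ Gd i, a ∉ Q) → D < 25 * (Q.card + 1) →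
  (∀ i, ∀ a ∈ Gd i, 99 * D ≤ 100 * ((Rw i).filter (fun w => al w a)).card) → 0 < B → 1 ≤ Lam →
  10 ^ 16 * (B : ℝ) * Lam ≤ D → 8 * Real.exp (-Lam) * (((D : ℝ) + 2) ^ 20 + 1) ≤ 1 →
  ∃ A : V → κ → Prop, (∀ w a, A w a → ∃ i, w ∈ Rw i ∧ a ∈ Gd i ∧ al w a) ∧
    (∀ w x a i, A w a → A x a → G.Adj w x → w ∈ K i → x ∈ K i) ∧
    (∀ i, ∀ a ∈ Gd i, 98 * D ≤ 100 * (10000 * B) * ((Rw i).filter (fun w => A w a)).card) ∧
    (∀ w, 1000 * (10000 * B) * (univ.filter (fun a => A w a)).card ≤ 961 * D) ∧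
    (∀ v, 1000 * (10000 * B) * (univ.filter (fun a => A (N a v) a)).card ≤ 961 * D)

/-- GOOD. The rows of the good colours. -/
def St_Good : Prop := ∀ (V κ ι : Type) [Fintype V] [Fintype κ] [Fintype ι] (G : SimpleGraph V)
  (D B Kn m n L0 : ℕ) (N : κ → V → V) (K : ι → Finset V) (Q : Finset κ) (Rw : ι → Finset V)
  (Gd : ι → Finset κ) (al : V → κ → Prop) (Lam : ℝ), Lat G D N → Dec G B K →
  NK D B Kn m n L0 Lam → (∀ i, Rw i ⊆ K i) → (∀ i, ∀ a ∈ Gd i, a ∉ Q) → D < 25 * (Q.card + 1) →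
  (∀ i, ∀ a ∈ Gd i, 99 * D ≤ 100 * ((Rw i).filter (fun w => al w a)).card) →
  ∃ ro : ι → κ → V, (∀ i, ∀ a ∈ Gd i, ro i a ∈ Rw i ∧ al (ro i a) a) ∧
    (∀ i, ∀ a ∈ Gd i, ∀ b ∈ Gd i, ro i a = ro i b → a = b) ∧
    (∀ i j, ∀ a ∈ Gd i, ∀ b ∈ Gd j, N a (ro i a) = N b (ro j b) → i = j ∧ a = b) ∧
    (∀ i j, ∀ a ∈ Gd i, a ∈ Gd j → G.Adj (ro i a) (ro j a) → i = j)

/-- FIN9. The remaining rows. -/
def St_Fin9 : Prop := ∀ (V κ ι : Type) [Fintype V] [Fintype κ] [Fintype ι] (G : SimpleGraph V)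
  (D B : ℕ) (N : κ → V → V) (K : ι → Finset V) (Q : Finset κ) (C Y Ld : Finset V)
  (Qa : ι → Finset κ) (c : V → κ), Lat G D N → Dec G B K → 0 < B → 10 ^ 6 * B ≤ D →
  (∀ u, u ∉ C → ∃ i, u ∈ K i) → (∀ u ∈ C, ∀ v ∈ C, G.Adj u v → c u ≠ c v) →
  (∀ w ∈ Y, w ∈ C ∧ c w ∉ Q ∧ ∃ i, w ∈ K i) →
  (∀ i, ∀ w ∈ Y, w ∈ K i → ∀ x ∈ K i, x ∈ C → x ≠ w → c x ≠ c w) →
  (∀ i, ∀ a ∈ Qa i, a ∈ Q ∧ ∀ x ∈ K i, x ∈ C → c x ≠ a) →
  (∀ i, (K i \ C).card ≤ (Qa i).card ∧ 1000 ≤ (Qa i).card ∧ 25 * (Qa i).card ≤ D) →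
  (∀ i, ∀ a ∈ Qa i, 500 * ((K i).filter (fun w => (∃ x ∈ C, G.Adj w x ∧ x ∉ K i ∧ c x = a) ∨
    N a w ∉ K i)).card ≤ D) →
  (∀ i, 500 * (K i ∩ Ld).card ≤ D) → (∀ i, 95 * D ≤ 100 * (K i ∩ Y).card) →
  ∃ c' : V → κ, (∀ v, (∀ i, v ∉ K i) → c' v = c v) ∧ (∀ u v, G.Adj u v → c' u ≠ c' v) ∧
    (∀ v, load N (KU K) c' v ≤ load N (KU K ∩ C) c v + 1) ∧
    (∀ v, (v ∉ KU K ∨ v ∈ Ld) → load N (KU K) c' v ≤ load N (KU K ∩ C) c v)

/-- K9. The colouring of the near-cliques. -/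
def St_K9 : Prop := ∀ (V κ ι : Type) [Fintype V] [Fintype κ] [Fintype ι] (G : SimpleGraph V)
  (D B Kn m n L0 : ℕ) (N : κ → V → V) (K : ι → Finset V) (c0 : V → κ) (Lam : ℝ),
  Lat G D N → Dec G B K → NK D B Kn m n L0 Lam →
  (∀ u v, (∀ i, u ∉ K i) → (∀ i, v ∉ K i) → G.Adj u v → c0 u ≠ c0 v) →
  ∃ c : V → κ, (∀ v, (∀ i, v ∉ K i) → c v = c0 v) ∧ (∀ u v, G.Adj u v → c u ≠ c v) ∧
    (∀ v, load N (KU K) c v ≤ 2) ∧
    (∀ v, (∀ i, v ∉ K i) → D < 2 * ((nb G v).filter (fun u => ∀ i, u ∉ K i)).card →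
      load N (KU K) c v ≤ 1)

/-- NUM9. The parameters. -/
def St_Num9 : Prop := ∃ D0 : ℕ, ∀ D ≥ D0, ∃ (h K m0 m2 n L0 Kn m n' L0' : ℕ)
  (g Lam x q l1 Lam' : ℝ), 0 < h ∧ 36 * h ≤ D ∧ N6 D h K m0 m2 n L0 g Lam x q l1 ∧
    NK D (14 * h) Kn m n' L0' Lam'

/-- MAIN9. -/
def St_Main9 : Prop := ∃ D0 : ℕ, ∀ D ≥ D0, ∀ (V : Type) [Fintype V] (G : SimpleGraph V),
  (∀ u, (nb G u).card ≤ D) →
  ∃ (c : V → Fin (D + 5)) (e : Sym2 V → Fin (D + 5)), IsTotalColouring G c e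

end Pool.TCT
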