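import Pool.Agent.Helper3.TCT.Defs

/-!
# Hall's theorem from a fractional matching
-/

set_option autoImplicit false

namespace Pool.TCT

open Pool.TC Pool.TCM Pool.TCS Finset
open scoped Classical

theorem thm_HallW : St_HallW := by
  intro L R _ _ _ A y hy h1 h2
  have key : ∀ S : Finset A, S.card ≤ (S.biUnion (fun l : A =>
      (univ.filter (fun r : R => 0 < y l.1 r)))).card := by
    intro S
    set O := S.biUnion (fun l : A => (univ.filter (fun r : R => 0 < y l.1 r))) with hO
    have e1 : (S.card : ℝ) = ∑ l ∈ S, ∑ r, y l.1 r := by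
      rw [Finset.sum_congr rfl (fun l _ => h1 l.1 l.2)]
      simp
    have e2 : ∀ l ∈ S, ∑ r, y l.1 r = ∑ r ∈ O, y l.1 r := by
      intro l hl
      symm
      apply Finset.sum_subset (Finset.subset_univ _)
      intro r _ hr
      by_contra hne
      apply hr
      rw [hO, Finset.mem_biUnion]
      exact ⟨l, hl, by simp only [Finset.mem_filter, Finset.mem_univ, true_and]
                       exact lt_of_le_of_ne (hy l.1 r) (Ne.symm hne)⟩
    have e3 : (S.card : ℝ) = ∑ r ∈ O, ∑ l ∈ S, y l.1 r := by
      rw [e1, Finset.sum_congr rfl e2, Finset.sum_comm]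
    have e4 : ∀ r ∈ O, ∑ l ∈ S, y l.1 r ≤ 1 := by
      intro r _
      refine le_trans ?_ (h2 r)
      rw [← Finset.sum_coe_sort A (fun l => y l r)]
      exact Finset.sum_le_sum_of_subset_of_nonneg (Finset.subset_univ _)
        (fun l _ _ => hy l.1 r)
    have e5 : (S.card : ℝ) ≤ O.card := by
      rw [e3]
      calc ∑ r ∈ O, ∑ l ∈ S, y l.1 r ≤ ∑ _r ∈ O, (1 : ℝ) := Finset.sum_le_sum e4
        _ = O.card := by simp
    exact_mod_cast e5
  obtain ⟨g, hg, hg2⟩ := (Finset.all_card_le_biUnion_card_iff_exists_injective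
    (fun l : A => (univ.filter (fun r : R => 0 < y l.1 r)))).1 key
  refine ⟨fun l => if h : l ∈ A then g ⟨l, h⟩ else Classical.arbitrary R, ?_, ?_⟩
  · intro l hl
    have := hg2 ⟨l, hl⟩
    simp only [Finset.mem_filter, Finset.mem_univ, true_and] at this
    simp only [hl, dif_pos]
    exact this
  · intro l hl l' hl' h
    simp only [hl, hl', dif_pos] at h
    exact congrArg Subtype.val (hg h)

end Pool.TCT
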