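import Pool.Agent.Helper3.TCT.Defs

/-!
# K9: the colouring of the near-cliques (assembly)
-/

set_option autoImplicit false

namespace Pool.TCT

open Pool.TC Pool.TCM Pool.TCS Finset
open scoped Classical

section K9lem

variable {V κ ι : Type} [Fintype V] [Fintype κ] {G : SimpleGraph V} {D B : ℕ}
  {N : κ → V → V} {K : ι → Finset V}

theorem K9_mem_nb {u v : V} : v ∈ nb G u ↔ G.Adj u v := by simp [nb]

theorem K9_Kle (hL : Lat G D N) (hD : Dec G B K) (i : ι) : (K i).card ≤ D + 1 + B := by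
  obtain ⟨w, hw⟩ := hD.ne i
  have h1 : K i ⊆ insert w (nb G w) ∪ (K i \ insert w (nb G w)) := by
    intro x hx
    rw [mem_union, mem_sdiff]
    by_cases h : x ∈ insert w (nb G w)
    · exact Or.inl h
    · exact Or.inr ⟨hx, h⟩
  have h2 := card_le_card h1
  have h3 := card_union_le (insert w (nb G w)) (K i \ insert w (nb G w))
  have h4 := card_insert_le w (nb G w)
  have h5 := hD.inn i w hw
  have h6 := hL.deg w
  omega

theorem K9_Kge (hL : Lat G D N) (hD : Dec G B K) (i : ι) : D + 1 ≤ (K i).card + B := by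
  obtain ⟨w, hw⟩ := hD.ne i
  have h1 : insert w (nb G w) ⊆ K i ∪ (nb G w \ K i) := by
    intro x hx
    rw [mem_union, mem_sdiff]
    by_cases h : x ∈ K i
    · exact Or.inl h
    · rcases mem_insert.1 hx with h' | h'
      · exact absurd (h' ▸ hw) h
      · exact Or.inr ⟨h', h⟩
  have h2 := card_le_card h1
  have h3 := card_union_le (K i) (nb G w \ K i)
  have h4 : (insert w (nb G w)).card = D + 1 := by
    rw [card_insert_of_notMem, hL.deg w]
    rw [K9_mem_nb]
    exact G.irrefl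
  have h5 := hD.out i w hw
  omega

/-- the bad colours of one row -/
theorem K9_row (hL : Lat G D N) (hD : Dec G B K) {c : V → κ} {Pv : Finset V} (i : ι)
    (P : Finset κ) (hP : P ⊆ av K Pv c i) {w : V} (hw : w ∈ K i) :
    (P.filter (fun a => blk G K Pv c a w ∨ N a w ∉ K i)).card ≤ 2 * B := by
  have h1 : P.filter (fun a => blk G K Pv c a w ∨ N a w ∉ K i) ⊆
      (nb G w \ K i).image c ∪ P.filter (fun a => N a w ∉ K i) := by
    intro a ha
    rw [mem_filter] at ha
    rw [mem_union]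
    rcases ha.2 with ⟨x, hx1, hx2, hx3⟩ | h
    · left
      rw [mem_image]
      refine ⟨x, ?_, hx3⟩
      rw [mem_sdiff, K9_mem_nb]
      refine ⟨hx1, fun hxK => ?_⟩
      rcases hx2 with h2 | h2
      · exact h2 i hxK
      · have h3 := hP ha.1
        unfold av at h3
        rw [mem_filter] at h3
        exact h3.2 x hxK h2 hx3
    · right
      rw [mem_filter]
      exact ⟨ha.1, h⟩
  have h2 : (P.filter (fun a => N a w ∉ K i)).card ≤ (nb G w \ K i).card := by
    refine card_le_card_of_injOn (fun a => N a w) ?_ ?_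
    · intro a ha
      have ha' := (mem_filter.1 (mem_coe.1 ha)).2
      show N a w ∈ ((nb G w \ K i : Finset V) : Set V)
      rw [mem_coe, mem_sdiff, K9_mem_nb]
      refine ⟨hL.sub a w ?_, ha'⟩
      intro h
      rw [h] at ha'
      exact ha' hw
    · intro a _ b _ hab
      exact hL.inj w a b hab
  have h3 := card_le_card h1
  have h4 := card_union_le ((nb G w \ K i).image c) (P.filter (fun a => N a w ∉ K i))
  have h5 : ((nb G w \ K i).image c).card ≤ (nb G w \ K i).card := card_image_le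
  have h6 := hD.out i w hw
  omega

/-- number of problem colours -/
theorem K9_Pb (hL : Lat G D N) (hD : Dec G B K) {c : V → κ} {Pv : Finset V} (hB : 0 < B)
    (hBD : 10000 * B ≤ D) (i : ι) : (Pb G D N K Pv c i).card ≤ 4400 * B := by
  have hsub : Pb G D N K Pv c i ⊆ av K Pv c i := filter_subset _ _
  have h1 : (Pb G D N K Pv c i).card * D ≤ ∑ a ∈ Pb G D N K Pv c i,
      2000 * ((K i \ Pv).filter (fun w => blk G K Pv c a w ∨ N a w ∉ K i)).card := by
    rw [← smul_eq_mul]
    refine card_nsmul_le_sum _ _ _ fun a ha => ?_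
    exact (mem_filter.1 ha).2.le
  have h2 : ∑ a ∈ Pb G D N K Pv c i,
      ((K i \ Pv).filter (fun w => blk G K Pv c a w ∨ N a w ∉ K i)).card =
      ∑ w ∈ K i \ Pv, ((Pb G D N K Pv c i).filter
        (fun a => blk G K Pv c a w ∨ N a w ∉ K i)).card := by
    simp only [card_filter]
    exact sum_comm
  have h3 : ∑ w ∈ K i \ Pv, ((Pb G D N K Pv c i).filter
        (fun a => blk G K Pv c a w ∨ N a w ∉ K i)).card ≤ (K i \ Pv).card * (2 * B) := by
    rw [← smul_eq_mul]
    refine sum_le_card_nsmul _ _ _ fun w hw => ?_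
    exact K9_row hL hD i _ hsub (mem_sdiff.1 hw).1
  rw [← mul_sum, h2] at h1
  have h4 : (K i \ Pv).card ≤ D + 1 + B := (card_le_card sdiff_subset).trans (K9_Kle hL hD i)
  have h5 : (Pb G D N K Pv c i).card * D ≤ 2000 * ((D + 1 + B) * (2 * B)) :=
    h1.trans (Nat.mul_le_mul_left _ (h3.trans (Nat.mul_le_mul_right _ h4)))
  by_contra hcon
  rw [not_le] at hcon
  have h6 : (4400 * B) * D < (Pb G D N K Pv c i).card * D :=
    Nat.mul_lt_mul_of_pos_right hcon (by omega)
  have h7 : (4400 * D) * B < (4000 * (D + 1 + B)) * B := by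
    calc (4400 * D) * B = (4400 * B) * D := by ring
      _ < 2000 * ((D + 1 + B) * (2 * B)) := h6.trans_le h5
      _ = (4000 * (D + 1 + B)) * B := by ring
  have h8 := Nat.lt_of_mul_lt_mul_right h7
  omega

/-- a colour which is not a problem colour has few bad rows -/
theorem K9_few {c : V → κ} {Pv : Finset V} {i : ι} {a : κ} (ha : a ∈ av K Pv c i)
    (ha2 : a ∉ Pb G D N K Pv c i) :
    2000 * ((K i \ Pv).filter (fun w => blk G K Pv c a w ∨ N a w ∉ K i)).card ≤ D := by
  by_contra hcon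
  rw [not_le] at hcon
  exact ha2 (mem_filter.2 ⟨ha, hcon⟩)

/-- number of rows with problem colours -/
theorem K9_X {c c' : V → κ} {Pv X : Finset V} {lam : ι → ℕ}
    (hX : Prb G D N K c Pv lam X c') (i : ι) :
    (K i ∩ X).card ≤ (Pb G D N K Pv c i).card := by
  refine card_le_card_of_injOn c' ?_ ?_
  · intro w hw
    have hw' := mem_inter.1 (mem_coe.1 hw)
    exact mem_coe.2 (hX.prb w hw'.2 i hw'.1)
  · intro w hw x hx h
    have hw' := mem_inter.1 (mem_coe.1 hw)
    have hx' := mem_inter.1 (mem_coe.1 hx)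
    exact hX.inj i w hw'.2 x hx'.2 hw'.1 hx'.1 h

/-- the vertices with load -/
noncomputable def K9_Ld (N : κ → V → V) (Pv X : Finset V) (c c' : V → κ) : Finset V :=
  univ.filter (fun v => 1 ≤ load N Pv c v ∨ 1 ≤ load N X c' v)

omit [Fintype V] [Fintype κ] in
theorem K9_load_pos {U : Finset V} {c : V → κ} {v : V} (h : 1 ≤ load N U c v) :
    ∃ u ∈ U, N (c u) u = v := by
  unfold load at h
  obtain ⟨u, hu⟩ := card_pos.1 (by omega : 0 < (U.filter (fun u => N (c u) u = v)).card)
  exact ⟨u, (mem_filter.1 hu).1, (mem_filter.1 hu).2⟩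

theorem K9_cardLd (hL : Lat G D N) (hD : Dec G B K) {c c' : V → κ} {Pv X : Finset V}
    {lam : ι → ℕ} {Q : Finset κ} (hB : 0 < B) (hBD : 10000 * B ≤ D)
    (hS : Sta G D B N K Q c Pv lam) (hX : Prb G D N K c Pv lam X c') (i : ι) :
    2000 * (K i ∩ K9_Ld N Pv X c c').card ≤ 2000 * (4408 * B) + D := by
  have h1 : K i ∩ K9_Ld N Pv X c c' ⊆ (K i ∩ Pv).image (fun w => N (c w) w) ∪
      ((K i ∩ X).image (fun w => N (c' w) w) ∪
        (K i).filter (fun v => ∃ x ∈ X, x ∉ K i ∧ N (c' x) x = v)) := by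
    intro v hv
    obtain ⟨hvK, hvL⟩ := mem_inter.1 hv
    rw [mem_union, mem_union]
    rcases (mem_filter.1 hvL).2 with h | h
    · left
      obtain ⟨u, hu, huv⟩ := K9_load_pos h
      obtain ⟨j, hj⟩ := hS.sub u hu
      have h2 := hS.inK j u hj hu
      rw [huv] at h2
      have hij := hD.disj i j v hvK h2
      subst hij
      exact mem_image.2 ⟨u, mem_inter.2 ⟨hj, hu⟩, huv⟩
    · right
      obtain ⟨u, hu, huv⟩ := K9_load_pos h
      by_cases huK : u ∈ K i
      · left
        exact mem_image.2 ⟨u, mem_inter.2 ⟨huK, hu⟩, huv⟩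
      · right
        exact mem_filter.2 ⟨hvK, u, hu, huK, huv⟩
  have h2 := card_le_card h1
  have h3 := card_union_le ((K i ∩ Pv).image (fun w => N (c w) w))
    ((K i ∩ X).image (fun w => N (c' w) w) ∪
        (K i).filter (fun v => ∃ x ∈ X, x ∉ K i ∧ N (c' x) x = v))
  have h4 := card_union_le ((K i ∩ X).image (fun w => N (c' w) w))
    ((K i).filter (fun v => ∃ x ∈ X, x ∉ K i ∧ N (c' x) x = v))
  have h5 : ((K i ∩ Pv).image (fun w => N (c w) w)).card ≤ (K i ∩ Pv).card := card_image_le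
  have h6 : ((K i ∩ X).image (fun w => N (c' w) w)).card ≤ (K i ∩ X).card := card_image_le
  have h7 := K9_X hX i
  have h8 := K9_Pb hL hD (c := c) (Pv := Pv) hB hBD i
  have h9 := hS.few i
  have h10 := hX.x7 i
  omega

/-- the row `w` is allowed for the good colour `a` -/
def K9_al (G : SimpleGraph V) (N : κ → V → V) (K : ι → Finset V) (Pv X Ld : Finset V)
    (c' : V → κ) (w : V) (a : κ) : Prop :=
  (∀ x, G.Adj w x → (Cs K Pv x ∨ x ∈ X) → c' x ≠ a) ∧ (∀ i, w ∈ K i → N a w ∈ K i) ∧ N a w ∉ Ld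

theorem K9_many (hL : Lat G D N) (hD : Dec G B K) {c c' : V → κ} {Pv X : Finset V}
    {lam : ι → ℕ} {Q : Finset κ} (hB : 0 < B) (hBD : 10 ^ 7 * B ≤ D)
    (hS : Sta G D B N K Q c Pv lam) (hX : Prb G D N K c Pv lam X c') (i : ι) {a : κ}
    (ha : a ∈ av K Pv c i) (ha2 : a ∉ Pb G D N K Pv c i) :
    99 * D ≤ 100 * ((K i \ (Pv ∪ X)).filter
      (fun w => K9_al G N K Pv X (K9_Ld N Pv X c c') c' w a)).card := by
  set Ld := K9_Ld N Pv X c c' with hLd
  have h1 : K i ⊆ (K i \ (Pv ∪ X)).filter (fun w => K9_al G N K Pv X Ld c' w a) ∪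
      ((K i ∩ Pv) ∪ ((K i ∩ X) ∪
      ((K i).filter (fun w => ∃ x ∈ X, x ∉ K i ∧ G.Adj w x ∧ c' x = a) ∪
      ((K i \ Pv).filter (fun w => blk G K Pv c a w ∨ N a w ∉ K i) ∪
      (K i ∩ Ld).image (fun v => N a v))))) := by
    intro w hw
    simp only [mem_union]
    by_cases hPv : w ∈ Pv
    · right; left
      exact mem_inter.2 ⟨hw, hPv⟩
    by_cases hwX : w ∈ X
    · right; right; left
      exact mem_inter.2 ⟨hw, hwX⟩
    by_cases h2 : ∃ x ∈ X, x ∉ K i ∧ G.Adj w x ∧ c' x = a
    · right; right; right; left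
      exact mem_filter.2 ⟨hw, h2⟩
    by_cases h3 : blk G K Pv c a w ∨ N a w ∉ K i
    · right; right; right; right; left
      exact mem_filter.2 ⟨mem_sdiff.2 ⟨hw, hPv⟩, h3⟩
    by_cases h4 : N a w ∈ Ld
    · right; right; right; right; right
      refine mem_image.2 ⟨N a w, mem_inter.2 ⟨?_, h4⟩, hL.inv a w⟩
      by_contra h5
      exact h3 (Or.inr h5)
    left
    refine mem_filter.2 ⟨mem_sdiff.2 ⟨hw, ?_⟩, ?_, ?_, h4⟩
    · rw [mem_union]
      rintro (h | h)
      · exact hPv h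
      · exact hwX h
    · intro x hx1 hx2 hx3
      by_cases hxX : x ∈ X
      · by_cases hxK : x ∈ K i
        · have := hX.prb x hxX i hxK
          rw [hx3] at this
          exact ha2 this
        · exact h2 ⟨x, hxX, hxK, hx1, hx3⟩
      · have hCs : Cs K Pv x := by
          rcases hx2 with h | h
          · exact h
          · exact absurd h hxX
        refine h3 (Or.inl ⟨x, hx1, hCs, ?_⟩)
        rw [← hX.eq x hxX]
        exact hx3
    · intro j hj
      have := hD.disj i j w hw hj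
      subst this
      by_contra h5
      exact h3 (Or.inr h5)
  have h2 := card_le_card h1
  have h3 := card_union_le ((K i \ (Pv ∪ X)).filter (fun w => K9_al G N K Pv X Ld c' w a))
      ((K i ∩ Pv) ∪ ((K i ∩ X) ∪
      ((K i).filter (fun w => ∃ x ∈ X, x ∉ K i ∧ G.Adj w x ∧ c' x = a) ∪
      ((K i \ Pv).filter (fun w => blk G K Pv c a w ∨ N a w ∉ K i) ∪
      (K i ∩ Ld).image (fun v => N a v)))))
  have h4 := card_union_le (K i ∩ Pv) ((K i ∩ X) ∪
      ((K i).filter (fun w => ∃ x ∈ X, x ∉ K i ∧ G.Adj w x ∧ c' x = a) ∪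
      ((K i \ Pv).filter (fun w => blk G K Pv c a w ∨ N a w ∉ K i) ∪
      (K i ∩ Ld).image (fun v => N a v))))
  have h5 := card_union_le (K i ∩ X)
      ((K i).filter (fun w => ∃ x ∈ X, x ∉ K i ∧ G.Adj w x ∧ c' x = a) ∪
      ((K i \ Pv).filter (fun w => blk G K Pv c a w ∨ N a w ∉ K i) ∪
      (K i ∩ Ld).image (fun v => N a v)))
  have h6 := card_union_le ((K i).filter (fun w => ∃ x ∈ X, x ∉ K i ∧ G.Adj w x ∧ c' x = a))
      ((K i \ Pv).filter (fun w => blk G K Pv c a w ∨ N a w ∉ K i) ∪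
      (K i ∩ Ld).image (fun v => N a v))
  have h7 := card_union_le ((K i \ Pv).filter (fun w => blk G K Pv c a w ∨ N a w ∉ K i))
      ((K i ∩ Ld).image (fun v => N a v))
  have h8 : ((K i ∩ Ld).image (fun v => N a v)).card ≤ (K i ∩ Ld).card := card_image_le
  have h9 := K9_cardLd hL hD hB (by omega) hS hX i
  rw [← hLd] at h9
  have h10 := K9_few ha ha2
  have h11 := hX.x6 i a
  have h12 := K9_X hX i
  have h13 := K9_Pb hL hD (c := c) (Pv := Pv) hB (by omega) i
  have h14 := hS.few i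
  have h15 := K9_Kge hL hD i
  omega


omit [Fintype V] [Fintype κ] in
theorem K9_load_zero {U : Finset V} {c : V → κ} {v : V} (h : ¬ 1 ≤ load N U c v) :
    load N U c v = 0 := by omega

end K9lem

/-- the rows of the good colours -/
noncomputable def K9_Y {V κ ι : Type} [Fintype V] (Gd : ι → Finset κ) (ro : ι → κ → V) :
    Finset V :=
  univ.filter (fun v => ∃ i, ∃ a ∈ Gd i, ro i a = v)

/-- the colouring with the good colours -/
noncomputable def K9_c {V κ ι : Type} (Gd : ι → Finset κ) (ro : ι → κ → V) (c' : V → κ)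
    (v : V) : κ :=
  if h : ∃ a, ∃ i, a ∈ Gd i ∧ ro i a = v then h.choose else c' v

theorem K9_mem_Y {V κ ι : Type} [Fintype V] {Gd : ι → Finset κ} {ro : ι → κ → V} {v : V} :
    v ∈ K9_Y Gd ro ↔ ∃ i, ∃ a ∈ Gd i, ro i a = v := by
  unfold K9_Y
  rw [mem_filter]
  exact ⟨fun h => h.2, fun h => ⟨mem_univ v, h⟩⟩

theorem K9_mem_KU {V ι : Type} [Fintype V] {K : ι → Finset V} {v : V} :
    v ∈ KU K ↔ ∃ i, v ∈ K i := by
  unfold KU
  rw [mem_filter]
  exact ⟨fun h => h.2, fun h => ⟨mem_univ v, h⟩⟩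

theorem K9_conv {V : Type} {s : Finset V} {D : ℕ} {p : V → Prop} {d1 d2 : DecidablePred p}
    (h : D < 2 * (@Finset.filter V p d1 s).card) : D < 2 * (@Finset.filter V p d2 s).card := by
  rw [Subsingleton.elim d2 d1]
  exact h

theorem K9_c_not {V κ ι : Type} [Fintype V] {Gd : ι → Finset κ} {ro : ι → κ → V} {c' : V → κ}
    {v : V} (hv : v ∉ K9_Y Gd ro) : K9_c Gd ro c' v = c' v := by
  unfold K9_c
  rw [dif_neg]
  rintro ⟨a, i, ha, h⟩
  exact hv (K9_mem_Y.2 ⟨i, a, ha, h⟩)

theorem K9_c_ro {V κ ι : Type} {K : ι → Finset V}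
    (hD' : ∀ i j, ∀ w, w ∈ K i → w ∈ K j → i = j) {Gd : ι → Finset κ}
    {ro : ι → κ → V} {c' : V → κ} (hK : ∀ i, ∀ a ∈ Gd i, ro i a ∈ K i)
    (hinj : ∀ i, ∀ a ∈ Gd i, ∀ b ∈ Gd i, ro i a = ro i b → a = b) {i : ι} {a : κ}
    (ha : a ∈ Gd i) : K9_c Gd ro c' (ro i a) = a := by
  unfold K9_c
  have h : ∃ b, ∃ j, b ∈ Gd j ∧ ro j b = ro i a := ⟨a, i, ha, rfl⟩
  rw [dif_pos h]
  obtain ⟨j, hj1, hj2⟩ := h.choose_spec
  have h1 := hK j _ hj1
  rw [hj2] at h1
  have hij := hD' j i _ h1 (hK i a ha)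
  subst hij
  exact hinj _ _ hj1 _ ha hj2


theorem thm_K9 (hPair : St_Pair) (hLab : St_Lab) (hPrb : St_Prb) (hGood : St_Good)
    (hFin9 : St_Fin9) : St_K9 := by
  intro V κ ι _ _ _ G D B Kn m n L0 N K c0 Lam hL hD hNK hc0
  have hB := hNK.B0
  have hBD16 : 10 ^ 16 * B ≤ D := by
    have h1 : (10 : ℝ) ^ 16 * (B : ℝ) * 1 ≤ D := by
      refine le_trans ?_ hNK.BD
      exact mul_le_mul_of_nonneg_left hNK.La (by positivity)
    rw [mul_one] at h1
    exact_mod_cast h1
  -- reserved colours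
  obtain ⟨Q, _, hQ⟩ := exists_subset_card_eq (s := (univ : Finset κ)) (n := D / 25) (by
    rw [card_univ, hL.card]
    omega)
  have hQ1 : 25 * Q.card ≤ D := by omega
  have hQ2 : D < 25 * (Q.card + 1) := by omega
  obtain ⟨c, Pv, lam, hcc0, hS⟩ := hPair V κ ι G D B N K Q c0 hL hD hc0 hQ1 hB (by omega)
  obtain ⟨On, lb, hlab⟩ := hLab V κ ι G D B N K Q c Pv lam Lam hL hD hS hB hNK.La hNK.BD
    hNK.expL
  obtain ⟨X, c', hX⟩ := hPrb V κ ι G D B N K Q c Pv lam On lb hL hD hS hB (by omega) hlab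
  set Ld : Finset V := K9_Ld N Pv X c c' with hLd
  set Gd : ι → Finset κ := fun i => (av K Pv c i \ Pb G D N K Pv c i) \ Q with hGd
  set Rw : ι → Finset V := fun i => K i \ (Pv ∪ X) with hRw
  have hGdm : ∀ i a, a ∈ Gd i ↔ (a ∈ av K Pv c i ∧ a ∉ Pb G D N K Pv c i) ∧ a ∉ Q := by
    intro i a
    rw [hGd]
    simp only [mem_sdiff]
  have hRwm : ∀ i w, w ∈ Rw i ↔ w ∈ K i ∧ w ∉ Pv ∧ w ∉ X := by
    intro i w
    rw [hRw]
    simp only [mem_sdiff, mem_union, not_or]
  obtain ⟨ro, hro1, hro2, hro3, hro4⟩ := hGood V κ ι G D B Kn m n L0 N K Q Rw Gd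
    (fun w a => K9_al G N K Pv X Ld c' w a) Lam hL hD hNK (fun i => sdiff_subset)
    (fun i a ha => ((hGdm i a).1 ha).2) hQ2
    (fun i a ha => K9_many hL hD hB (by omega) hS hX i ((hGdm i a).1 ha).1.1
      ((hGdm i a).1 ha).1.2)
  have hroK : ∀ i, ∀ a ∈ Gd i, ro i a ∈ K i := fun i a ha => ((hRwm i _).1 (hro1 i a ha).1).1
  set Y : Finset V := K9_Y Gd ro with hY
  set c2 : V → κ := K9_c Gd ro c' with hc2
  have hYm : ∀ v, v ∈ Y ↔ ∃ i, ∃ a ∈ Gd i, ro i a = v := fun v => K9_mem_Y
  have hc2Y : ∀ i, ∀ a ∈ Gd i, c2 (ro i a) = a := fun i a ha =>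
    K9_c_ro hD.disj hroK hro2 ha
  have hc2n : ∀ v, v ∉ Y → c2 v = c' v := fun v hv => K9_c_not hv
  have hYK : ∀ w ∈ Y, ∃ i, w ∈ K i := by
    intro w hw
    obtain ⟨i, a, ha, rfl⟩ := (hYm w).1 hw
    exact ⟨i, hroK i a ha⟩
  have hYPX : ∀ w ∈ Y, w ∉ Pv ∧ w ∉ X := by
    intro w hw
    obtain ⟨i, a, ha, rfl⟩ := (hYm w).1 hw
    exact ((hRwm i _).1 (hro1 i a ha).1).2
  set C : Finset V := univ.filter (fun v => Cs K Pv v ∨ v ∈ X ∨ v ∈ Y) with hC
  have hCm : ∀ v, v ∈ C ↔ Cs K Pv v ∨ v ∈ X ∨ v ∈ Y := by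
    intro v
    rw [hC, mem_filter]
    exact ⟨fun h => h.2, fun h => ⟨mem_univ v, h⟩⟩
  set Qa : ι → Finset κ := fun i => (av K Pv c i ∩ Q) \ Pb G D N K Pv c i with hQa
  have hQam : ∀ i a, a ∈ Qa i ↔ (a ∈ av K Pv c i ∧ a ∈ Q) ∧ a ∉ Pb G D N K Pv c i := by
    intro i a
    rw [hQa]
    simp only [mem_sdiff, mem_inter]
  have havm : ∀ i a, a ∈ av K Pv c i ↔ ∀ w ∈ K i, w ∈ Pv → c w ≠ a := by
    intro i a
    unfold av
    rw [mem_filter]
    exact ⟨fun h => h.2, fun h => ⟨mem_univ a, h⟩⟩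
  -- colours of the members of C in K i
  have hcol : ∀ i, ∀ x ∈ K i, x ∈ C →
      (x ∈ Pv ∧ x ∉ X ∧ x ∉ Y ∧ c2 x = c x) ∨ (x ∈ X ∧ x ∉ Y ∧ c2 x ∈ Pb G D N K Pv c i) ∨
      (x ∈ Y ∧ c2 x ∈ Gd i ∧ ro i (c2 x) = x) := by
    intro i x hx hxC
    by_cases hxY : x ∈ Y
    · right; right
      obtain ⟨j, a, ha, h⟩ := (hYm x).1 hxY
      have hj := hroK j a ha
      rw [h] at hj
      have hij := hD.disj i j x hx hj
      subst hij
      have h2 := hc2Y i a ha
      rw [h] at h2
      rw [h2]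
      exact ⟨hxY, ha, h⟩
    · by_cases hxX : x ∈ X
      · right; left
        rw [hc2n x hxY]
        exact ⟨hxX, hxY, hX.prb x hxX i hx⟩
      · left
        rcases (hCm x).1 hxC with h | h | h
        · rcases h with h | h
          · exact absurd hx (h i)
          · refine ⟨h, hxX, hxY, ?_⟩
            rw [hc2n x hxY, hX.eq x hxX]
        · exact absurd h hxX
        · exact absurd h hxY
  -- properness on C
  have hprop : ∀ u ∈ C, ∀ v ∈ C, G.Adj u v → c2 u ≠ c2 v := by
    have key : ∀ u ∈ Y, ∀ v ∈ C, v ∉ Y → G.Adj u v → c2 u ≠ c2 v := by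
      intro u hu v hv hvY huv
      obtain ⟨i, a, ha, rfl⟩ := (hYm u).1 hu
      rw [hc2Y i a ha, hc2n v hvY]
      have h1 := (hro1 i a ha).2.1 v huv
      refine fun h => h1 ?_ h.symm
      rcases (hCm v).1 hv with h2 | h2 | h2
      · exact Or.inl h2
      · exact Or.inr h2
      · exact absurd h2 hvY
    intro u hu v hv huv
    by_cases huY : u ∈ Y
    · by_cases hvY : v ∈ Y
      · obtain ⟨i, a, ha, rfl⟩ := (hYm u).1 huY
        obtain ⟨j, b, hb, rfl⟩ := (hYm v).1 hvY
        rw [hc2Y i a ha, hc2Y j b hb]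
        intro hab
        subst hab
        have hij := hro4 i j a ha hb huv
        subst hij
        exact G.irrefl huv
      · exact key u huY v hv hvY huv
    · by_cases hvY : v ∈ Y
      · exact (key v hvY u hu huY huv.symm).symm
      · rw [hc2n u huY, hc2n v hvY]
        refine hX.proper u v ?_ ?_ huv
        · rcases (hCm u).1 hu with h2 | h2 | h2
          · exact Or.inl h2
          · exact Or.inr h2
          · exact absurd h2 huY
        · rcases (hCm v).1 hv with h2 | h2 | h2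
          · exact Or.inl h2
          · exact Or.inr h2
          · exact absurd h2 hvY
  -- numbers
  have hPbc : ∀ i, (Pb G D N K Pv c i).card ≤ 4400 * B := fun i =>
    K9_Pb hL hD hB (by omega) i
  have hXc : ∀ i, (K i ∩ X).card ≤ (Pb G D N K Pv c i).card := fun i => K9_X hX i
  have hQsub : ∀ i, Q ⊆ av K Pv c i := by
    intro i a ha
    rw [havm]
    intro w _ hw2 h
    rw [← h] at ha
    exact hS.notQ w hw2 ha
  have hQac : ∀ i, (Qa i).card ≤ Q.card ∧ Q.card ≤ (Qa i).card + (Pb G D N K Pv c i).card := by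
    intro i
    have h1 : Qa i ⊆ Q := fun a ha => ((hQam i a).1 ha).1.2
    have h2 : Q ⊆ Qa i ∪ Pb G D N K Pv c i := by
      intro a ha
      rw [mem_union]
      by_cases h : a ∈ Pb G D N K Pv c i
      · exact Or.inr h
      · exact Or.inl ((hQam i a).2 ⟨⟨hQsub i ha, ha⟩, h⟩)
    exact ⟨card_le_card h1, (card_le_card h2).trans (card_union_le _ _)⟩
  have hGdc : ∀ i, (av K Pv c i).card =
      (Gd i).card + ((Pb G D N K Pv c i).card + (Qa i).card) := by
    intro i
    have h1 : av K Pv c i = Gd i ∪ (Pb G D N K Pv c i ∪ Qa i) := by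
      ext a
      rw [mem_union, mem_union, hGdm, hQam]
      constructor
      · intro ha
        by_cases h : a ∈ Pb G D N K Pv c i
        · exact Or.inr (Or.inl h)
        · by_cases h2 : a ∈ Q
          · exact Or.inr (Or.inr ⟨⟨ha, h2⟩, h⟩)
          · exact Or.inl ⟨⟨ha, h⟩, h2⟩
      · rintro (h | h | h)
        · exact h.1.1
        · exact (mem_filter.1 h).1
        · exact h.1.1
    have h2 : Disjoint (Gd i) (Pb G D N K Pv c i ∪ Qa i) := by
      rw [disjoint_left]
      intro a ha hb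
      rw [mem_union, hQam] at hb
      rw [hGdm] at ha
      rcases hb with hb | hb
      · exact ha.1.2 hb
      · exact ha.2 hb.1.2
    have h3 : Disjoint (Pb G D N K Pv c i) (Qa i) := by
      rw [disjoint_left]
      intro a ha hb
      rw [hQam] at hb
      exact hb.2 ha
    conv_lhs => rw [h1]
    rw [card_union_of_disjoint h2, card_union_of_disjoint h3]
  have hYc : ∀ i, (K i ∩ Y).card = (Gd i).card := by
    intro i
    have h1 : K i ∩ Y = (Gd i).image (ro i) := by
      ext x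
      rw [mem_inter, mem_image]
      constructor
      · rintro ⟨hx, hxY⟩
        obtain ⟨j, a, ha, h⟩ := (hYm x).1 hxY
        have hj := hroK j a ha
        rw [h] at hj
        have hij := hD.disj i j x hx hj
        subst hij
        exact ⟨a, ha, h⟩
      · rintro ⟨a, ha, rfl⟩
        exact ⟨hroK i a ha, (hYm _).2 ⟨i, a, ha, rfl⟩⟩
    rw [h1]
    exact card_image_of_injOn fun a ha b hb h => hro2 i a ha b hb h
  have hsplit : ∀ i, (K i \ Pv).card = (K i \ C).card + ((K i ∩ X).card + (K i ∩ Y).card) := by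
    intro i
    have h1 : K i \ Pv = (K i \ C) ∪ ((K i ∩ X) ∪ (K i ∩ Y)) := by
      ext x
      simp only [mem_union, mem_sdiff, mem_inter]
      constructor
      · rintro ⟨hx, hxP⟩
        by_cases h1 : x ∈ X
        · exact Or.inr (Or.inl ⟨hx, h1⟩)
        · by_cases h2 : x ∈ Y
          · exact Or.inr (Or.inr ⟨hx, h2⟩)
          · refine Or.inl ⟨hx, fun h3 => ?_⟩
            rcases (hCm x).1 h3 with (h4 | h4) | h4 | h4
            · exact h4 i hx
            · exact hxP h4
            · exact h1 h4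
            · exact h2 h4
      · rintro (⟨hx, h⟩ | ⟨hx, h⟩ | ⟨hx, h⟩)
        · exact ⟨hx, fun h2 => h ((hCm x).2 (Or.inl (Or.inr h2)))⟩
        · exact ⟨hx, (hX.row x h).1⟩
        · exact ⟨hx, (hYPX x h).1⟩
    have h2 : Disjoint (K i \ C) ((K i ∩ X) ∪ (K i ∩ Y)) := by
      rw [disjoint_left]
      intro x hx hy
      rw [mem_sdiff] at hx
      rw [mem_union, mem_inter, mem_inter] at hy
      rcases hy with hy | hy
      · exact hx.2 ((hCm x).2 (Or.inr (Or.inl hy.2)))
      · exact hx.2 ((hCm x).2 (Or.inr (Or.inr hy.2)))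
    have h3 : Disjoint (K i ∩ X) (K i ∩ Y) := by
      rw [disjoint_left]
      intro x hx hy
      exact (hYPX x (mem_inter.1 hy).2).2 (mem_inter.1 hx).2
    rw [h1, card_union_of_disjoint h2, card_union_of_disjoint h3]
  have hKP : ∀ i, (K i).card ≤ (K i \ Pv).card + (K i ∩ Pv).card := by
    intro i
    have h1 : K i ⊆ (K i \ Pv) ∪ (K i ∩ Pv) := by
      intro x hx
      rw [mem_union, mem_sdiff, mem_inter]
      by_cases h : x ∈ Pv
      · exact Or.inr ⟨hx, h⟩
      · exact Or.inl ⟨hx, h⟩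
    exact (card_le_card h1).trans (card_union_le _ _)
  have hLdc : ∀ i, 2000 * (K i ∩ Ld).card ≤ 2000 * (4408 * B) + D := fun i =>
    K9_cardLd hL hD hB (by omega) hS hX i
  -- the last step
  obtain ⟨c3, hf1, hf2, hf3, hf4⟩ := hFin9 V κ ι G D B N K Q C Y Ld Qa c2 hL hD hB (by omega)
    (by
      intro u hu
      by_contra hcon
      refine hu ((hCm u).2 (Or.inl (Or.inl fun i hi => hcon ⟨i, hi⟩))))
    hprop
    (by
      intro w hw
      refine ⟨(hCm w).2 (Or.inr (Or.inr hw)), ?_, hYK w hw⟩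
      obtain ⟨i, a, ha, rfl⟩ := (hYm w).1 hw
      rw [hc2Y i a ha]
      exact ((hGdm i a).1 ha).2)
    (by
      intro i w hw hwK x hxK hxC hxw
      obtain ⟨j, a, ha, h⟩ := (hYm w).1 hw
      have hj := hroK j a ha
      rw [h] at hj
      have hij := hD.disj i j w hwK hj
      subst hij
      have hcw : c2 w = a := by
        rw [← h]
        exact hc2Y i a ha
      rw [hcw]
      intro hca
      rcases hcol i x hxK hxC with ⟨h1, h2, h3, h4⟩ | ⟨h1, h2, h3⟩ | ⟨h1, h2, h3⟩
      · rw [hca] at h4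
        exact (havm i a).1 ((hGdm i a).1 ha).1.1 x hxK h1 h4.symm
      · rw [hca] at h3
        exact ((hGdm i a).1 ha).1.2 h3
      · rw [hca, h] at h3
        exact hxw h3.symm)
    (by
      intro i a ha
      have ha' := (hQam i a).1 ha
      refine ⟨ha'.1.2, fun x hxK hxC hca => ?_⟩
      rcases hcol i x hxK hxC with ⟨h1, h2, h3, h4⟩ | ⟨h1, h2, h3⟩ | ⟨h1, h2, h3⟩
      · rw [hca] at h4
        exact (havm i a).1 ha'.1.1 x hxK h1 h4.symm
      · rw [hca] at h3
        exact ha'.2 h3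
      · rw [hca] at h2
        exact ((hGdm i a).1 h2).2 ha'.1.2)
    (by
      intro i
      have h1 := hQac i
      have h2 := hPbc i
      have h3 := hGdc i
      have h4 := hYc i
      have h5 := hsplit i
      have h6 := hS.cnt i
      have h7 := hX.cnt i
      refine ⟨by omega, by omega, by omega⟩)
    (by
      intro i a ha
      have ha' := (hQam i a).1 ha
      have h1 : (K i).filter (fun w => (∃ x ∈ C, G.Adj w x ∧ x ∉ K i ∧ c2 x = a) ∨
          N a w ∉ K i) ⊆ (K i ∩ Pv) ∪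
          ((K i).filter (fun w => ∃ x ∈ X, x ∉ K i ∧ G.Adj w x ∧ c' x = a) ∪
          (K i \ Pv).filter (fun w => blk G K Pv c a w ∨ N a w ∉ K i)) := by
        intro w hw
        obtain ⟨hwK, hw2⟩ := mem_filter.1 hw
        rw [mem_union, mem_union]
        by_cases hwP : w ∈ Pv
        · left
          exact mem_inter.2 ⟨hwK, hwP⟩
        right
        rcases hw2 with ⟨x, hxC, hwx, hxK, hxa⟩ | h
        · have hxY : x ∉ Y := by
            intro hxY
            obtain ⟨j, b, hb, h⟩ := (hYm x).1 hxY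
            have h2 := hc2Y j b hb
            rw [h, hxa] at h2
            rw [← h2] at hb
            exact ((hGdm j a).1 hb).2 ha'.1.2
          rw [hc2n x hxY] at hxa
          by_cases hxX : x ∈ X
          · left
            exact mem_filter.2 ⟨hwK, x, hxX, hxK, hwx, hxa⟩
          · right
            refine mem_filter.2 ⟨mem_sdiff.2 ⟨hwK, hwP⟩, Or.inl ⟨x, hwx, ?_, ?_⟩⟩
            · rcases (hCm x).1 hxC with h4 | h4 | h4
              · exact h4
              · exact absurd h4 hxX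
              · exact absurd h4 hxY
            · rw [← hX.eq x hxX]
              exact hxa
        · right
          exact mem_filter.2 ⟨mem_sdiff.2 ⟨hwK, hwP⟩, Or.inr h⟩
      have h2 := card_le_card h1
      have h3 := card_union_le (K i ∩ Pv)
          ((K i).filter (fun w => ∃ x ∈ X, x ∉ K i ∧ G.Adj w x ∧ c' x = a) ∪
          (K i \ Pv).filter (fun w => blk G K Pv c a w ∨ N a w ∉ K i))
      have h4 := card_union_le
          ((K i).filter (fun w => ∃ x ∈ X, x ∉ K i ∧ G.Adj w x ∧ c' x = a))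
          ((K i \ Pv).filter (fun w => blk G K Pv c a w ∨ N a w ∉ K i))
      have h5 := hS.few i
      have h6 := hX.x6 i a
      have h7 := K9_few ha'.1.1 ha'.2
      omega)
    (by
      intro i
      have := hLdc i
      omega)
    (by
      intro i
      have h1 := hQac i
      have h2 := hPbc i
      have h3 := hGdc i
      have h4 := hYc i
      have h6 := hS.cnt i
      have h7 := hKP i
      have h8 := hS.few i
      have h9 := K9_Kge hL hD i
      omega)
  -- loads
  have hload : ∀ v, load N (KU K ∩ C) c2 v ≤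
      load N Pv c v + (load N X c' v + load N Y c2 v) := by
    intro v
    have h1 : (KU K ∩ C).filter (fun u => N (c2 u) u = v) ⊆
        Pv.filter (fun u => N (c u) u = v) ∪ (X.filter (fun u => N (c' u) u = v) ∪
          Y.filter (fun u => N (c2 u) u = v)) := by
      intro u hu
      obtain ⟨hu1, hu2⟩ := mem_filter.1 hu
      obtain ⟨huK, huC⟩ := mem_inter.1 hu1
      obtain ⟨i, hi⟩ := K9_mem_KU.1 huK
      rw [mem_union, mem_union]
      by_cases huY : u ∈ Y
      · right; right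
        exact mem_filter.2 ⟨huY, hu2⟩
      · rw [hc2n u huY] at hu2
        by_cases huX : u ∈ X
        · right; left
          exact mem_filter.2 ⟨huX, hu2⟩
        · left
          rw [hX.eq u huX] at hu2
          refine mem_filter.2 ⟨?_, hu2⟩
          rcases (hCm u).1 huC with (h | h) | h | h
          · exact absurd hi (h i)
          · exact h
          · exact absurd h huX
          · exact absurd h huY
    unfold load
    have h2 := card_le_card h1
    have h3 := card_union_le (Pv.filter (fun u => N (c u) u = v))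
      (X.filter (fun u => N (c' u) u = v) ∪ Y.filter (fun u => N (c2 u) u = v))
    have h4 := card_union_le (X.filter (fun u => N (c' u) u = v))
      (Y.filter (fun u => N (c2 u) u = v))
    omega
  have hY1 : ∀ v, load N Y c2 v ≤ 1 := by
    intro v
    unfold load
    rw [card_le_one]
    intro u hu w hw
    obtain ⟨hu1, hu2⟩ := mem_filter.1 hu
    obtain ⟨hw1, hw2⟩ := mem_filter.1 hw
    obtain ⟨i, a, ha, rfl⟩ := (hYm u).1 hu1
    obtain ⟨j, b, hb, rfl⟩ := (hYm w).1 hw1
    rw [hc2Y i a ha] at hu2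
    rw [hc2Y j b hb] at hw2
    obtain ⟨h1, h2⟩ := hro3 i j a ha b hb (hu2.trans hw2.symm)
    subst h1
    subst h2
    rfl
  have hYL : ∀ v, v ∈ Ld → load N Y c2 v = 0 := by
    intro v hv
    refine K9_load_zero fun h => ?_
    obtain ⟨u, hu, huv⟩ := K9_load_pos h
    obtain ⟨i, a, ha, rfl⟩ := (hYm u).1 hu
    rw [hc2Y i a ha] at huv
    rw [← huv] at hv
    exact (hro1 i a ha).2.2.2 hv
  have hYS : ∀ v, (∀ i, v ∉ K i) → load N Y c2 v = 0 := by
    intro v hv
    refine K9_load_zero fun h => ?_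
    obtain ⟨u, hu, huv⟩ := K9_load_pos h
    obtain ⟨i, a, ha, rfl⟩ := (hYm u).1 hu
    rw [hc2Y i a ha] at huv
    have h1 := (hro1 i a ha).2.2.1 i (hroK i a ha)
    rw [huv] at h1
    exact hv i h1
  have hPS : ∀ v, (∀ i, v ∉ K i) → load N Pv c v = 0 := by
    intro v hv
    refine K9_load_zero fun h => ?_
    obtain ⟨u, hu, huv⟩ := K9_load_pos h
    obtain ⟨i, hi⟩ := hS.sub u hu
    have h1 := hS.inK i u hi hu
    rw [huv] at h1
    exact hv i h1
  have hLdm : ∀ v, v ∈ Ld ↔ 1 ≤ load N Pv c v ∨ 1 ≤ load N X c' v := by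
    intro v
    rw [hLd]
    unfold K9_Ld
    rw [mem_filter]
    exact ⟨fun h => h.2, fun h => ⟨mem_univ v, h⟩⟩
  have hKUm : ∀ v, v ∉ KU K ↔ ∀ i, v ∉ K i := by
    intro v
    rw [K9_mem_KU]
    constructor
    · intro h i hi
      exact h ⟨i, hi⟩
    · rintro h ⟨i, hi⟩
      exact h i hi
  refine ⟨c3, ?_, hf2, ?_, ?_⟩
  · intro v hv
    have hvY : v ∉ Y := by
      intro h
      obtain ⟨i, hi⟩ := hYK v h
      exact hv i hi
    have hvX : v ∉ X := by
      intro h
      obtain ⟨i, hi⟩ := (hX.row v h).2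
      exact hv i hi
    rw [hf1 v hv, hc2n v hvY, hX.eq v hvX, hcc0 v hv]
  · intro v
    have h1 := hload v
    have h2 := hY1 v
    have h3 := hS.ld v
    have h4 := hf3 v
    by_cases hvK : ∀ i, v ∉ K i
    · have h5 := hf4 v (Or.inl ((hKUm v).2 hvK))
      have h6 := hYS v hvK
      have h7 := hPS v hvK
      have h8 := hX.ld2 v
      omega
    · push Not at hvK
      obtain ⟨i, hi⟩ := hvK
      by_cases hvL : v ∈ Ld
      · have h5 := hf4 v (Or.inr hvL)
        have h6 := hYL v hvL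
        have h7 := hX.ldK i v hi
        omega
      · rw [hLdm, not_or] at hvL
        have h5 := K9_load_zero hvL.1
        have h6 := K9_load_zero hvL.2
        omega
  · intro v hvK hvD
    have h1 := hload v
    have h5 := hf4 v (Or.inl ((hKUm v).2 hvK))
    have h6 := hYS v hvK
    have h7 := hPS v hvK
    have h8 := hX.ldS v hvK (K9_conv hvD)
    omega

end Pool.TCT
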