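import Pool.Agent.Helper3.TCT.Defs

/-!
# MTCH: disjoint non-adjacent pairs in a set
-/

set_option autoImplicit false

namespace Pool.TCT

open Pool.TC Pool.TCM Pool.TCS Finset
open scoped Classical

theorem Mtch_bound {V : Type} [Fintype V] (K X : Finset V) (r : V → V → Prop) (B : ℕ)
    (hs : ∀ u v, r u v → r v u) (hB : ∀ u ∈ K, (K.filter (fun v => r u v)).card ≤ B)
    (hX : ∀ u ∈ K, ∀ v ∈ K, r u v → u ∈ X ∨ v ∈ X) :
    (∑ u ∈ K, (K.filter (fun v => r u v)).card) ≤ 2 * (X.card * B) := by
  have hXK : (K ∩ X).card ≤ X.card := card_le_card inter_subset_right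
  have h1 : ∀ u ∈ K, (K.filter (fun v => r u v)).card ≤
      (if u ∈ X then B else 0) + ((K ∩ X).filter (fun v => r u v)).card := by
    intro u hu
    by_cases hux : u ∈ X
    · rw [if_pos hux]
      exact (hB u hu).trans (Nat.le_add_right _ _)
    · rw [if_neg hux, zero_add]
      refine card_le_card fun v hv => ?_
      rw [mem_filter] at hv ⊢
      exact ⟨mem_inter.2 ⟨hv.1, (hX u hu v hv.1 hv.2).resolve_left hux⟩, hv.2⟩
  have h2 : (∑ u ∈ K, if u ∈ X then B else 0) ≤ X.card * B := by
    rw [← sum_filter, sum_const, smul_eq_mul, filter_mem_eq_inter]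
    exact Nat.mul_le_mul_right _ hXK
  have h3 : (∑ u ∈ K, ((K ∩ X).filter (fun v => r u v)).card) ≤ X.card * B := by
    have h4 := sum_card_bipartiteAbove_eq_sum_card_bipartiteBelow (s := K) (t := K ∩ X) r
    unfold bipartiteAbove bipartiteBelow at h4
    rw [h4]
    calc (∑ b ∈ K ∩ X, (K.filter (fun a => r a b)).card) ≤ ∑ b ∈ K ∩ X, B := by
          refine sum_le_sum fun b hb => ?_
          refine le_trans (card_le_card fun a ha => ?_) (hB b (mem_inter.1 hb).1)
          rw [mem_filter] at ha ⊢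
          exact ⟨ha.1, hs _ _ ha.2⟩
      _ = (K ∩ X).card * B := by rw [sum_const, smul_eq_mul]
      _ ≤ X.card * B := Nat.mul_le_mul_right _ hXK
  calc (∑ u ∈ K, (K.filter (fun v => r u v)).card) ≤
        ∑ u ∈ K, ((if u ∈ X then B else 0) + ((K ∩ X).filter (fun v => r u v)).card) :=
        sum_le_sum h1
    _ = (∑ u ∈ K, if u ∈ X then B else 0) + ∑ u ∈ K, ((K ∩ X).filter (fun v => r u v)).card :=
        sum_add_distrib
    _ ≤ X.card * B + X.card * B := Nat.add_le_add h2 h3
    _ = 2 * (X.card * B) := by ring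

theorem thm_Mtch : St_Mtch := by
  intro V _ K r B μ hs hi hB hμ hB0
  have key : ∀ m, m ≤ μ → ∃ M : Finset (V × V), M.card = m ∧
      (∀ p ∈ M, p.1 ∈ K ∧ p.2 ∈ K ∧ r p.1 p.2) ∧
      (∀ p ∈ M, ∀ q ∈ M, p ≠ q → p.1 ≠ q.1 ∧ p.1 ≠ q.2 ∧ p.2 ≠ q.1 ∧ p.2 ≠ q.2) := by
    intro m
    induction m with
    | zero =>
      intro _
      exact ⟨∅, card_empty, fun p hp => absurd hp (notMem_empty p),
        fun p hp => absurd hp (notMem_empty p)⟩
    | succ m ih =>
      intro hm
      obtain ⟨M, hM, hM1, hM2⟩ := ih (by omega)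
      let X : Finset V := M.image Prod.fst ∪ M.image Prod.snd
      have hXc : X.card ≤ 2 * m := by
        calc X.card ≤ (M.image Prod.fst).card + (M.image Prod.snd).card := card_union_le _ _
          _ ≤ M.card + M.card := Nat.add_le_add card_image_le card_image_le
          _ = 2 * m := by rw [hM]; ring
      have hex : ∃ u ∈ K, ∃ v ∈ K, r u v ∧ u ∉ X ∧ v ∉ X := by
        by_contra hno
        push Not at hno
        have h1 := Mtch_bound K X r B hs hB (fun u hu v hv huv => by
          by_contra h2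
          push Not at h2
          exact h2.2 (hno u hu v hv huv h2.1))
        have h2 : X.card * B ≤ 2 * m * B := Nat.mul_le_mul_right _ hXc
        have h3 : 4 * B * μ ≥ 4 * B * (m + 1) := Nat.mul_le_mul_left _ hm
        have h4 : 4 * B * (m + 1) = 2 * (2 * m * B) + 4 * B := by ring
        omega
      obtain ⟨u, hu, v, hv, huv, huX, hvX⟩ := hex
      have hX1 : ∀ p ∈ M, p.1 ∈ X := fun p hp => mem_union_left _ (mem_image_of_mem _ hp)
      have hX2 : ∀ p ∈ M, p.2 ∈ X := fun p hp => mem_union_right _ (mem_image_of_mem _ hp)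
      have hnot : (u, v) ∉ M := fun h => huX (hX1 _ h)
      have hne : ∀ x y : V, x ∉ X → y ∈ X → x ≠ y := by
        rintro x y hx hy rfl
        exact hx hy
      refine ⟨insert (u, v) M, by rw [card_insert_of_notMem hnot, hM], ?_, ?_⟩
      · intro p hp
        rcases mem_insert.1 hp with rfl | hp
        · exact ⟨hu, hv, huv⟩
        · exact hM1 p hp
      · intro p hp q hq hpq
        rcases mem_insert.1 hp with rfl | hp
        · rcases mem_insert.1 hq with rfl | hq
          · exact absurd rfl hpq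
          · exact ⟨hne u _ huX (hX1 q hq), hne u _ huX (hX2 q hq), hne v _ hvX (hX1 q hq),
              hne v _ hvX (hX2 q hq)⟩
        · rcases mem_insert.1 hq with rfl | hq
          · exact ⟨(hne u _ huX (hX1 p hp)).symm, (hne v _ hvX (hX1 p hp)).symm,
              (hne u _ huX (hX2 p hp)).symm, (hne v _ hvX (hX2 p hp)).symm⟩
          · exact hM2 p hp q hq hpq
  exact key μ le_rfl

end Pool.TCT
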