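import Pool.Agent.Helper3.TCT.Defs
import Pool.Agent.Helper32.TN.StA

/-!
# T9: the stage 3c and the K-stage in the interface `Pool.TN`

`Pool.TN` (`Helper60/TN/Defs.lean`, `Helper32/TN/StA.lean`) is the interface of the K-stage.
-/

set_option autoImplicit false

namespace Pool.TN

open Pool.TC Pool.TCM Finset
open scoped Classical

/-- [T3c] (from `TCT.St_Good`) The rows `Y` of the good colours.
PROOF.  `ι := {i // (Ki K i).Nonempty}`, `K' i := Ki K i`, `Rw i := {w ∈ Ki K i | ¬ pr w ∧ ¬ X w}`,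
`Gd i := {a ∈ Av K pr c i | a ∉ PC .. i ∧ a ∉ Q}`, `al w a := (∀ x, G.Adj w x → A1 K pr x ∨ X x → c' x ≠ a) ∧
K (E.N a w) = K w ∧ ¬ Ld E pr X c' (E.N a w)`.
Rows of `K_i`: `|K_i| ≥ D + 1 - B` (`|K_i| + oo w = D + 1 + #non-neighbours`).  `|PC i| ≤ 4400 B`: every row
`w` counts for at most `2 * oo w` colours `a ∈ Av` (blocked: the `x` with `c x = a` is outside of `K_i`
because `a ∈ Av`; or `E.N a w` outside) and `|K_i| ≤ D + 1 + B`.  `Ld` in `K_i`: `≤ 8 B` (pairs of `K_i`, `prR`),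
`≤ 4400 B` (`X` in `K_i`, by `inj`, `pc`), `≤ D / 2000` (`rgt`).  So for `a ∈ Gd i` the rows which are not allowed are
at most `D / 2000` (not a problem colour) `+ D / 2000` (`blk`) `+ |Ld ∩ K_i| + 8 B + 4400 B + B`, `≤ D / 100`.
`Y := {ro i a}`, `c'' (ro i a) = a`, otherwise `c'' = c'`. -/
def St_3c : Prop := ∀ (V κ : Type) [Fintype V] [Fintype κ] (G : SimpleGraph V) (E : EC κ V)
  (K : V → Option V) (D B Kn m n L0 : ℕ) (Lam : ℝ) (Q : Finset κ) (pr : V → Prop) (c : V → κ)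
  (lam : V → ℕ) (X : V → Prop) (c' : V → κ), Sett G E K D B → Pool.TCT.NK D B Kn m n L0 Lam →
  25 * Q.card ≤ D → D < 25 * (Q.card + 1) → St3a G E K D B Q pr c lam →
  St3b G E K D pr c lam X c' →
  ∃ (Y : V → Prop) (c'' : V → κ), St3c G E K D Q pr c X Y c' c''

/-- [KT] (from `St_3a`, `St_3b`, `St_3c`, `St_3d`) The K-stage. -/
def St_KT : Prop := ∀ (V κ : Type) [Fintype V] [Fintype κ] (G : SimpleGraph V) (E : EC κ V)
  (K : V → Option V) (D B Kn m n L0 : ℕ) (Lam : ℝ) (c0 : V → κ), Sett G E K D B →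
  Pool.TCT.NK D B Kn m n L0 Lam → Prp G (fun v => K v = none) c0 →
  ∃ c : V → κ, Prp G (fun _ => True) c ∧
    (∀ v, ld E (fun _ => True) c v ≤ ld E (fun u => K u = none) c0 v + 2) ∧
    (∀ v, K v = none → D < 2 * DS G K v →
      ld E (fun _ => True) c v ≤ ld E (fun u => K u = none) c0 v + 1)

end Pool.TN
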